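import Mathlib

set_option autoImplicit false

namespace Pool.Agent.R675.AIM

/-- abstract data -/
structure Dat (A : Type) [Group A] (Q : Type) [Mul Q] (V : Type) [AddCommGroup V] where
  T : A → A → A → Q → V
  Tm : Q → A
  Lm : Q → Q → A
  Rm : Q → Q → A
  Um : Q → Q → A
  f : A → A → Q → Q → Q → V
  s12 : ∀ a b c q, T a b c q = T b a c q
  s23 : ∀ a b c q, T a b c q = T a c b q
  add : ∀ a a' b c q, T (a * a') b c q = T a b c q + T a' b c q
  comm : ∀ a b c x y, T a b c (x * y) = T a b c (y * x)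
  fL : ∀ a b x y z, T a b (Lm x y) z = f a b x y z
  fR : ∀ a b x y z, T a b (Rm y z) x = f a b x y z
  fU : ∀ a b x y z, T a b (Um x z) y = f a b x y z
  gneg : ∀ a b u v, T a b (Tm u) v = - T a b (Tm v) u
  gself : ∀ a b u, T a b (Tm u) u = 0
  gmul : ∀ a b x y z, T a b (Tm (x * y)) z =
    T a b (Tm x) z + T a b (Tm y) z + f a b z x y - f a b x z y + f a b x y z
  pent : ∀ a b x y z w, f a b x y (z * w) + f a b (x * y) z w =
    f a b y z w + f a b x (y * z) w + f a b x y z
  gen : ∀ P : A → Prop, (∀ u, P (Tm u)) → (∀ x y, P (Lm x y)) → (∀ x y, P (Rm x y)) →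
    (∀ x y, P (Um x y)) → P 1 → (∀ a b, P a → P b → P (a * b)) → (∀ a, P a → P a⁻¹) → ∀ a, P a

namespace Dat

variable {A : Type} [Group A] {Q : Type} [Mul Q] {V : Type} [AddCommGroup V] (D : Dat A Q V)

theorem s13 (a b c : A) (q : Q) : D.T a b c q = D.T c b a q := by
  rw [D.s12, D.s23, D.s12]

theorem add2 (a b b' c : A) (q : Q) : D.T a (b * b') c q = D.T a b c q + D.T a b' c q := by
  rw [D.s12, D.add, D.s12 b, D.s12 b']

theorem add3 (a b c c' : A) (q : Q) : D.T a b (c * c') q = D.T a b c q + D.T a b c' q := by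
  rw [D.s23, D.add2, D.s23 a c, D.s23 a c']

theorem one1 (b c : A) (q : Q) : D.T 1 b c q = 0 := by
  have := D.add 1 1 b c q
  rw [mul_one] at this
  exact left_eq_add.1 this

theorem one2 (a c : A) (q : Q) : D.T a 1 c q = 0 := by rw [D.s12, D.one1]
theorem one3 (a b : A) (q : Q) : D.T a b 1 q = 0 := by rw [D.s23, D.one2]

theorem inv1 (a b c : A) (q : Q) : D.T a⁻¹ b c q = - D.T a b c q := by
  have := D.add a a⁻¹ b c q
  rw [mul_inv_cancel, D.one1] at this
  exact (neg_eq_of_add_eq_zero_right this.symm).symm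

theorem inv2 (a b c : A) (q : Q) : D.T a b⁻¹ c q = - D.T a b c q := by
  rw [D.s12, D.inv1, D.s12]

theorem f_mul (a b b' : A) (x y z : Q) : D.f a (b * b') x y z = D.f a b x y z + D.f a b' x y z := by
  rw [← D.fL, D.add2, D.fL, D.fL]
theorem f_one (a : A) (x y z : Q) : D.f a 1 x y z = 0 := by
  rw [← D.fL, D.one2]
theorem f_inv (a b : A) (x y z : Q) : D.f a b⁻¹ x y z = - D.f a b x y z := by
  rw [← D.fL, D.inv2, D.fL]
theorem f_symm (a b : A) (x y z : Q) : D.f a b x y z = D.f b a x y z := by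
  rw [← D.fL, D.s12, D.fL]

/-! the case `b = Tm u` -/
theorem B_sw3 (a : A) (u x y z : Q) : D.f a (D.Tm u) x y z = - D.f a (D.Tm z) x y u := by
  rw [← D.fL, D.s23, D.gneg, D.s23, D.fL]
theorem B_sw1 (a : A) (u x y z : Q) : D.f a (D.Tm u) x y z = - D.f a (D.Tm x) u y z := by
  rw [← D.fR, D.s23, D.gneg, D.s23, D.fR]
theorem B_sw2 (a : A) (u x y z : Q) : D.f a (D.Tm u) x y z = - D.f a (D.Tm y) x u z := by
  rw [← D.fU, D.s23, D.gneg, D.s23, D.fU]
theorem B_c3 (a : A) (u x y : Q) : D.f a (D.Tm u) x y u = 0 := by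
  rw [← D.fL, D.s23, D.gself]
theorem B_c1 (a : A) (u y z : Q) : D.f a (D.Tm u) u y z = 0 := by
  rw [← D.fR, D.s23, D.gself]
theorem B_c2 (a : A) (u x z : Q) : D.f a (D.Tm u) x u z = 0 := by
  rw [← D.fU, D.s23, D.gself]
theorem B12 (a : A) (u x y z : Q) : D.f a (D.Tm u) x y z = - D.f a (D.Tm u) y x z := by
  rw [D.B_sw1 a u x y z, D.B_sw2 a x u y z, D.B_sw1 a y u x z]; abel
theorem B23 (a : A) (u x y z : Q) : D.f a (D.Tm u) x y z = - D.f a (D.Tm u) x z y := by
  rw [D.B_sw2 a u x y z, D.B_sw3 a y x u z, D.B_sw2 a z x u y]; abel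
theorem B_xx (a : A) (u x z : Q) : D.f a (D.Tm u) x x z = 0 := by
  rw [D.B_sw1, D.B_c2, neg_zero]
theorem B_yy (a : A) (u x y : Q) : D.f a (D.Tm u) x y y = 0 := by
  rw [D.B_sw2, D.B_c3, neg_zero]
theorem B_xzx (a : A) (u x y : Q) : D.f a (D.Tm u) x y x = 0 := by
  rw [D.B_sw1, D.B_c3, neg_zero]

/-! the case of associator type -/
def P (a : A) (p q x y z : Q) : V := D.f a (D.Lm p q) x y z

theorem s1 (a : A) (p q x y z : Q) : D.P a p q x y z = D.P a x y p q z := by
  rw [P, P, ← D.fL, D.s23, D.fL]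
theorem PU (a : A) (p q x y z : Q) : D.f a (D.Um p q) x y z = D.P a x y p z q := by
  rw [P, ← D.fL, D.s23, D.fU]
theorem PR (a : A) (p q x y z : Q) : D.f a (D.Rm p q) x y z = D.P a x y z p q := by
  rw [P, ← D.fL, D.s23, D.fR]
theorem s4 (a : A) (x y p z q : Q) : D.P a x y p z q = D.P a p y x q z := by
  rw [← D.PU, ← D.PU, ← D.fU, D.s23, D.fU]
theorem s5 (a : A) (x y p z q : Q) : D.P a x y p z q = D.P a p x q y z := by
  rw [← D.PU, ← D.PR, ← D.fR, D.s23, D.fU]
theorem s6 (a : A) (x y z p q : Q) : D.P a x y z p q = D.P a x p q y z := by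
  rw [← D.PR, ← D.PR, ← D.fR, D.s23, D.fR]

theorem c1 (a : A) (x y z u v : Q) : D.P a x y z u v = D.P a y z x u v := by
  rw [D.s1 a x y z u v, D.s5 a z u x y v, D.s6 a x z v u y, D.s1 a x u y z v]
theorem c2 (a : A) (x y z u v : Q) : D.P a x y z u v = D.P a x z u y v := by
  rw [D.s4 a x y z u v, D.s5 a z y x v u]
theorem c3 (a : A) (x y z u v : Q) : D.P a x y z u v = D.P a x y u v z := by
  rw [D.s4 a x y z u v, D.s1 a z y x v u, D.s6 a x v z y u]
theorem d1 (a : A) (x y z u v : Q) : D.P a x y z u v = D.P a y x z v u := by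
  rw [D.s1 a x y z u v, D.s4 a z u x y v, D.s5 a x u z v y, D.s4 a z x y u v]
theorem d2 (a : A) (x y z u v : Q) : D.P a x y z u v = D.P a x z y v u := by
  rw [D.s1 a x y z u v, D.s4 a z u x y v, D.s1 a x u z v y, D.s5 a z v x u y]

theorem EB (a : A) (u v x y z : Q) : D.f a (D.Tm (u * v)) x y z =
    D.f a (D.Tm u) x y z + D.f a (D.Tm v) x y z + (2 : ℤ) • D.P a x y z u v - D.P a y x z u v := by
  have h := D.gmul a (D.Lm x y) u v z
  rw [D.s23, D.fL, D.s23 a _ (D.Tm u), D.fL, D.s23 a _ (D.Tm v), D.fL] at h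
  change _ = _ + _ + D.P a x y z u v - D.P a x y u z v + D.P a x y u v z at h
  rw [← D.c3 a x y z u v] at h
  have h2 : D.P a x y u z v = D.P a y x z u v := by
    rw [D.d1 a x y u z v, ← D.c3 a y x z u v]
  rw [h, h2]
  module

theorem B_comm (a : A) (u v x y z : Q) : D.f a (D.Tm (u * v)) x y z = D.f a (D.Tm (v * u)) x y z := by
  rw [D.B_sw3, D.B_sw3 a (v * u), ← D.fL, ← D.fL, D.comm]

theorem P_sum (a : A) (x y z u v : Q) : D.P a x y z u v + D.P a y x z u v = 0 := by
  have h1 := D.B12 a (u * v) x y z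
  rw [D.EB, D.EB, D.B12 a u y x z, D.B12 a v y x z] at h1
  linear_combination (norm := module) h1

theorem P_three' (a : A) (x y z u v : Q) : (3 : ℤ) • D.P a x y z u v = (3 : ℤ) • D.P a y x z u v := by
  have h1 := D.B_comm a u v x y z
  rw [D.EB, D.EB] at h1
  have h2 : D.P a x y z v u = D.P a y x z u v := (D.d1 a y x z u v).symm
  have h3 : D.P a y x z v u = D.P a x y z u v := (D.d1 a x y z u v).symm
  rw [h2, h3] at h1
  linear_combination (norm := module) h1

theorem P12 (a : A) (x y z u v : Q) : D.P a x y z u v = - D.P a y x z u v :=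
  eq_neg_of_add_eq_zero_left (D.P_sum a x y z u v)

theorem P_six (a : A) (x y z u v : Q) : (6 : ℤ) • D.P a x y z u v = 0 := by
  have h1 := D.P_three' a x y z u v
  rw [D.P12 a y x z u v] at h1
  linear_combination (norm := module) h1

theorem EB' (a : A) (u v x y z : Q) : D.f a (D.Tm (u * v)) x y z =
    D.f a (D.Tm u) x y z + D.f a (D.Tm v) x y z + (3 : ℤ) • D.P a x y z u v := by
  rw [D.EB, D.P12 a y x z u v]; module

theorem P45 (a : A) (x y z u v : Q) : D.P a x y z u v = - D.P a x y z v u := by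
  rw [D.d1 a x y z u v, D.P12 a y x z v u]
theorem P23 (a : A) (x y z u v : Q) : D.P a x y z u v = - D.P a x z y u v := by
  rw [D.d2 a x y z u v, D.P45 a x z y v u]
theorem P34 (a : A) (x y z u v : Q) : D.P a x y z u v = - D.P a x y u z v := by
  rw [D.c3 a x y z u v, D.P45 a x y u v z]

theorem P_three (a : A) (x y z w r : Q) : (3 : ℤ) • D.P a x y z w r = 0 := by
  have h := D.pent a (D.Tm r) x y z w
  have e1 : D.f a (D.Tm r) x y (z * w) = D.f a (D.Tm r) x y z + D.f a (D.Tm r) x y w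
      - (3 : ℤ) • D.P a x y r z w := by
    rw [D.B_sw3 a r x y (z * w), D.EB', D.B_sw3 a z x y r, D.B_sw3 a w x y r]; module
  have e2 : D.f a (D.Tm r) (x * y) z w = D.f a (D.Tm r) x z w + D.f a (D.Tm r) y z w
      - (3 : ℤ) • D.P a r z w x y := by
    rw [D.B_sw1 a r (x * y) z w, D.EB', D.B_sw1 a x r z w, D.B_sw1 a y r z w]; module
  have e3 : D.f a (D.Tm r) x (y * z) w = D.f a (D.Tm r) x y w + D.f a (D.Tm r) x z w
      - (3 : ℤ) • D.P a x r w y z := by
    rw [D.B_sw2 a r x (y * z) w, D.EB', D.B_sw2 a y x r w, D.B_sw2 a z x r w]; module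
  have g1 : D.P a x y r z w = D.P a x y z w r := D.c3 a x y r z w
  have g2 : D.P a r z w x y = D.P a x y z w r := by
    rw [D.P23 a r z w x y, D.P34 a r w z x y, D.P23 a r w x z y, D.P12 a r x w z y,
      D.P45 a x r w z y, D.P34 a x r w y z, D.P23 a x r y w z, D.P34 a x y r w z, D.P45 a x y w r z,
      D.P34 a x y w z r]; simp only [neg_neg]
  have g3 : D.P a x r w y z = - D.P a x y z w r := by
    rw [D.P34 a x r w y z, D.P23 a x r y w z, D.P34 a x y r w z, D.P45 a x y w r z,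
      D.P34 a x y w z r]; simp only [neg_neg]
  rw [e1, e2, e3, g1, g2, g3] at h
  have h6 := D.P_six a x y z w r
  linear_combination (norm := module) (2 : ℤ) • h6 + h

theorem B_add0 (a : A) (u v x y z : Q) : D.f a (D.Tm (u * v)) x y z =
    D.f a (D.Tm u) x y z + D.f a (D.Tm v) x y z := by
  rw [D.EB', D.P_three, add_zero]
theorem B_add3 (a : A) (u x y z w : Q) : D.f a (D.Tm u) x y (z * w) =
    D.f a (D.Tm u) x y z + D.f a (D.Tm u) x y w := by
  rw [D.B_sw3 a u x y (z * w), D.B_add0, D.B_sw3 a z x y u, D.B_sw3 a w x y u]; abel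

/-- deviation for `P` -/
def W (a : A) (p q x y z w : Q) : V := D.P a p q x y (z * w) - D.P a p q x y z - D.P a p q x y w

theorem W12 (a : A) (p q x y z w : Q) : D.W a p q x y z w = - D.W a q p x y z w := by
  rw [W, W, D.P12 a p q x y (z * w), D.P12 a p q x y z, D.P12 a p q x y w]; abel
theorem W23 (a : A) (p q x y z w : Q) : D.W a p q x y z w = - D.W a p x q y z w := by
  rw [W, W, D.P23 a p q x y (z * w), D.P23 a p q x y z, D.P23 a p q x y w]; abel
theorem W34 (a : A) (p q x y z w : Q) : D.W a p q x y z w = - D.W a p q y x z w := by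
  rw [W, W, D.P34 a p q x y (z * w), D.P34 a p q x y z, D.P34 a p q x y w]; abel
theorem W56 (a : A) (p q x y z w : Q) : D.W a p q x y z w = D.W a p q x y w z := by
  have h : D.P a p q x y (z * w) = D.P a p q x y (w * z) := by
    rw [P, P, ← D.fL, ← D.fL, D.comm]
  rw [W, W, h]; abel

theorem W_rel (a : A) (p q x y z w : Q) :
    D.W a p q x y z w + D.W a p q z w x y + D.W a p q x w y z = 0 := by
  have h := D.pent a (D.Lm p q) x y z w
  change D.P a p q x y (z * w) + D.P a p q (x * y) z w =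
    D.P a p q y z w + D.P a p q x (y * z) w + D.P a p q x y z at h
  rw [D.P34 a p q (x * y) z w, D.P45 a p q z (x * y) w, D.P45 a p q x (y * z) w, neg_neg] at h
  have e1 : D.P a p q z w x = D.P a p q x z w := by
    rw [D.P45 a p q z w x, D.P34 a p q z x w, neg_neg]
  have e2 : D.P a p q z w y = D.P a p q y z w := by
    rw [D.P45 a p q z w y, D.P34 a p q z y w, neg_neg]
  have e3 : D.P a p q x w y = - D.P a p q x y w := D.P45 a p q x w y
  have e4 : D.P a p q x w z = - D.P a p q x z w := D.P45 a p q x w z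
  rw [W, W, W, e1, e2, e3, e4]
  linear_combination (norm := module) h

theorem W_k (a : A) (p q x y z w : Q) : D.W a w q x y z p = - D.W a p q x y z w := by
  have h1 := D.W_rel a p q x y z w
  have h2 := D.W_rel a w q x y z p
  have e1 : D.W a w q z p x y = - D.W a p q z w x y := by
    rw [D.W34 a w q z p x y, D.W23 a w q p z x y, D.W12 a w p q z x y, D.W23 a p w q z x y,
      D.W34 a p q w z x y]; simp only [neg_neg]
  have e2 : D.W a w q x p y z = - D.W a p q x w y z := by
    rw [D.W34 a w q x p y z, D.W23 a w q p x y z, D.W12 a w p q x y z, D.W23 a p w q x y z,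
      D.W34 a p q w x y z]; simp only [neg_neg]
  rw [e1, e2] at h2
  linear_combination (norm := module) h1 + h2

theorem W_two (a : A) (p q x y z w : Q) : (2 : ℤ) • D.W a p q x y z w = 0 := by
  have h : D.W a p q x y z w = - D.W a p q x y z w := by
    conv_lhs => rw [D.W56 a p q x y z w, D.W_k a z q x y w p, D.W56 a z q x y w p,
      D.W_k a w q x y p z, D.W56 a w q x y p z, D.W_k a p q x y z w]
    simp only [neg_neg]
  linear_combination (norm := module) h

theorem W_zero (a : A) (p q x y z w : Q) : D.W a p q x y z w = 0 := by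
  have h := D.W_rel a p q x y z w
  have h2 := D.W_two a p q x y z w
  have sg : ∀ v : V, (2 : ℤ) • v = 0 → - v = v := by
    intro v hv
    linear_combination (norm := module) - hv
  have t12 : ∀ p q x y z w, D.W a p q x y z w = D.W a q p x y z w := fun p q x y z w => by
    rw [D.W12, sg _ (D.W_two a q p x y z w)]
  have t23 : ∀ p q x y z w, D.W a p q x y z w = D.W a p x q y z w := fun p q x y z w => by
    rw [D.W23, sg _ (D.W_two a p x q y z w)]
  have t34 : ∀ p q x y z w, D.W a p q x y z w = D.W a p q y x z w := fun p q x y z w => by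
    rw [D.W34, sg _ (D.W_two a p q y x z w)]
  have tk : ∀ p q x y z w, D.W a p q x y z w = D.W a w q x y z p := fun p q x y z w => by
    rw [D.W_k a w q x y z p, sg _ (D.W_two a w q x y z p)]
  have t36 : ∀ p q x y z w, D.W a p q x y z w = D.W a p q w y z x := fun p q x y z w => by
    rw [t23 p q x y z w, t12 p x q y z w, tk x p q y z w, t12 w p q y z x, t23 p w q y z x]
  have t46 : ∀ p q x y z w, D.W a p q x y z w = D.W a p q x w z y := fun p q x y z w => by
    rw [t34 p q x y z w, t36 p q y x z w, t34 p q w x z y]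
  have t35 : ∀ p q x y z w, D.W a p q x y z w = D.W a p q z y x w := fun p q x y z w => by
    rw [D.W56 a p q x y z w, t36 p q x y w z, D.W56 a p q z y w x]
  have t45 : ∀ p q x y z w, D.W a p q x y z w = D.W a p q x z y w := fun p q x y z w => by
    rw [t34 p q x y z w, t35 p q y x z w, t34 p q z x y w]
  have e1 : D.W a p q z w x y = D.W a p q x y z w := by
    rw [t35 p q z w x y, t46 p q x w z y]
  have e2 : D.W a p q x w y z = D.W a p q x y z w := by
    rw [t45 p q x w y z, D.W56 a p q x y w z]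
  rw [e1, e2] at h
  linear_combination (norm := module) h - h2

theorem P_add5 (a : A) (p q x y z w : Q) : D.P a p q x y (z * w) = D.P a p q x y z + D.P a p q x y w := by
  have := D.W_zero a p q x y z w
  rw [W] at this
  linear_combination (norm := module) this

theorem P_12 (a : A) (x z u v : Q) : D.P a x x z u v = 0 := by
  have h1 := D.P12 a x x z u v
  have h2 := D.P_three a x x z u v
  linear_combination (norm := module) h2 - h1
theorem P_34 (a : A) (x z u v : Q) : D.P a x z u u v = 0 := by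
  have h1 := D.P34 a x z u u v
  have h2 := D.P_three a x z u u v
  linear_combination (norm := module) h2 - h1
theorem P_45 (a : A) (x z u v : Q) : D.P a x z v u u = 0 := by
  have h1 := D.P45 a x z v u u
  have h2 := D.P_three a x z v u u
  linear_combination (norm := module) h2 - h1
theorem P_35 (a : A) (x z u v : Q) : D.P a x z u v u = 0 := by
  rw [D.P34, D.P_45, neg_zero]
theorem P_23 (a : A) (x z u v : Q) : D.P a x z z u v = 0 := by
  have h1 := D.P23 a x z z u v
  have h2 := D.P_three a x z z u v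
  linear_combination (norm := module) h2 - h1
theorem P_13 (a : A) (x z u v : Q) : D.P a x z x u v = 0 := by
  rw [D.P23, D.P_12, neg_zero]

/-- what we want to know on `f a b` -/
structure Good (a b : A) : Prop where
  x12 : ∀ x y z, D.f a b x y z = - D.f a b y x z
  x23 : ∀ x y z, D.f a b x y z = - D.f a b x z y
  z12 : ∀ x z, D.f a b x x z = 0
  z23 : ∀ x z, D.f a b x z z = 0
  z13 : ∀ x z, D.f a b x z x = 0
  ad : ∀ x y z w, D.f a b x y (z * w) = D.f a b x y z + D.f a b x y w
  six : ∀ x y z, (6 : ℤ) • D.f a b x y z = 0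

theorem two_TTT (a : A) (u v w : Q) : (2 : ℤ) • D.T a (D.Tm u) (D.Tm v) w = 0 := by
  have h : D.T a (D.Tm u) (D.Tm v) w = - D.T a (D.Tm u) (D.Tm v) w := by
    conv_lhs => rw [D.gneg a (D.Tm u) v w, D.s23 a (D.Tm u), D.gneg a (D.Tm w) u v, D.s23 a (D.Tm w),
      D.gneg a (D.Tm v) w u, D.s23 a (D.Tm v)]
    simp only [neg_neg]
  linear_combination (norm := module) h

/-- deviation of `T` -/
def d (a b c : A) (s t : Q) : V := D.T a b c (s * t) - D.T a b c s - D.T a b c t

theorem d_T0 (a b : A) (u s t : Q) : D.d a b (D.Tm u) s t =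
    - (D.f a b u s t - D.f a b s u t + D.f a b s t u) := by
  rw [d, D.gneg a b u (s * t), D.gmul, D.gneg a b u s, D.gneg a b u t]; abel

theorem six_B (a : A) (w u s t : Q) : (6 : ℤ) • D.f a (D.Tm w) u s t = 0 := by
  have h := D.d_T0 a (D.Tm w) u s t
  have h1 := D.two_TTT a w u (s * t)
  have h2 := D.two_TTT a w u s
  have h3 := D.two_TTT a w u t
  rw [d] at h
  have e1 : D.f a (D.Tm w) s u t = - D.f a (D.Tm w) u s t := D.B12 a w s u t
  have e2 : D.f a (D.Tm w) s t u = D.f a (D.Tm w) u s t := by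
    rw [D.B23 a w s t u, D.B12 a w s u t, neg_neg]
  rw [e1, e2] at h
  linear_combination (norm := module) (2 : ℤ) • h - h1 + h2 + h3

theorem P_six' (a : A) (x y z w r : Q) : (6 : ℤ) • D.P a x y z w r = 0 := by
  have := D.P_three a x y z w r
  linear_combination (norm := module) (2 : ℤ) • this

theorem P_add3 (a : A) (p q x y z w : Q) : D.P a x y (z * w) p q = D.P a x y z p q + D.P a x y w p q := by
  rw [D.c3 a x y (z * w) p q, D.P_add5, ← D.c3 a x y z p q, ← D.c3 a x y w p q]
theorem P_add4 (a : A) (p q x y z w : Q) : D.P a x y p (z * w) q = D.P a x y p z q + D.P a x y p w q := by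
  rw [D.P45, D.P_add5, D.P45 a x y p z q, D.P45 a x y p w q]; abel
theorem P_add2 (a : A) (p q x y z w : Q) : D.P a x (z * w) y p q = D.P a x z y p q + D.P a x w y p q := by
  rw [D.P23, D.P_add3, D.P23 a x z y p q, D.P23 a x w y p q]; abel

theorem good (a b : A) : D.Good a b := by
  refine D.gen (fun b => D.Good a b) ?_ ?_ ?_ ?_ ?_ ?_ ?_ b
  · intro u
    exact ⟨D.B12 a u, D.B23 a u, D.B_xx a u, fun x z => D.B_yy a u x z, fun x z => D.B_xzx a u x z,
      D.B_add3 a u, D.six_B a u⟩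
  · intro p q
    exact ⟨D.P34 a p q, D.P45 a p q, fun x z => D.P_34 a p q x z, fun x z => D.P_45 a p q z x,
      fun x z => D.P_35 a p q x z, D.P_add5 a p q, D.P_six' a p q⟩
  · intro p q
    refine ⟨?_, ?_, ?_, ?_, ?_, ?_, ?_⟩
    · intro x y z; rw [D.PR, D.PR, D.P12]
    · intro x y z; rw [D.PR, D.PR, D.P23]
    · intro x z; rw [D.PR, D.P_12]
    · intro x z; rw [D.PR, D.P_23]
    · intro x z; rw [D.PR, D.P_13]
    · intro x y z w; rw [D.PR, D.PR, D.PR, D.P_add3]
    · intro x y z; rw [D.PR, D.P_six']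
  · intro p q
    refine ⟨?_, ?_, ?_, ?_, ?_, ?_, ?_⟩
    · intro x y z; rw [D.PU, D.PU, D.P12]
    · intro x y z; rw [D.PU, D.PU, D.P23, D.P34, D.P23]; simp only [neg_neg]
    · intro x z; rw [D.PU, D.P_12]
    · intro x z; rw [D.PU, D.P23, D.P_34, neg_zero]
    · intro x z; rw [D.PU, D.P23, D.P34, D.P_13]; simp only [neg_zero]
    · intro x y z w; rw [D.PU, D.PU, D.PU, D.P_add4]
    · intro x y z; rw [D.PU, D.P_six']
  · refine ⟨?_, ?_, ?_, ?_, ?_, ?_, ?_⟩ <;> intros <;> simp only [D.f_one, neg_zero, add_zero, smul_zero]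
  · intro b b' h h'
    refine ⟨?_, ?_, ?_, ?_, ?_, ?_, ?_⟩
    · intro x y z; rw [D.f_mul, D.f_mul, h.x12, h'.x12]; abel
    · intro x y z; rw [D.f_mul, D.f_mul, h.x23, h'.x23]; abel
    · intro x z; rw [D.f_mul, h.z12, h'.z12, add_zero]
    · intro x z; rw [D.f_mul, h.z23, h'.z23, add_zero]
    · intro x z; rw [D.f_mul, h.z13, h'.z13, add_zero]
    · intro x y z w; rw [D.f_mul, D.f_mul, D.f_mul, h.ad, h'.ad]; abel
    · intro x y z; rw [D.f_mul, smul_add, h.six, h'.six, add_zero]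
  · intro b h
    refine ⟨?_, ?_, ?_, ?_, ?_, ?_, ?_⟩
    · intro x y z; rw [D.f_inv, D.f_inv, h.x12]
    · intro x y z; rw [D.f_inv, D.f_inv, h.x23]
    · intro x z; rw [D.f_inv, h.z12, neg_zero]
    · intro x z; rw [D.f_inv, h.z23, neg_zero]
    · intro x z; rw [D.f_inv, h.z13, neg_zero]
    · intro x y z w; rw [D.f_inv, D.f_inv, D.f_inv, h.ad]; abel
    · intro x y z; rw [D.f_inv, smul_neg, h.six, neg_zero]

theorem f_rot (a b : A) (x y z : Q) : D.f a b x y z = D.f a b y z x := by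
  rw [(D.good a b).x12 x y z, (D.good a b).x23 y x z, neg_neg]
theorem f_ad1 (a b : A) (x y z w : Q) : D.f a b (z * w) x y = D.f a b z x y + D.f a b w x y := by
  rw [D.f_rot, (D.good a b).ad, ← D.f_rot a b z x y, ← D.f_rot a b w x y]
theorem f_ad2 (a b : A) (x y z w : Q) : D.f a b x (z * w) y = D.f a b x z y + D.f a b x w y := by
  rw [(D.good a b).x23, (D.good a b).ad, (D.good a b).x23 x y z, (D.good a b).x23 x y w]; abel

theorem d_T (a b : A) (u s t : Q) : D.d a b (D.Tm u) s t = - ((3 : ℤ) • D.f a b u s t) := by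
  rw [d_T0, (D.good a b).x12 s u t, D.f_rot a b s t u, D.f_rot a b t u s]
  module

theorem d_L (a b : A) (x y s t : Q) : D.d a b (D.Lm x y) s t = 0 := by
  rw [d, D.fL, D.fL, D.fL, (D.good a b).ad]; abel
theorem d_R (a b : A) (x y s t : Q) : D.d a b (D.Rm x y) s t = 0 := by
  rw [d, D.fR, D.fR, D.fR, D.f_ad1]; abel
theorem d_U (a b : A) (x y s t : Q) : D.d a b (D.Um x y) s t = 0 := by
  rw [d, D.fU, D.fU, D.fU, D.f_ad2]; abel

theorem d_s12 (a b c : A) (s t : Q) : D.d a b c s t = D.d b a c s t := by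
  simp only [d, D.s12 a b]
theorem d_s23 (a b c : A) (s t : Q) : D.d a b c s t = D.d a c b s t := by
  simp only [d, D.s23 a b]
theorem d_comm (a b c : A) (s t : Q) : D.d a b c s t = D.d a b c t s := by
  rw [d, d, D.comm]; abel
theorem d_mul3 (a b c c' : A) (s t : Q) : D.d a b (c * c') s t = D.d a b c s t + D.d a b c' s t := by
  simp only [d, D.add3]; abel
theorem d_mul1 (a b c c' : A) (s t : Q) : D.d (c * c') a b s t = D.d c a b s t + D.d c' a b s t := by
  simp only [d, D.add]; abel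
theorem d_one3 (a b : A) (s t : Q) : D.d a b 1 s t = 0 := by
  simp only [d, D.one3]; abel
theorem d_inv3 (a b c : A) (s t : Q) : D.d a b c⁻¹ s t = - D.d a b c s t := by
  have := D.d_mul3 a b c c⁻¹ s t
  rw [mul_inv_cancel, d_one3] at this
  exact (neg_eq_of_add_eq_zero_right this.symm).symm

theorem d_two (a b c : A) (s t : Q) : (2 : ℤ) • D.d a b c s t = 0 := by
  refine D.gen (fun c => (2 : ℤ) • D.d a b c s t = 0) ?_ ?_ ?_ ?_ ?_ ?_ ?_ c
  · intro u
    have := (D.good a b).six u s t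
    rw [D.d_T]
    linear_combination (norm := module) - this
  · intro x y; rw [D.d_L, smul_zero]
  · intro x y; rw [D.d_R, smul_zero]
  · intro x y; rw [D.d_U, smul_zero]
  · rw [D.d_one3, smul_zero]
  · intro b b' h h'; rw [D.d_mul3, smul_add, h, h', add_zero]
  · intro b h; rw [D.d_inv3, smul_neg, h, neg_zero]

theorem d_ad (a b c : A) (s t r : Q) : D.d a b c s (t * r) = D.d a b c s t + D.d a b c s r := by
  refine D.gen (fun c => D.d a b c s (t * r) = D.d a b c s t + D.d a b c s r) ?_ ?_ ?_ ?_ ?_ ?_ ?_ c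
  · intro u
    rw [D.d_T, D.d_T, D.d_T, (D.good a b).ad]; module
  · intro x y; rw [D.d_L, D.d_L, D.d_L, add_zero]
  · intro x y; rw [D.d_R, D.d_R, D.d_R, add_zero]
  · intro x y; rw [D.d_U, D.d_U, D.d_U, add_zero]
  · rw [D.d_one3, D.d_one3, D.d_one3, add_zero]
  · intro b b' h h'; rw [D.d_mul3, D.d_mul3, D.d_mul3, h, h']; abel
  · intro b h; rw [D.d_inv3, D.d_inv3, D.d_inv3, h]; abel

theorem d_TT (u : Q) (c : A) (s t : Q) : D.d (D.Tm u) (D.Tm u) c s t = 0 := by
  rw [D.d_s23, D.d_T, ← D.fL, D.s13, D.gneg, D.s13, D.fL, (D.good _ _).z13]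
  simp

theorem d_hh (h c : A) (s t : Q) : D.d h h c s t = 0 := by
  refine D.gen (fun h => D.d h h c s t = 0) ?_ ?_ ?_ ?_ ?_ ?_ ?_ h
  · intro u; exact D.d_TT u c s t
  · intro x y; rw [D.d_s23, D.d_L]
  · intro x y; rw [D.d_s23, D.d_R]
  · intro x y; rw [D.d_s23, D.d_U]
  · rw [D.d_s23, D.d_one3]
  · intro b b' h h'
    rw [D.d_mul1, D.d_s12 b, D.d_s12 b', D.d_mul1, D.d_mul1, h, h', D.d_s12 b' b]
    have := D.d_two b b' c s t
    linear_combination (norm := module) this
  · intro b h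
    rw [D.d_s23, D.d_inv3, D.d_s23 _ _ b, D.d_s12, D.d_s23, D.d_inv3, D.d_s23, h]; simp

end Dat

end Pool.Agent.R675.AIM
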