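import Pool.Agent.R675.AIM.Levels

set_option autoImplicit false

namespace Pool.Agent.R675.AIM

open Loop

variable {Q : Type} [Loop Q]

theorem mul_right_cancel' {x y z : Q} (h : x * z = y * z) : x = y := by
  have := congrArg (fun t => rd t z) h
  simpa only [mul_rd] using this

theorem mul_left_cancel' {x y z : Q} (h : z * x = z * y) : x = y := by
  have := congrArg (fun t => ld z t) h
  simpa only [ld_mul] using this

/-! central elements -/
theorem cen_comm {z : Q} (hz : R z ∈ Zt (⊥ : Subgroup (G Q))) (p : G Q) : R z * p = p * R z := by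
  obtain ⟨u, hu, e⟩ := mem_Zt.1 hz p
  rw [Subgroup.mem_bot] at hu
  rw [e, hu, one_mul]

theorem cen_LR {z : Q} (hz : R z ∈ Zt (⊥ : Subgroup (G Q))) : L z = R z := by
  have := LR_mem hz
  rw [Subgroup.mem_bot] at this
  rwa [mul_inv_eq_one] at this

theorem cen_mul_comm {z : Q} (hz : R z ∈ Zt (⊥ : Subgroup (G Q))) (x : Q) : z * x = x * z := by
  rw [← sL, cen_LR hz, sR]

theorem cen_smul {z : Q} (hz : R z ∈ Zt (⊥ : Subgroup (G Q))) (p : G Q) (x : Q) :
    p • (z * x) = z * (p • x) := by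
  rw [cen_mul_comm hz, cen_mul_comm hz, ← sR, ← sR, ← mul_smul, ← mul_smul, cen_comm hz]

theorem cen_mul_assoc {z : Q} (hz : R z ∈ Zt (⊥ : Subgroup (G Q))) (x y : Q) :
    z * (x * y) = (z * x) * y := by
  have := cen_smul hz (R y) x
  rw [sR, sR] at this
  exact this.symm

theorem cen_mul_assoc' {z : Q} (hz : R z ∈ Zt (⊥ : Subgroup (G Q))) (x y : Q) :
    x * (z * y) = z * (x * y) := by
  have := cen_smul hz (L x) y
  rwa [sL, sL] at this

/-- elements of `N1` act by central elements -/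
theorem N1_act {u : G Q} (hu : u ∈ N1 Q) (q : Q) :
    ∃ z : Q, R z ∈ Zt (⊥ : Subgroup (G Q)) ∧ u • q = z * q := Nu_exists hu q

variable [Ab4 Q]

theorem R_mem_NN_of {y : G Q} (hy : y ∈ NN Q) : R (y • (1 : Q)) ∈ NN Q := by
  have h := H_le_NN (RinvH y)
  have := mul_mem hy (inv_mem h)
  simpa using this

/-- the elements of the subloop `C` -/
def CC (Q : Type) [Loop Q] [Ab4 Q] : Type := {x : Q // R x ∈ NN Q}

omit [Ab4 Q] in
theorem C_Zt {n : Q} (hn : R n ∈ NN Q) : R n ∈ Zt (N2 Q) := by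
  obtain ⟨a, ha, e⟩ := Nu_exists (NN_le_N3 hn) 1
  rw [sR1, mul_one'] at e
  rwa [e]

theorem smul_C {y : G Q} (hy : y ∈ NN Q) {x : Q} (hx : R x ∈ NN Q) : R (y • x) ∈ NN Q := by
  have := R_mem_NN_of (mul_mem hy hx)
  rwa [mul_smul, sR1] at this

omit [Ab4 Q] in
/-- `H ∩ N1` fixes `C` -/
theorem fixC {k : G Q} (hk : k ∈ H Q) (hk1 : k ∈ N1 Q) {n : Q} (hn : R n ∈ NN Q) : k • n = n := by
  have e := n1 hn hk1
  have := congrArg (fun g : G Q => g • (1 : Q)) e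
  simp only [mul_smul] at this
  rw [mem_H.1 hk, sR1] at this
  exact this.symm

omit [Ab4 Q] in
/-- `H ∩ N2` moves elements of `C` by central elements -/
theorem moveC {k : G Q} (hk : k ∈ H Q) (hk1 : k ∈ N2 Q) {n : Q} (hn : R n ∈ NN Q) :
    ∃ z : Q, R z ∈ Zt (⊥ : Subgroup (G Q)) ∧ k • n = z * n := by
  obtain ⟨u, hu, e⟩ := n2 hn hk1
  have := congrArg (fun g : G Q => g • (1 : Q)) e
  simp only [mul_smul] at this
  rw [mem_H.1 hk, sR1] at this
  obtain ⟨z, hz, e2⟩ := N1_act (inv_mem hu) n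
  refine ⟨z, hz, ?_⟩
  rw [← e2, eq_inv_smul_iff, ← this]

theorem RR_N1 {m l : Q} (hm : R m ∈ NN Q) (hl : R l ∈ NN Q) : RR m l ∈ N1 Q := by
  apply (inferInstance : PC (N1 Q)).pc
  intro q
  obtain ⟨z, hz, e⟩ := moveC (LL_mem q m) (LLxa (C_Zt hm) q) hl
  -- q * (m * l) = (q * m) * (LL q m • l)
  have e1 : q * (m * l) = (q * m) * (LL q m • l) := by
    rw [LL, mul_smul, mul_smul, sL, sL, ← sL (q * m), smul_inv_smul]
  rw [e, cen_mul_assoc' hz] at e1
  -- (RR m l • q) * (m * l) = (q * m) * l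
  have e2 : (RR m l • q) * (m * l) = (q * m) * l := by
    rw [RR, mul_smul, mul_smul, sR, sR, ← sR (m * l), smul_inv_smul]
  rw [← e2, cen_mul_assoc hz] at e1
  have e3 := mul_right_cancel' e1
  refine ⟨(L z)⁻¹, inv_mem (Zt_le_Nu _ (L_mem_Zt' hz)), ?_⟩
  rw [eq_inv_smul_iff, sL, ← e3]

theorem assocC {n m l : Q} (hn : R n ∈ NN Q) (hm : R m ∈ NN Q) (hl : R l ∈ NN Q) :
    (n * m) * l = n * (m * l) := by
  have e := fixC (RR_mem m l) (RR_N1 hm hl) hn
  have e2 : (RR m l • n) * (m * l) = (n * m) * l := by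
    rw [RR, mul_smul, mul_smul, sR, sR, ← sR (m * l), smul_inv_smul]
  rw [← e2, e]

theorem mulC {n m : Q} (hn : R n ∈ NN Q) (hm : R m ∈ NN Q) : R (n * m) ∈ NN Q := by
  have := smul_C hm hn
  rwa [sR] at this

instance : Group (CC Q) :=
  letI : Mul (CC Q) := ⟨fun n m => ⟨n.1 * m.1, mulC n.2 m.2⟩⟩
  letI : One (CC Q) := ⟨⟨1, by
    have h : (1 : G Q) ∈ NN Q := one_mem _
    have := R_mem_NN_of h
    rwa [one_smul] at this⟩⟩
  letI : Inv (CC Q) := ⟨fun n => ⟨(R n.1)⁻¹ • (1 : Q), R_mem_NN_of (inv_mem n.2)⟩⟩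
  Group.ofLeftAxioms (fun a b c => Subtype.ext (assocC a.2 b.2 c.2))
    (fun a => Subtype.ext (one_mul' a.1))
    (fun a => Subtype.ext (by
      change ((R a.1)⁻¹ • (1 : Q)) * a.1 = 1
      rw [← sR a.1, smul_inv_smul]))

theorem coe_mul (n m : CC Q) : (n * m).1 = n.1 * m.1 := rfl
theorem coe_one : (1 : CC Q).1 = 1 := rfl

instance : MulAction (NN Q) (CC Q) where
  smul y x := ⟨(y : G Q) • x.1, smul_C y.2 x.2⟩
  one_smul x := Subtype.ext (one_smul (G Q) x.1)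
  mul_smul a b x := Subtype.ext (mul_smul (a : G Q) (b : G Q) x.1)

theorem coe_smul (y : NN Q) (x : CC Q) : (y • x).1 = (y : G Q) • x.1 := rfl

/-- right translations by elements of `C` -/
def RC (n : CC Q) : NN Q := ⟨R n.1, n.2⟩

theorem RC_smul (n x : CC Q) : RC n • x = x * n := rfl
theorem RC_one (n : CC Q) : RC n • (1 : CC Q) = n := by rw [RC_smul, one_mul]

theorem sm_one (y : NN Q) : (y • (1 : CC Q)).1 = (y : G Q) • (1 : Q) := rfl

/-- `C ∩ Z_2` -/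
def C2 (Q : Type) [Loop Q] [Ab4 Q] : Subgroup (CC Q) where
  carrier := {z | R z.1 ∈ Zt (N1 Q)}
  one_mem' := by
    have := R_mem_Zt (one_mem (Zt (N1 Q)))
    rwa [one_smul] at this
  mul_mem' := by
    intro a b ha hb
    have := R_mem_Zt (mul_mem hb ha)
    rwa [mul_smul, sR1, sR] at this
  inv_mem' := by
    intro a ha
    exact R_mem_Zt (inv_mem ha)

theorem mem_C2 {z : CC Q} : z ∈ C2 Q ↔ R z.1 ∈ Zt (N1 Q) := Iff.rfl

/-- `C ∩ Z_1` -/
def ZC (Q : Type) [Loop Q] [Ab4 Q] : Subgroup (CC Q) where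
  carrier := {z | R z.1 ∈ Zt (⊥ : Subgroup (G Q))}
  one_mem' := by
    have := R_mem_Zt (one_mem (Zt (⊥ : Subgroup (G Q))))
    rwa [one_smul] at this
  mul_mem' := by
    intro a b ha hb
    have := R_mem_Zt (mul_mem hb ha)
    rwa [mul_smul, sR1, sR] at this
  inv_mem' := by
    intro a ha
    exact R_mem_Zt (inv_mem ha)

theorem mem_ZC {z : CC Q} : z ∈ ZC Q ↔ R z.1 ∈ Zt (⊥ : Subgroup (G Q)) := Iff.rfl

omit [Ab4 Q] in
theorem Zt_bot_le : Zt (⊥ : Subgroup (G Q)) ≤ Zt (N1 Q) :=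
  (Zt_le_Nu _).trans (le_Zt _)

theorem ZC_le : ZC Q ≤ C2 Q := fun _ hz => Zt_bot_le hz

theorem C2_comm {z : CC Q} (hz : z ∈ C2 Q) (n : CC Q) : z * n = n * z := by
  apply Subtype.ext
  rw [coe_mul, coe_mul]
  have e := fixC (TT_mem z.1) (TTa hz) n.2
  have e2 : (TT z.1 • n.1) * z.1 = z.1 * n.1 := by
    rw [TT, mul_smul, sL, ← sR z.1, smul_inv_smul]
  rw [← e2, e]

instance : CommGroup (C2 Q) :=
  { (inferInstance : Group (C2 Q)) with
    mul_comm := fun a b => Subtype.ext (C2_comm a.2 b.1) }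

/-- additive version of `C ∩ Z_2` -/
abbrev V (Q : Type) [Loop Q] [Ab4 Q] : Type := Additive (C2 Q)

/-- the inclusion -/
def ι (v : V Q) : CC Q := (Additive.toMul v : C2 Q).1

theorem ι_mem (v : V Q) : ι v ∈ C2 Q := (Additive.toMul v : C2 Q).2
theorem ι_add (v w : V Q) : ι (v + w) = ι v * ι w := rfl
theorem ι_zero : ι (0 : V Q) = 1 := rfl
theorem ι_neg (v : V Q) : ι (-v) = (ι v)⁻¹ := rfl
theorem ι_sub (v w : V Q) : ι (v - w) = ι v * (ι w)⁻¹ := by rw [sub_eq_add_neg, ι_add, ι_neg]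
theorem ι_inj {v w : V Q} (h : ι v = ι w) : v = w := by
  apply Additive.toMul.injective
  exact Subtype.ext h
theorem ι_comm (v : V Q) (n : CC Q) : ι v * n = n * ι v := C2_comm (ι_mem v) n

/-- an element of `C2` as an element of `V` -/
def toV (z : CC Q) (hz : z ∈ C2 Q) : V Q := Additive.ofMul ⟨z, hz⟩
theorem ι_toV (z : CC Q) (hz : z ∈ C2 Q) : ι (toV z hz) = z := rfl

end Pool.Agent.R675.AIM
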