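import Pool.Agent.R675.AIM.Del2

set_option autoImplicit false

namespace Pool.Agent.R675.AIM

open Loop

variable {Q : Type} [Loop Q] [Ab4 Q]

/-! properties of `T3` -/
theorem T3_add_left (a a' b : NN Q) (x : CC Q) : T3 (a * a') b x = T3 a b x + T3 a' b x := by
  have h : del (a * a') (ι (del b x)) = del a (ι (del b x)) + del a' (ι (del b x)) := by
    rw [del_comp, Xi_ι_left, T3, del_Z (del_ι_isZ a' _) a]; abel
  exact h

theorem T3_add_mid (a b b' : NN Q) (x : CC Q) : T3 a (b * b') x = T3 a b x + T3 a b' x := by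
  rw [T3_symm, T3_add_left, T3_symm b, T3_symm b']

theorem T3_mul (a b : NN Q) (x x' : CC Q) : T3 a b (x * x') = T3 a b x + T3 a b x' := by
  rw [T3_def, del_mul, map_add, map_add, dV_isZ (Xi_isZ _ _ _), add_zero]; rfl

theorem T3_ι (a b : NN Q) (v : V Q) : T3 a b (ι v) = 0 := del_Z (del_ι_isZ _ _) _

theorem T3_ι_mul (a b : NN Q) (v : V Q) (x : CC Q) : T3 a b (ι v * x) = T3 a b x := by
  rw [T3_mul, T3_ι, zero_add]

theorem T3_one (a b : NN Q) : T3 a b 1 = 0 := T3_ι a b 0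

theorem T3_inv (a b : NN Q) (x : CC Q) : T3 a b x⁻¹ = - T3 a b x := by
  have := T3_mul a b x x⁻¹
  rw [mul_inv_cancel, T3_one] at this
  exact (neg_eq_of_add_eq_zero_right this.symm).symm

theorem T3_smul (a b y : NN Q) (x : CC Q) : T3 a b (y • x) = T3 a b x + T3 a b (y • (1 : CC Q)) := by
  rw [smul_eq, mul_assoc, T3_ι_mul, T3_mul]

theorem T3_Nice_mid {u : NN Q} (hu : Nice u) (a : NN Q) (x : CC Q) : T3 a u x = 0 :=
  dV_isZ (hu.isZ x) a

theorem T3_Nice_left {u : NN Q} (hu : Nice u) (a : NN Q) (x : CC Q) : T3 u a x = 0 := by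
  rw [T3_symm, T3_Nice_mid hu]

theorem T3_one_left (b : NN Q) (x : CC Q) : T3 1 b x = 0 := by
  have := T3_add_left 1 1 b x
  rw [mul_one] at this
  exact left_eq_add.1 this

theorem T3_inv_left (a b : NN Q) (x : CC Q) : T3 a⁻¹ b x = - T3 a b x := by
  have := T3_add_left a a⁻¹ b x
  rw [mul_inv_cancel, T3_one_left] at this
  exact (neg_eq_of_add_eq_zero_right this.symm).symm

theorem T3_inv_mid (a b : NN Q) (x : CC Q) : T3 a b⁻¹ x = - T3 a b x := by
  rw [T3_symm, T3_inv_left, T3_symm]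

theorem et_fix {y : NN Q} (hy : y • (1 : CC Q) = 1) : et y = y := by
  rw [et, hy]
  have : RC (1 : CC Q) = 1 := by
    apply Subtype.ext
    apply G_ext
    intro q
    change q * (1 : Q) = q
    exact mul_one' q
  rw [this]; group

theorem Nice_of_N2 {u : NN Q} (hu : (u : G Q) ∈ N2 Q) : Nice u := by
  unfold Nice et
  exact mul_mem (inv_mem (Zt_le_Nu _ (N2_one hu))) hu

theorem Nice_of_Zt {u : NN Q} (hu : (u : G Q) ∈ Zt (N2 Q)) : Nice u := by
  unfold Nice et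
  have h1 := inv_mem (R_of_Zt hu)
  have h2 := (inferInstance : (N2 Q).Normal).conj_mem _ h1 (R ((u : G Q) • (1 : Q)))⁻¹
  have h3 : (R ((u : G Q) • (1 : Q)))⁻¹ * (R ((u : G Q) • (1 : Q)) * (u : G Q)⁻¹)⁻¹ * (R ((u : G Q) • (1 : Q)))⁻¹⁻¹
      = (R ((u : G Q) • (1 : Q)))⁻¹ * u := by group
  rw [h3] at h2
  exact h2

theorem etN1_of_Zt {u : NN Q} (hu : (u : G Q) ∈ Zt (N1 Q)) : ((et u : NN Q) : G Q) ∈ N1 Q := by
  have h1 := inv_mem (R_of_Zt hu)
  have h2 := (inferInstance : (N1 Q).Normal).conj_mem _ h1 (R ((u : G Q) • (1 : Q)))⁻¹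
  have h3 : (R ((u : G Q) • (1 : Q)))⁻¹ * (R ((u : G Q) • (1 : Q)) * (u : G Q)⁻¹)⁻¹ * (R ((u : G Q) • (1 : Q)))⁻¹⁻¹
      = (R ((u : G Q) • (1 : Q)))⁻¹ * u := by group
  rw [h3] at h2
  exact h2

/-! conjugation -/
def cj (p : G Q) (y : NN Q) : NN Q := ⟨p⁻¹ * y * p, by
  have := (inferInstance : (NN Q).Normal).conj_mem _ y.2 p⁻¹
  simpa using this⟩

omit [Ab4 Q] in
theorem cj_coe (p : G Q) (y : NN Q) : ((cj p y : NN Q) : G Q) = p⁻¹ * y * p := rfl
omit [Ab4 Q] in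
theorem cj_mul (p : G Q) (y y' : NN Q) : cj p (y * y') = cj p y * cj p y' :=
  Subtype.ext (by simp only [cj_coe, Subgroup.coe_mul]; group)
omit [Ab4 Q] in
theorem cj_inv (p : G Q) (y : NN Q) : cj p y⁻¹ = (cj p y)⁻¹ :=
  Subtype.ext (by simp only [cj_coe, Subgroup.coe_inv]; group)
omit [Ab4 Q] in
theorem cj_cj (p p' : G Q) (y : NN Q) : cj p' (cj p y) = cj (p * p') y :=
  Subtype.ext (by simp only [cj_coe]; group)
omit [Ab4 Q] in
theorem cj_one (y : NN Q) : cj 1 y = y :=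
  Subtype.ext (by simp only [cj_coe]; group)
omit [Ab4 Q] in
theorem cj_com (p : G Q) (y y' : NN Q) : cj p (com y y') = com (cj p y) (cj p y') := by
  rw [com, com, cj_mul, cj_mul, cj_inv, cj_mul]

/-- `w p` -/
def wN (p : G Q) : NN Q := ⟨p⁻¹ * L (p • (1 : Q)), H_le_NN (by
  rw [mem_H, mul_smul, sL1, inv_smul_smul])⟩

theorem wN_one (p : G Q) : wN p • (1 : CC Q) = 1 := by
  apply Subtype.ext
  change (p⁻¹ * L (p • (1 : Q))) • (1 : Q) = 1
  rw [mul_smul, sL1, inv_smul_smul]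

theorem cjRC_one (p : G Q) (n : CC Q) : cj p (RC n) • (1 : CC Q) = wN p • n := by
  apply Subtype.ext
  change (p⁻¹ * R n.1 * p) • (1 : Q) = (p⁻¹ * L (p • (1 : Q))) • n.1
  rw [mul_smul, mul_smul, mul_smul, sR, sL]

theorem cjRC_Zt2 (p : G Q) (n : CC Q) : ((cj p (RC n) : NN Q) : G Q) ∈ Zt (N2 Q) := by
  have := (inferInstance : (Zt (N2 Q)).Normal).conj_mem _ (C_Zt n.2) p⁻¹
  rw [inv_inv] at this
  exact this

theorem cjRC_Zt1 (p : G Q) (v : V Q) : ((cj p (RC (ι v)) : NN Q) : G Q) ∈ Zt (N1 Q) := by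
  have := (inferInstance : (Zt (N1 Q)).Normal).conj_mem _ (ι_mem v) p⁻¹
  rw [inv_inv] at this
  exact this

theorem Nice_cjRC (p : G Q) (n : CC Q) : Nice (cj p (RC n)) := Nice_of_Zt (cjRC_Zt2 p n)

/-- right translations of `C` commute with those of `Z_2` -/
theorem RR_comm (n : CC Q) (v : V Q) : RC n * RC (ι v) = RC (ι v) * RC n := by
  apply Subtype.ext
  apply G_ext
  intro x
  change (x * (ι v).1) * n.1 = (x * n.1) * (ι v).1
  have hz := ι_mem v
  have e1 := fixC (LL_mem x (ι v).1) (LLxa hz x) n.2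
  have e2 := fixC (MM_mem x (ι v).1) (MMxa hz x) n.2
  have e3 : x * ((ι v).1 * n.1) = (x * (ι v).1) * (LL x (ι v).1 • n.1) := by
    rw [LL, mul_smul, mul_smul, sL, sL, ← sL (x * (ι v).1), smul_inv_smul]
  rw [e1] at e3
  have e4 : x * (n.1 * (ι v).1) = (x * (MM x (ι v).1 • n.1)) * (ι v).1 := by
    rw [MM, mul_smul, mul_smul, mul_smul, sR, sL, ← sL x (_ • _), smul_inv_smul, ← sR (ι v).1 (_ • _),
      smul_inv_smul]
  rw [e2] at e4
  have e5 := congrArg Subtype.val (ι_comm v n)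
  rw [coe_mul, coe_mul] at e5
  rw [← e3, e5, e4]

theorem del_of_comm {y : NN Q} {v : V Q} (h : y * RC (ι v) = RC (ι v) * y) : del y (ι v) = 0 := by
  apply del_eq
  have e := congrArg (fun g : NN Q => g • (1 : CC Q)) h
  simp only [mul_smul] at e
  rw [RC_one, RC_smul] at e
  rw [e, ι_zero, one_mul, ι_comm]

theorem cjRC_comm (p : G Q) (n : CC Q) (v : V Q) :
    cj p (RC n) * RC (ι v) = RC (ι v) * cj p (RC n) := by
  set t := cj p⁻¹ (RC (ι v)) with ht
  have h1 : (t : G Q) ∈ Zt (N1 Q) := cjRC_Zt1 _ _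
  have h2 : t • (1 : CC Q) ∈ C2 Q := R_mem_Zt h1
  have h3 := RR_comm n (toV _ h2)
  rw [ι_toV] at h3
  have h4 : RC n * et t = et t * RC n := Subtype.ext (n1 (RC n).2 (etN1_of_Zt h1))
  have h5 : RC n * t = t * RC n := by
    conv_lhs => rw [et_eq t]
    conv_rhs => rw [et_eq t]
    rw [← mul_assoc, h3, mul_assoc, h4, mul_assoc]
  have h6 := congrArg (cj p) h5
  rw [cj_mul, cj_mul, ht, cj_cj, inv_mul_cancel, cj_one] at h6
  exact h6

theorem del_cjRC_ι (p : G Q) (n : CC Q) (v : V Q) : del (cj p (RC n)) (ι v) = 0 :=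
  del_of_comm (cjRC_comm p n v)

theorem del_cjRC_inv_ι (p : G Q) (n : CC Q) (v : V Q) : del (cj p (RC n))⁻¹ (ι v) = 0 := by
  apply del_of_comm
  have := cjRC_comm p n v
  rw [inv_mul_eq_iff_eq_mul, ← mul_assoc, this, mul_inv_cancel_right]

/-- value of the inverse of a nice element -/
theorem inv_smul_Nice {u : NN Q} (hu : Nice u) (x : CC Q) :
    ∃ ζ : V Q, isZ ζ ∧ u⁻¹ • x = ι ζ * x * (u • (1 : CC Q))⁻¹ := by
  refine ⟨-del u (u⁻¹ • x), isZ_neg (hu.isZ _), ?_⟩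
  have := smul_eq u (u⁻¹ • x)
  rw [smul_inv_smul] at this
  rw [ι_neg]
  generalize del u (u⁻¹ • x) = d at this
  generalize u⁻¹ • x = z at this ⊢
  rw [this]
  group

theorem del_cjRC_inv (p : G Q) (n : CC Q) (x : CC Q) :
    del (cj p (RC n))⁻¹ x = - del (cj p (RC n)) x := by
  set u := cj p (RC n) with hu
  have h1 := del_comp u u⁻¹ x
  rw [mul_inv_cancel] at h1
  have h2 : del (1 : NN Q) x = 0 := del_eq (by rw [one_smul, one_smul, ι_zero]; group)
  have h3 : T3 u u⁻¹ x = 0 := T3_Nice_left (Nice_cjRC p n) _ _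
  rw [h2, h3, Xi_Nice (Nice_cjRC p n), add_zero, add_zero] at h1
  exact (neg_eq_of_add_eq_zero_right h1.symm).symm

/-! the translation device -/
section trans
variable (p : G Q) (g : NN Q)

/-- translated element -/
def tn : CC Q := cj p⁻¹ g • (1 : CC Q)
def th : NN Q := et (cj p⁻¹ g)

theorem th_one : th p g • (1 : CC Q) = 1 := et_one _

theorem cj_th : cj p (th p g) = (cj p (RC (tn p g)))⁻¹ * g := by
  rw [th, et, cj_mul, cj_inv, cj_cj, inv_mul_cancel, cj_one]; rfl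

variable {g}
variable (hg : g • (1 : CC Q) = 1)
include hg

theorem cj_th_one : ∃ ζ : V Q, isZ ζ ∧ cj p (th p g) • (1 : CC Q) = ι ζ * (wN p • tn p g)⁻¹ := by
  rw [cj_th, mul_smul, hg]
  obtain ⟨ζ, hζ, e⟩ := inv_smul_Nice (Nice_cjRC p (tn p g)) 1
  refine ⟨ζ, hζ, ?_⟩
  rw [e, mul_one, cjRC_one]

theorem del_cj_th (x : CC Q) : del (cj p (th p g)) x = del g x - del (cj p (RC (tn p g))) x := by
  rw [cj_th, del_comp, del_cjRC_inv, T3, del_cjRC_inv_ι, hg, Xi_one_right]; abel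

end trans

/-! the homomorphism `X` -/
def X (a b y : NN Q) : V Q := T3 a b (y • (1 : CC Q))

theorem X_mul (a b y y' : NN Q) : X a b (y * y') = X a b y + X a b y' := by
  rw [X, mul_smul, T3_smul, add_comm]; rfl
theorem X_fix (a b : NN Q) {y : NN Q} (hy : y • (1 : CC Q) = 1) : X a b y = 0 := by
  rw [X, hy, T3_one]
theorem X_one (a b : NN Q) : X a b 1 = 0 := X_fix a b (one_smul _ _)
theorem X_inv (a b y : NN Q) : X a b y⁻¹ = - X a b y := by
  have := X_mul a b y y⁻¹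
  rw [mul_inv_cancel, X_one] at this
  exact (neg_eq_of_add_eq_zero_right this.symm).symm
theorem X_RC (a b : NN Q) (n : CC Q) : X a b (RC n) = T3 a b n := by rw [X, RC_one]
theorem T3_fix_smul (a b : NN Q) {h : NN Q} (hh : h • (1 : CC Q) = 1) (x : CC Q) :
    T3 a b (h • x) = T3 a b x := by rw [T3_smul, hh, T3_one, add_zero]
theorem X_cjRC (a b : NN Q) (p : G Q) (n : CC Q) : X a b (cj p (RC n)) = T3 a b n := by
  rw [X, cjRC_one, T3_fix_smul a b (wN_one p)]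
theorem X_et (a b y : NN Q) : X a b (et y) = 0 := X_fix a b (et_one y)
theorem X_cj_et (a b y : NN Q) (p : G Q) : X a b (cj p (et y)) = X a b (cj p y) - X a b y := by
  rw [et, cj_mul, cj_inv, X_mul, X_inv, X_cjRC]
  change -X a b y + _ = _
  abel

theorem cj_fix_comm {h k : NN Q} (hh : h • (1 : CC Q) = 1) (hk : k • (1 : CC Q) = 1) (p : G Q) :
    cj p h * cj p k = cj p k * cj p h := by rw [← cj_mul, ← cj_mul, fix_comm hh hk]

/-- symmetry -/
theorem I1 (a : NN Q) {g g' : NN Q} (hg : g • (1 : CC Q) = 1) (hg' : g' • (1 : CC Q) = 1) (p : G Q) :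
    X a g (cj p g') = X a g' (cj p g) := by
  obtain ⟨p, rfl⟩ : ∃ r, p = r⁻¹ := ⟨p⁻¹, (inv_inv p).symm⟩
  have h1 := X1 (cj_fix_comm (th_one p g) (th_one p g') p)
  obtain ⟨ζ, hζ, e⟩ := cj_th_one p hg
  obtain ⟨ζ', hζ', e'⟩ := cj_th_one p hg'
  have h2 := congrArg (dV a) h1
  rw [map_sub, dV_isZ (cc_isZ _ _), del_cj_th p hg, del_cj_th p hg', map_sub, map_sub,
    dV_isZ ((Nice_cjRC _ _).isZ _), dV_isZ ((Nice_cjRC _ _).isZ _), sub_zero, sub_zero, ← T3_def,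
    ← T3_def, e, e', T3_ι_mul, T3_ι_mul, T3_inv, T3_inv, T3_fix_smul _ _ (wN_one p),
    T3_fix_smul _ _ (wN_one p)] at h2
  have h3 : T3 a g (tn p g') = T3 a g' (tn p g) := by
    have := sub_eq_zero.1 h2
    exact neg_injective this
  exact h3

end Pool.Agent.R675.AIM
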