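import Pool.Agent.R675.AIM.Conj

set_option autoImplicit false

namespace Pool.Agent.R675.AIM

open Loop

variable {Q : Type} [Loop Q] [Ab4 Q]

theorem TX (a : NN Q) {b : NN Q} (y : NN Q) (hb : b • (1 : CC Q) = 1) (r : G Q) :
    T3 a y (cj r b • (1 : CC Q)) = X a b (cj r y) - X a b y := by
  have h1 : T3 a y (cj r b • (1 : CC Q)) = X a (et y) (cj r b) := by
    rw [X, T3, T3, ← del_et]
  rw [h1, I1 a (et_one y) hb r, X_cj_et]

/-- F6 -/
theorem F6 {k g : NN Q} (hk : k • (1 : CC Q) = 1) (hg : g • (1 : CC Q) = 1) (hk2 : (k : G Q) ∈ N2 Q)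
    (p : G Q) : del k (cj p g • (1 : CC Q)) = del g (cj p k • (1 : CC Q)) := by
  obtain ⟨p, rfl⟩ : ∃ r, p = r⁻¹ := ⟨p⁻¹, (inv_inv p).symm⟩
  have h1 := X1 (cj_fix_comm (th_one p g) (th_one p k) p)
  obtain ⟨ζ, hζ, e⟩ := cj_th_one p hg
  obtain ⟨ζ', hζ', e'⟩ := cj_th_one p hk
  have hz0 : tn p k ∈ C2 Q := by
    unfold tn
    apply N2_one
    exact (inferInstance : (N2 Q).Normal).conj_mem _ hk2 p⁻¹⁻¹ |> fun h => by
      rw [inv_inv] at h
      change p⁻¹⁻¹ * (k : G Q) * p⁻¹ ∈ N2 Q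
      rw [inv_inv]; exact h
  obtain ⟨v, hv⟩ : ∃ v : V Q, tn p k = ι v := ⟨toV _ hz0, rfl⟩
  have hw : wN p • tn p k = ι (del (wN p) (ι v) + v) := by
    rw [hv, fix_smul (wN_one p), ι_add]
  have h2 : cj p (th p k) • (1 : CC Q) = ι (ζ' - (del (wN p) (ι v) + v)) := by
    rw [e', hw, ι_sub]
  have h3 : ∀ x, del (cj p (RC (tn p k))) x = 0 := by
    intro x
    rw [hv, del_et]
    exact del_N1 (etN1_of_Zt (cjRC_Zt1 p v)) x
  have h4 : del (cj p (th p g)) (cj p (th p k) • (1 : CC Q)) = - del g (tn p k) := by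
    rw [del_cj_th p hg, h2, del_cjRC_ι, sub_zero, ← dV_def, map_sub, map_add, dV_isZ hζ',
      dV_isZ (del_ι_isZ _ _), dV_def, hv]
    abel
  have h5 : del (cj p (th p k)) (cj p (th p g) • (1 : CC Q)) = - del k (tn p g) := by
    rw [del_cj_th p hk, h3, sub_zero, e, del_hom_N2 hk2, del_Z hζ, zero_add]
    have h6 := del_hom_N2 hk2 (wN p • tn p g) (wN p • tn p g)⁻¹
    rw [mul_inv_cancel, del_one] at h6
    have h7 := (neg_eq_of_add_eq_zero_right h6.symm).symm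
    rw [h7, fix_smul (wN_one p), del_hom_N2 hk2, del_N2_ιdel hk2, zero_add]
  rw [h4, h5, h2, cc_ι_right] at h1
  have h8 := sub_eq_zero.1 h1
  exact (neg_injective h8).symm

/-- value of a commutator at one, modulo the centre -/
theorem com_one_val (y y' : NN Q) : ∃ ζ : V Q, isZ ζ ∧
    com y y' • (1 : CC Q) = ι (ζ + (del y (y' • (1 : CC Q)) - del y' (y • (1 : CC Q)))) := by
  have e := congrArg (fun g : NN Q => g • (1 : CC Q)) (com_eq y y')
  simp only [mul_smul] at e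
  have hc := com_N2 y y'
  set c := com y y' with hcdef
  rw [smul_eq c, smul_eq y (y' • (1 : CC Q)), smul_eq y' (y • (1 : CC Q))] at e
  have e2 := cc_eq (y' • (1 : CC Q)) (y • (1 : CC Q))
  set n := y • (1 : CC Q) with hn
  set n' := y' • (1 : CC Q) with hn'
  set D := del c (ι (del y' n) * n * n') with hD
  have hDz : isZ D := isZ_N2 hc _
  refine ⟨cc n' n - D, isZ_sub (cc_isZ _ _) hDz, ?_⟩
  have h3 := C2_comm (N2_one hc)
  have e4 : ι (del y n') * (n' * n) = ι D * ι (del y' n) * (c • (1 : CC Q)) * (n * n') := by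
    calc ι (del y n') * (n' * n) = ι (del y n') * n' * n := by group
      _ = ι D * (ι (del y' n) * n * n') * c • (1 : CC Q) := e
      _ = ι D * ι (del y' n) * ((n * n') * c • (1 : CC Q)) := by group
      _ = _ := by rw [← h3]; group
  rw [e2, ← mul_assoc] at e4
  have e5 := mul_right_cancel e4
  have e6 : c • (1 : CC Q) = (ι (del y' n))⁻¹ * (ι D)⁻¹ * (ι (del y n') * ι (cc n' n)) := by
    rw [e5]; group
  rw [e6, ← ι_neg, ← ι_neg, ← ι_add, ← ι_add, ← ι_add]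
  congr 1
  abel

/-- F7 -/
theorem F7 {h : NN Q} (hh : h • (1 : CC Q) = 1) (y : NN Q) (p : G Q) (m : CC Q) :
    Xi y (cj p h • (1 : CC Q)) m = T3 h (cj p y) m - T3 h y m := by
  rw [Xi_eq, del_et]
  set c := com y (RC m) with hc
  have hc2 : (c : G Q) ∈ N2 Q := com_N2 y _
  have hk2 : ((et c : NN Q) : G Q) ∈ N2 Q := Nice_of_N2 hc2
  rw [F6 (et_one c) hh hk2 p]
  obtain ⟨ζ, hζ, e1⟩ := com_one_val y (RC m)
  obtain ⟨ζ', hζ', e2⟩ := com_one_val (cj p y) (cj p (RC m))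
  rw [← hc, del_RC, sub_zero, RC_one] at e1
  rw [← cj_com, ← hc, cjRC_one] at e2
  have e3 : cj p (et c) • (1 : CC Q) = (cj p (RC (c • (1 : CC Q))))⁻¹ • (cj p c • (1 : CC Q)) := by
    rw [et, cj_mul, cj_inv, mul_smul]
  obtain ⟨ζ'', hζ'', e4⟩ := inv_smul_Nice (Nice_cjRC p (c • (1 : CC Q))) (cj p c • (1 : CC Q))
  rw [e4, cjRC_one, e1, e2, fix_smul (wN_one p) (ι (ζ + _)), ← ι_add, ← ι_add, ← ι_neg, ← ι_add] at e3
  rw [e3, ← dV_def]
  simp only [map_add, map_neg, map_sub]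
  rw [dV_isZ hζ'', dV_isZ hζ', dV_isZ hζ, dV_isZ (del_ι_isZ _ _), dV_isZ ((Nice_cjRC p m).isZ _),
    ← T3_def, ← T3_def, T3_fix_smul _ _ (wN_one p)]
  abel

/-- F8 -/
theorem F8 {h : NN Q} (hh : h • (1 : CC Q) = 1) (p' p : G Q) (n : CC Q) :
    del (cj p' (RC n)) (cj p h • (1 : CC Q)) = T3 h (wN (p' * p)) n - T3 h (wN p) n - T3 h (wN p') n := by
  rw [del_et]
  set u := cj p' (RC n) with hu
  rw [F6 (et_one u) hh (Nice_cjRC p' n) p]
  have e3 : cj p (et u) • (1 : CC Q) = (cj p (RC (u • (1 : CC Q))))⁻¹ • (cj p u • (1 : CC Q)) := by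
    rw [et, cj_mul, cj_inv, mul_smul]
  obtain ⟨ζ'', hζ'', e4⟩ := inv_smul_Nice (Nice_cjRC p (u • (1 : CC Q))) (cj p u • (1 : CC Q))
  have e5 : ι (del (wN p) (ι (del (wN p') n) * n)) * (ι (del (wN p') n) * n)
      = ι (T3 (wN p) (wN p') n + del (wN p) n + del (wN p') n) * n := by
    rw [del_ι_mul, ← mul_assoc, ← ι_add, T3]
    congr 2
    abel
  rw [e4, cjRC_one, hu, cj_cj, cjRC_one, cjRC_one, fix_smul (wN_one p), fix_smul (wN_one p'),
    fix_smul (wN_one (p' * p)), e5] at e3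
  have e6 : cj p (et (cj p' (RC n))) • (1 : CC Q)
      = ι (ζ'' + del (wN (p' * p)) n - (T3 (wN p) (wN p') n + del (wN p) n + del (wN p') n)) := by
    rw [e3, ι_sub, ι_add ζ'']; group
  rw [← hu] at e6
  rw [e6, ← dV_def]
  simp only [map_add, map_sub]
  rw [dV_isZ hζ'', dV_isZ (T3_isZ _ _ _), ← T3_def, ← T3_def, ← T3_def]
  abel

/-- `TT x` as an element of `NN` -/
def TN (x : Q) : NN Q := ⟨TT x, H_le_NN (TT_mem x)⟩

theorem TN_one (x : Q) : TN x • (1 : CC Q) = 1 := by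
  rw [← mem_H']; exact TT_mem x

theorem del_TN (m x : CC Q) : del (TN m.1) x = cc m x := by
  apply del_eq
  rw [TN_one, mul_one]
  have e : TN m.1 • x * m = m * x := by
    apply Subtype.ext
    change (TT m.1 • x.1) * m.1 = m.1 * x.1
    rw [TT, mul_smul, sL, ← sR m.1, smul_inv_smul]
  have e2 : TN m.1 • x = (m * x) * m⁻¹ := by rw [← e]; group
  rw [e2, cc_eq m x]; group

/-- F9 -/
theorem F9 {h : NN Q} (hh : h • (1 : CC Q) = 1) (p : G Q) (m : CC Q) :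
    cc m (cj p h • (1 : CC Q)) = - T3 h (TN (p • (1 : Q))) m := by
  have hk2 : ((TN m.1 : NN Q) : G Q) ∈ N2 Q := TTa (C_Zt m.2)
  rw [← del_TN, F6 (TN_one m.1) hh hk2 p]
  set q := p • (1 : Q) with hq
  set m' : CC Q := (TN q)⁻¹ • m with hm'
  have e1 : TN q • m' = m := by rw [hm', smul_inv_smul]
  have e2 : m.1 * q = q * m'.1 := by
    have := congrArg Subtype.val e1
    rw [← this, coe_smul]
    change ((TT q : G Q) • m'.1) * q = q * m'.1
    rw [TT, mul_smul, sL, ← sR q, smul_inv_smul]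
  have e3 : cj p (TN m.1) • (1 : CC Q) = (cj p (RC m))⁻¹ • (wN p • m') := by
    apply Subtype.ext
    change (p⁻¹ * ((R m.1)⁻¹ * L m.1) * p) • (1 : Q) = (p⁻¹ * R m.1 * p)⁻¹ • ((p⁻¹ * L (p • (1 : Q))) • m'.1)
    rw [← hq, mul_smul p⁻¹ (L q), sL, ← e2, mul_smul, mul_smul, mul_smul, ← hq, sL]
    rw [mul_inv_rev, mul_inv_rev, inv_inv, mul_smul, mul_smul, smul_inv_smul]
  obtain ⟨ζ'', hζ'', e4⟩ := inv_smul_Nice (Nice_cjRC p m) (wN p • m')
  rw [e4, cjRC_one, fix_smul (wN_one p) m', fix_smul (wN_one p) m] at e3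
  have e5 : m = ι (del (TN q) m') * m' := by rw [← fix_smul (TN_one q), e1]
  have e6 : cj p (TN m.1) • (1 : CC Q) = ι (ζ'' + del (wN p) m' - del (wN p) m - del (TN q) m') := by
    rw [e3]
    conv_lhs => rw [show (ι (del (wN p) m) * m)⁻¹ = (ι (del (wN p) m) * (ι (del (TN q) m') * m'))⁻¹ by rw [← e5]]
    rw [ι_sub, ι_sub, ι_add]
    have h1 : ι (del (TN q) m') * ι (del (wN p) m) = ι (del (wN p) m) * ι (del (TN q) m') := ι_comm _ _
    have h2 : (ι (del (wN p) m) * (ι (del (TN q) m') * m'))⁻¹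
      = m'⁻¹ * ((ι (del (wN p) m))⁻¹ * (ι (del (TN q) m'))⁻¹) := by
      rw [← mul_assoc, ← h1]; group
    rw [h2]; group
  have e7 : dV h (del (wN p) m) = dV h (del (wN p) m') := by
    rw [← T3_def, ← T3_def]
    conv_lhs => rw [e5]
    rw [T3_ι_mul]
  have e8 : T3 h (TN q) m' = T3 h (TN q) m := by
    conv_rhs => rw [e5]
    rw [T3_ι_mul]
  rw [e6, ← dV_def]
  simp only [map_add, map_sub]
  rw [dV_isZ hζ'', e7, ← T3_def h (TN q), e8]
  abel

end Pool.Agent.R675.AIM
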