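import Pool.Agent.R675.AIM.Gstep

set_option autoImplicit false

namespace Pool.Agent.R675.AIM

open Loop

variable {Q : Type} [Loop Q]

/-- an element fixed by the inner mapping group is central -/
theorem fix_central {z : Q} (h : ∀ g ∈ H Q, g • z = z) : R z ∈ Zt (⊥ : Subgroup (G Q)) := by
  have hL : ∀ x y : Q, x * (y * z) = (x * y) * z := by
    intro x y
    have e := h _ (LL_mem x y)
    have e2 : x * (y * z) = (x * y) * (LL x y • z) := by
      rw [LL, mul_smul, mul_smul, sL, sL, ← sL (x * y), smul_inv_smul]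
    rw [e2, e]
  have hT : ∀ x : Q, x * z = z * x := by
    intro x
    have e := h _ (TT_mem x)
    have e2 : (TT x • z) * x = x * z := by
      rw [TT, mul_smul, sL, ← sR x, smul_inv_smul]
    rw [← e2, e]
  have hM : ∀ x y : Q, x * (z * y) = (x * z) * y := by
    intro x y
    have e := h _ (MM_mem x y)
    have e2 : x * (z * y) = (x * (MM x y • z)) * y := by
      rw [MM, mul_smul, mul_smul, mul_smul, sR, sL, ← sL x (_ • _), smul_inv_smul, ← sR y (_ • _),
        smul_inv_smul]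
    rw [e2, e]
  have cL : ∀ y : Q, R z * L y = L y * R z := by
    intro y
    apply G_ext
    intro x
    rw [mul_smul, mul_smul, sL, sR, sR, sL, hL]
  have cR : ∀ y : Q, R z * R y = R y * R z := by
    intro y
    apply G_ext
    intro x
    rw [mul_smul, mul_smul, sR, sR, sR, sR, ← hM, ← hT, hL]
  have cG : ∀ g : G Q, R z * g = g * R z := by
    intro g
    refine G_ind (fun g => R z * g = g * R z) cR cL (by simp) ?_ ?_ g
    · intro a b ha hb
      rw [← mul_assoc, ha, mul_assoc, hb, mul_assoc]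
    · intro a ha
      rw [eq_inv_mul_iff_mul_eq, ← mul_assoc, ← ha, mul_inv_cancel_right]
  rw [mem_Zt]
  intro p
  exact ⟨1, one_mem _, by rw [cG, one_mul]⟩

/-- an element fixed by the inner mapping group modulo the centre is central modulo the centre -/
theorem fix_central2 {n : Q} (h : ∀ g ∈ H Q, ∃ z : Q, R z ∈ Zt (⊥ : Subgroup (G Q)) ∧ g • n = z * n) :
    R n ∈ Zt (N1 Q) := by
  have hL : ∀ x y : Q, ∃ z : Q, R z ∈ Zt (⊥ : Subgroup (G Q)) ∧ x * (y * n) = z * ((x * y) * n) := by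
    intro x y
    obtain ⟨z, hz, e⟩ := h _ (LL_mem x y)
    have e2 : x * (y * n) = (x * y) * (LL x y • n) := by
      rw [LL, mul_smul, mul_smul, sL, sL, ← sL (x * y), smul_inv_smul]
    exact ⟨z, hz, by rw [e2, e, cen_mul_assoc' hz]⟩
  have hT : ∀ x : Q, ∃ z : Q, R z ∈ Zt (⊥ : Subgroup (G Q)) ∧ x * n = z * (n * x) := by
    intro x
    obtain ⟨z, hz, e⟩ := h _ (TT_mem x)
    have e2 : (TT x • n) * x = x * n := by
      rw [TT, mul_smul, sL, ← sR x, smul_inv_smul]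
    exact ⟨z, hz, by rw [← e2, e, cen_mul_assoc hz]⟩
  have hM : ∀ x y : Q, ∃ z : Q, R z ∈ Zt (⊥ : Subgroup (G Q)) ∧ x * (n * y) = z * ((x * n) * y) := by
    intro x y
    obtain ⟨z, hz, e⟩ := h _ (MM_mem x y)
    have e2 : x * (n * y) = (x * (MM x y • n)) * y := by
      rw [MM, mul_smul, mul_smul, mul_smul, sR, sL, ← sL x (_ • _), smul_inv_smul, ← sR y (_ • _),
        smul_inv_smul]
    refine ⟨z, hz, by rw [e2, e, cen_mul_assoc' hz, ← cen_mul_assoc hz (x * n) y]⟩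
  -- commuting modulo `N1`
  have key : ∀ y : G Q, (∀ x : Q, ∃ z : Q, R z ∈ Zt (⊥ : Subgroup (G Q)) ∧ (y * R n) • x = z * ((R n * y) • x)) →
      ∃ u ∈ N1 Q, R n * y = u * (y * R n) := by
    intro y hy
    refine ⟨(R n * y) * (y * R n)⁻¹, ?_, by group⟩
    apply (inferInstance : PC (N1 Q)).pc
    intro q
    obtain ⟨z, hz, e⟩ := hy ((y * R n)⁻¹ • q)
    refine ⟨(L z)⁻¹, inv_mem (Zt_le_Nu _ (L_mem_Zt' hz)), ?_⟩
    rw [smul_inv_smul] at e
    rw [eq_inv_smul_iff, sL, mul_smul, ← e]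
  have cL : ∀ y : Q, ∃ u ∈ N1 Q, R n * L y = u * (L y * R n) := by
    intro y
    apply key
    intro x
    obtain ⟨z, hz, e⟩ := hL y x
    refine ⟨z, hz, ?_⟩
    rw [mul_smul, mul_smul, sL, sR, sR, sL, e]
  have cR : ∀ y : Q, ∃ u ∈ N1 Q, R n * R y = u * (R y * R n) := by
    intro y
    apply key
    intro x
    obtain ⟨z, hz, e⟩ := hL x y
    obtain ⟨z', hz', e'⟩ := hT y
    obtain ⟨z'', hz'', e''⟩ := hM x y
    -- x (y n) = z' z'' ((x n) y) = z ((x y) n)
    rw [e', cen_mul_assoc' hz', e''] at e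
    -- z' * (z'' * ((x*n)*y)) = z * ((x*y)*n)
    refine ⟨(R z'')⁻¹ • (R z')⁻¹ • z, ?_, ?_⟩
    · have h1 : (R z'')⁻¹ * ((R z')⁻¹ * R z) ∈ Zt (⊥ : Subgroup (G Q)) :=
        mul_mem (inv_mem hz'') (mul_mem (inv_mem hz') hz)
      have := R_mem_Zt h1
      rwa [mul_smul, mul_smul, sR1] at this
    · set w := (R z'')⁻¹ • (R z')⁻¹ • z with hw
      have h2 : z = z' * (z'' * w) := by
        rw [cen_mul_comm hz', cen_mul_comm hz'', ← sR z'', ← sR z', hw, smul_inv_smul, smul_inv_smul]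
      have hwz : R w ∈ Zt (⊥ : Subgroup (G Q)) := by
        have h1 : (R z'')⁻¹ * ((R z')⁻¹ * R z) ∈ Zt (⊥ : Subgroup (G Q)) :=
          mul_mem (inv_mem hz'') (mul_mem (inv_mem hz') hz)
        have := R_mem_Zt h1
        rwa [mul_smul, mul_smul, sR1] at this
      rw [mul_smul, mul_smul, sR, sR, sR, sR]
      rw [h2, ← cen_mul_assoc hz', ← cen_mul_assoc hz''] at e
      exact mul_left_cancel' (mul_left_cancel' e)
  have cG : ∀ g : G Q, ((R n : G Q) : G Q ⧸ N1 Q) * (g : G Q ⧸ N1 Q) = (g : G Q ⧸ N1 Q) * (R n : G Q) := by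
    intro g
    have conv : ∀ y : G Q, (∃ u ∈ N1 Q, R n * y = u * (y * R n)) →
        ((R n : G Q) : G Q ⧸ N1 Q) * (y : G Q ⧸ N1 Q) = (y : G Q ⧸ N1 Q) * (R n : G Q) := by
      rintro y ⟨u, hu, e⟩
      rw [← QuotientGroup.mk_mul, e, QuotientGroup.mk_mul, q_mem.1 hu, one_mul, QuotientGroup.mk_mul]
    refine G_ind (fun g => ((R n : G Q) : G Q ⧸ N1 Q) * (g : G Q ⧸ N1 Q) = (g : G Q ⧸ N1 Q) * (R n : G Q))
      (fun y => conv _ (cR y)) (fun y => conv _ (cL y)) ?_ ?_ ?_ g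
    · rw [QuotientGroup.mk_one, mul_one, one_mul]
    · intro a b ha hb
      rw [QuotientGroup.mk_mul, ← mul_assoc, ha, mul_assoc, hb, mul_assoc]
    · intro a ha
      rw [QuotientGroup.mk_inv, eq_inv_mul_iff_mul_eq, ← mul_assoc, ← ha, mul_inv_cancel_right]
  rw [mem_Zt]
  intro p
  refine ⟨(R n * p) * (p * R n)⁻¹, ?_, by group⟩
  rw [q_mem, QuotientGroup.mk_mul, QuotientGroup.mk_inv, QuotientGroup.mk_mul, QuotientGroup.mk_mul,
    cG p, mul_inv_cancel]

/-- the core theorem: class four reduces to class three -/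
theorem core [Ab4 Q] : H Q ≤ N2 Q := by
  intro h3 hh3
  apply Nu_of
  intro q
  set n := cj (R q) (hN ⟨h3, hh3⟩) • (1 : CC Q) with hn
  refine ⟨n.1, ?_, ?_⟩
  · apply fix_central2
    intro h2 hh2
    set v := del (hN ⟨h2, hh2⟩) n with hv
    refine ⟨(ι v).1, ?_, ?_⟩
    · apply fix_central
      intro h1 hh1
      have e : T3 (hN ⟨h1, hh1⟩) (hN ⟨h2, hh2⟩) (cj (R q) (hN ⟨h3, hh3⟩) • (1 : CC Q)) = 0 := by
        rw [T3_TF, TF_zero]
      rw [← hn, T3, ← hv] at e
      have e2 := fix_smul (hN_one ⟨h1, hh1⟩) (ι v)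
      rw [e, ι_zero, one_mul] at e2
      exact congrArg Subtype.val e2
    · have e2 := fix_smul (hN_one ⟨h2, hh2⟩) n
      exact congrArg Subtype.val e2
  · change h3 • q = (((R q)⁻¹ * h3 * R q) • (1 : Q)) * q
    rw [← sR q, ← mul_smul]
    have : R q * ((R q)⁻¹ * h3 * R q) = h3 * R q := by group
    rw [this, mul_smul, sR1]

end Pool.Agent.R675.AIM
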