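import Pool.Agent.R675.AIM.CGroup

set_option autoImplicit false

namespace Pool.Agent.R675.AIM

open Loop

variable {Q : Type} [Loop Q] [Ab4 Q]

/-- membership in the centre part -/
def isZ (v : V Q) : Prop := ι v ∈ ZC Q

theorem isZ_add {v w : V Q} (hv : isZ v) (hw : isZ w) : isZ (v + w) := mul_mem hv hw
theorem isZ_neg {v : V Q} (hv : isZ v) : isZ (-v) := inv_mem hv
theorem isZ_sub {v w : V Q} (hv : isZ v) (hw : isZ w) : isZ (v - w) := by
  rw [sub_eq_add_neg]; exact isZ_add hv (isZ_neg hw)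
theorem isZ_zero : isZ (0 : V Q) := one_mem (ZC Q)

theorem cen_in_C {z : Q} (hz : R z ∈ Zt (⊥ : Subgroup (G Q))) : ∃ v : V Q, isZ v ∧ (ι v).1 = z :=
  ⟨toV ⟨z, Zbot_le_NN hz⟩ (Zt_bot_le hz), hz, rfl⟩

theorem isZ_smul {v : V Q} (hv : isZ v) (y : NN Q) (x : CC Q) : y • (ι v * x) = ι v * (y • x) :=
  Subtype.ext (cen_smul hv (y : G Q) x.1)

/-- elements of `N1` act by multiplication -/
theorem N1_smul {u : NN Q} (hu : (u : G Q) ∈ N1 Q) (x : CC Q) : u • x = (u • (1 : CC Q)) * x := by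
  apply Subtype.ext
  rw [coe_mul, coe_smul, coe_smul, coe_one]
  have e := n1 x.2 hu
  have e2 := congrArg (fun g : G Q => g • (1 : Q)) e
  simp only [mul_smul] at e2
  rw [sR1, sR] at e2
  exact e2.symm

theorem N1_one {u : NN Q} (hu : (u : G Q) ∈ N1 Q) : (u • (1 : CC Q)) ∈ ZC Q := by
  obtain ⟨z, hz, e⟩ := N1_act hu 1
  rw [mul_one'] at e
  change R ((u : G Q) • (1 : Q)) ∈ Zt (⊥ : Subgroup (G Q))
  rwa [e]

theorem N2_one {u : NN Q} (hu : (u : G Q) ∈ N2 Q) : (u • (1 : CC Q)) ∈ C2 Q := by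
  obtain ⟨a, ha, e⟩ := Nu_exists hu 1
  rw [mul_one'] at e
  change R ((u : G Q) • (1 : Q)) ∈ Zt (N1 Q)
  rwa [e]

theorem N2_smul {u : NN Q} (hu : (u : G Q) ∈ N2 Q) (x : CC Q) : ∃ v : V Q, u • x = ι v * x := by
  obtain ⟨a, ha, e⟩ := Nu_exists hu x.1
  have h : ((u • x) * x⁻¹).1 = a := by
    apply mul_right_cancel' (z := x.1)
    rw [← coe_mul, inv_mul_cancel_right, coe_smul, e]
  refine ⟨toV ((u • x) * x⁻¹) (by rw [mem_C2, h]; exact ha), ?_⟩
  rw [ι_toV, inv_mul_cancel_right]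

/-- the commutator -/
def com (y k : NN Q) : NN Q := y * k * (k * y)⁻¹

omit [Ab4 Q] in
theorem com_eq (y k : NN Q) : y * k = com y k * (k * y) := by rw [com]; group

omit [Ab4 Q] in
theorem com_N2 (y k : NN Q) : ((com y k : NN Q) : G Q) ∈ N2 Q := by
  obtain ⟨u, hu, e⟩ := n3 y.2 (NN_le_N3 k.2)
  have : ((com y k : NN Q) : G Q) = u := by
    change (y : G Q) * k * ((k : G Q) * y)⁻¹ = u
    rw [e]; group
  rwa [this]

omit [Ab4 Q] in
theorem com_N1 (y k : NN Q) (hk : (k : G Q) ∈ N2 Q) : ((com y k : NN Q) : G Q) ∈ N1 Q := by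
  obtain ⟨u, hu, e⟩ := n2 y.2 hk
  have : ((com y k : NN Q) : G Q) = u := by
    change (y : G Q) * k * ((k : G Q) * y)⁻¹ = u
    rw [e]; group
  rwa [this]

omit [Ab4 Q] in
theorem com_N1' (y k : NN Q) (hk : (y : G Q) ∈ N2 Q) : ((com y k : NN Q) : G Q) ∈ N1 Q := by
  have := inv_mem (com_N1 k y hk)
  have e : (com k y)⁻¹ = com y k := by rw [com, com]; group
  rw [← Subgroup.coe_inv, e] at this
  exact this

/-- `n * m = cc n m * (m * n)` -/
theorem comm_mem (n m : CC Q) : n * m * (m * n)⁻¹ ∈ ZC Q := by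
  obtain ⟨z, hz, e⟩ := moveC (TT_mem n.1) (TTa (C_Zt n.2)) m.2
  obtain ⟨v, hv, e2⟩ := cen_in_C hz
  have e3 : (TT n.1 • m.1) * n.1 = n.1 * m.1 := by
    rw [TT, mul_smul, sL, ← sR n.1, smul_inv_smul]
  rw [e, ← e2] at e3
  have e4 : ι v * m * n = n * m := Subtype.ext e3
  have : n * m * (m * n)⁻¹ = ι v := by rw [← e4]; group
  rw [this]; exact hv

def cc (n m : CC Q) : V Q := toV (n * m * (m * n)⁻¹) (ZC_le (comm_mem n m))

theorem cc_isZ (n m : CC Q) : isZ (cc n m) := comm_mem n m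
theorem cc_eq (n m : CC Q) : n * m = ι (cc n m) * (m * n) := by
  rw [cc, ι_toV]; group

theorem del_mem (y : NN Q) (x : CC Q) : (y • x) * (y • (1 : CC Q))⁻¹ * x⁻¹ ∈ C2 Q := by
  have e := com_eq y (RC x)
  have e2 := congrArg (fun g : NN Q => g • (1 : CC Q)) e
  simp only [mul_smul] at e2
  rw [RC_one, RC_smul] at e2
  obtain ⟨v, hv⟩ := N2_smul (com_N2 y (RC x)) ((y • (1 : CC Q)) * x)
  rw [hv, cc_eq (y • (1 : CC Q)) x] at e2
  have : (y • x) * (y • (1 : CC Q))⁻¹ * x⁻¹ = ι v * ι (cc (y • (1 : CC Q)) x) := by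
    rw [e2]; group
  rw [this]
  exact mul_mem (ι_mem _) (ι_mem _)

/-- `y • x = del y x * x * (y • 1)` -/
def del (y : NN Q) (x : CC Q) : V Q := toV _ (del_mem y x)

theorem smul_eq (y : NN Q) (x : CC Q) : y • x = ι (del y x) * x * (y • (1 : CC Q)) := by
  rw [del, ι_toV]; group

theorem del_eq {y : NN Q} {x : CC Q} {v : V Q} (h : y • x = ι v * x * (y • (1 : CC Q))) : del y x = v := by
  apply ι_inj
  have := smul_eq y x
  rw [h] at this
  have h2 := mul_right_cancel (mul_right_cancel this)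
  exact h2.symm

theorem del_one (y : NN Q) : del y 1 = 0 := del_eq (by rw [ι_zero]; group)

theorem del_RC (n x : CC Q) : del (RC n) x = 0 := del_eq (by rw [RC_one, RC_smul, ι_zero, one_mul])

theorem del_Zmul {v : V Q} (hv : isZ v) (y : NN Q) (x : CC Q) : del y (ι v * x) = del y x := by
  apply del_eq
  rw [isZ_smul hv, smul_eq y x, ← mul_assoc, ← mul_assoc, ι_comm v (ι (del y x)), ← mul_assoc]

theorem del_Z {v : V Q} (hv : isZ v) (y : NN Q) : del y (ι v) = 0 := by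
  have := del_Zmul hv y 1
  rwa [mul_one, del_one] at this

theorem del_N1 {u : NN Q} (hu : (u : G Q) ∈ N1 Q) (x : CC Q) : del u x = 0 := by
  apply del_eq
  rw [N1_smul hu, ι_zero, one_mul, C2_comm (ZC_le (N1_one hu))]

theorem RC_N2 (z : V Q) : ((RC (ι z) : NN Q) : G Q) ∈ N2 Q := Zt_le_Nu _ (ι_mem z)

/-- products with an element of `C2` -/
theorem del_mul_ι (y : NN Q) (a : CC Q) (z : V Q) : del y (a * ι z) = del y a + del y (ι z) := by
  set u := com y (RC (ι z)) with hu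
  have hu1 : (u : G Q) ∈ N1 Q := com_N1 y _ (RC_N2 z)
  have e := com_eq y (RC (ι z))
  have e1 : y • (a * ι z) = (u • (1 : CC Q)) * ((y • a) * ι z) := by
    have e2 := congrArg (fun g : NN Q => g • a) e
    simp only [mul_smul] at e2
    rw [RC_smul, RC_smul, ← hu, N1_smul hu1] at e2
    exact e2
  have e3 : y • (ι z) = (u • (1 : CC Q)) * ((y • (1 : CC Q)) * ι z) := by
    have e2 := congrArg (fun g : NN Q => g • (1 : CC Q)) e
    simp only [mul_smul] at e2
    rw [RC_smul, RC_smul, one_mul, ← hu, N1_smul hu1] at e2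
    exact e2
  apply del_eq
  have hc := C2_comm (ZC_le (N1_one hu1))
  have e4 : y • (a * ι z) = (y • a) * (y • (1 : CC Q))⁻¹ * (y • ι z) := by
    rw [e1, e3]
    have h1 : (u • (1 : CC Q)) * (y • (1 : CC Q)) * ι z = (y • (1 : CC Q)) * ((u • (1 : CC Q)) * ι z) := by
      rw [hc (y • (1 : CC Q))]; group
    rw [← mul_assoc (u • (1 : CC Q)) (y • (1 : CC Q)), h1, hc (y • a * ι z), hc (ι z)]
    group
  rw [e4, smul_eq y a, smul_eq y (ι z), ι_add]
  have h2 : ι (del y (ι z)) * a = a * ι (del y (ι z)) := ι_comm _ _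
  calc ι (del y a) * a * y • (1 : CC Q) * (y • (1 : CC Q))⁻¹ * (ι (del y (ι z)) * ι z * y • (1 : CC Q))
      = ι (del y a) * (a * ι (del y (ι z))) * ι z * y • (1 : CC Q) := by group
    _ = _ := by rw [← h2]; group

theorem del_ι_mul (y : NN Q) (a : CC Q) (z : V Q) : del y (ι z * a) = del y a + del y (ι z) := by
  rw [ι_comm, del_mul_ι]

/-- `del y z` is central for `z ∈ C2` -/
theorem del_ι_isZ (y : NN Q) (z : V Q) : isZ (del y (ι z)) := by
  set u := com y (RC (ι z)) with hu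
  have hu1 : (u : G Q) ∈ N1 Q := com_N1 y _ (RC_N2 z)
  have e := com_eq y (RC (ι z))
  have e3 : y • (ι z) = (u • (1 : CC Q)) * ((y • (1 : CC Q)) * ι z) := by
    have e2 := congrArg (fun g : NN Q => g • (1 : CC Q)) e
    simp only [mul_smul] at e2
    rw [RC_smul, RC_smul, one_mul, ← hu, N1_smul hu1] at e2
    exact e2
  have : del y (ι z) = toV _ (ZC_le (N1_one hu1)) := by
    apply del_eq
    rw [ι_toV, e3, ← ι_comm]; group
  rw [this]
  exact N1_one hu1

/-- the `H`-part -/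
def et (y : NN Q) : NN Q := (RC (y • (1 : CC Q)))⁻¹ * y

theorem et_one (y : NN Q) : et y • (1 : CC Q) = 1 := by
  rw [et, mul_smul, inv_smul_eq_iff, RC_one]

theorem et_eq (y : NN Q) : y = RC (y • (1 : CC Q)) * et y := by rw [et]; group

theorem del_et (y : NN Q) (x : CC Q) : del y x = del (et y) x := by
  apply del_eq
  conv_lhs => rw [et_eq y]
  rw [mul_smul, RC_smul, smul_eq (et y) x, et_one, mul_one]

theorem mem_H' {y : NN Q} : (y : G Q) ∈ H Q ↔ y • (1 : CC Q) = 1 := by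
  rw [mem_H]
  constructor
  · intro h; exact Subtype.ext h
  · intro h; exact congrArg Subtype.val h

theorem fix_comm {h k : NN Q} (hh : h • (1 : CC Q) = 1) (hk : k • (1 : CC Q) = 1) : h * k = k * h :=
  Subtype.ext (Ab4.ab _ (mem_H'.2 hh) _ (mem_H'.2 hk))

theorem fix_smul {h : NN Q} (hh : h • (1 : CC Q) = 1) (x : CC Q) : h • x = ι (del h x) * x := by
  rw [smul_eq, hh, mul_one]

theorem del_mul_fix {h k : NN Q} (hh : h • (1 : CC Q) = 1) (hk : k • (1 : CC Q) = 1) (x : CC Q) :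
    del (h * k) x = del h x + del k x + del h (ι (del k x)) := by
  apply del_eq
  rw [mul_smul, mul_smul, hk, hh, fix_smul hk, fix_smul hh, del_ι_mul, mul_one, ι_add, ι_add, ι_add]
  have := ι_comm (del h (ι (del k x))) (ι (del k x))
  calc ι (del h x) * ι (del h (ι (del k x))) * (ι (del k x) * x)
      = ι (del h x) * (ι (del h (ι (del k x))) * ι (del k x)) * x := by group
    _ = _ := by rw [this]; group

end Pool.Agent.R675.AIM
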