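import Pool.Agent.R675.AIM.Del

set_option autoImplicit false

namespace Pool.Agent.R675.AIM

open Loop

variable {Q : Type} [Loop Q] [Ab4 Q]

/-- the iterated difference -/
def T3 (a b : NN Q) (x : CC Q) : V Q := del a (ι (del b x))

theorem T3_fix {h k : NN Q} (hh : h • (1 : CC Q) = 1) (hk : k • (1 : CC Q) = 1) (x : CC Q) :
    T3 h k x = T3 k h x := by
  have e1 := del_mul_fix hh hk x
  have e2 := del_mul_fix hk hh x
  rw [fix_comm hh hk, e2] at e1
  have : del k x + del h x = del h x + del k x := add_comm _ _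
  rw [this] at e1
  exact (add_left_cancel e1).symm

theorem T3_symm (a b : NN Q) (x : CC Q) : T3 a b x = T3 b a x := by
  have := T3_fix (et_one a) (et_one b) x
  unfold T3 at *
  rw [del_et b x, del_et a (ι _), del_et a x, del_et b (ι _)]
  exact this

theorem T3_isZ (a b : NN Q) (x : CC Q) : isZ (T3 a b x) := del_ι_isZ _ _

theorem del_ι_add (y : NN Q) (v w : V Q) : del y (ι (v + w)) = del y (ι v) + del y (ι w) := by
  rw [ι_add, del_mul_ι]

/-- `v ↦ del y (ι v)` as a homomorphism -/
def dV (y : NN Q) : V Q →+ V Q where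
  toFun v := del y (ι v)
  map_zero' := by rw [ι_zero, del_one]
  map_add' := del_ι_add y

theorem dV_def (y : NN Q) (v : V Q) : dV y v = del y (ι v) := rfl
theorem dV_isZ {v : V Q} (hv : isZ v) (y : NN Q) : dV y v = 0 := del_Z hv y
theorem T3_def (a b : NN Q) (x : CC Q) : T3 a b x = dV a (del b x) := rfl

theorem del_inv_ι (y : NN Q) (v : V Q) : del y (ι v)⁻¹ = - del y (ι v) := by
  rw [← ι_neg]; exact map_neg (dV y) v

/-! elements of `N2` -/
theorem isZ_N2 {u : NN Q} (hu : (u : G Q) ∈ N2 Q) (x : CC Q) : isZ (del u x) := by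
  have hv := com_N1' u (RC x) hu
  have e2 := congrArg (fun g : NN Q => g • (1 : CC Q)) (com_eq u (RC x))
  simp only [mul_smul] at e2
  rw [RC_one, RC_smul, N1_smul hv] at e2
  have : del u x = toV _ (ZC_le (N1_one hv)) := by
    apply del_eq
    rw [ι_toV, e2, C2_comm (N2_one hu)]; group
  rw [this]
  exact N1_one hv

theorem del_hom_N2 {u : NN Q} (hu : (u : G Q) ∈ N2 Q) (a b : CC Q) : del u (a * b) = del u a + del u b := by
  have hv := com_N1' u (RC b) hu
  have e := com_eq u (RC b)
  have e2 := congrArg (fun g : NN Q => g • (1 : CC Q)) e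
  have e3 := congrArg (fun g : NN Q => g • a) e
  simp only [mul_smul] at e2 e3
  rw [RC_one, RC_smul, N1_smul hv] at e2
  rw [RC_smul, RC_smul, N1_smul hv] at e3
  have h1 : del u b = toV _ (ZC_le (N1_one hv)) := by
    apply del_eq
    rw [ι_toV, e2, C2_comm (N2_one hu)]; group
  have h2 : com u (RC b) • (1 : CC Q) = ι (del u b) := by rw [h1, ι_toV]
  apply del_eq
  rw [e3, h2, smul_eq u a, ι_add]
  have h3 := C2_comm (N2_one hu) b
  calc ι (del u b) * (ι (del u a) * a * u • (1 : CC Q) * b)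
      = ι (del u b) * (ι (del u a) * a * (u • (1 : CC Q) * b)) := by group
    _ = (ι (del u b) * ι (del u a)) * a * b * u • (1 : CC Q) := by rw [h3]; group
    _ = _ := by rw [ι_comm (del u b)]; group

theorem del_del_N2 {u : NN Q} (hu : (u : G Q) ∈ N2 Q) (y : NN Q) (x : CC Q) : T3 u y x = 0 := by
  rw [T3_symm, T3]
  exact del_Z (isZ_N2 hu x) y

theorem del_N2_ιdel {u : NN Q} (hu : (u : G Q) ∈ N2 Q) (y : NN Q) (x : CC Q) :
    del u (ι (del y x)) = 0 := del_del_N2 hu y x

/-- `u` behaves like an element of `N2` -/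
def Nice (u : NN Q) : Prop := ((et u : NN Q) : G Q) ∈ N2 Q

theorem Nice.isZ {u : NN Q} (hu : Nice u) (x : CC Q) : isZ (del u x) := by
  rw [del_et]; exact isZ_N2 hu x
theorem Nice.hom {u : NN Q} (hu : Nice u) (a b : CC Q) : del u (a * b) = del u a + del u b := by
  rw [del_et, del_et u a, del_et u b]; exact del_hom_N2 hu a b
theorem Nice.del {u : NN Q} (hu : Nice u) (y : NN Q) (x : CC Q) : del u (ι (del y x)) = 0 := by
  rw [del_et]; exact del_N2_ιdel hu y x

/-- failure of additivity -/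
def Xi (y : NN Q) (a b : CC Q) : V Q := del y (a * b) - del y a - del y b

theorem del_mul (y : NN Q) (a b : CC Q) : del y (a * b) = del y a + del y b + Xi y a b := by
  rw [Xi]; abel

theorem Xi_Nice {u : NN Q} (hu : Nice u) (a b : CC Q) : Xi u a b = 0 := by
  rw [Xi, hu.hom]; abel

theorem Xi_eq (y : NN Q) (a b : CC Q) : Xi y a b = del (com y (RC b)) a := by
  set u := com y (RC b) with hu
  have hu2 : (u : G Q) ∈ N2 Q := com_N2 y _
  have e := com_eq y (RC b)
  have e2 := congrArg (fun g : NN Q => g • (1 : CC Q)) e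
  have e3 := congrArg (fun g : NN Q => g • a) e
  simp only [mul_smul] at e2 e3
  rw [RC_one, RC_smul, ← hu, smul_eq u, del_hom_N2 hu2] at e2
  rw [RC_smul, RC_smul, ← hu, smul_eq u, del_hom_N2 hu2] at e3
  have e4 : del u (y • a) = del u a + del u (y • (1 : CC Q)) := by
    rw [smul_eq y a, del_hom_N2 hu2, del_hom_N2 hu2, del_N2_ιdel hu2, zero_add]
  rw [e4] at e3
  have e5 : y • (a * b) = ι (del u a) * (y • a) * (y • (1 : CC Q))⁻¹ * (y • b) := by
    rw [e3, e2]
    have h1 : ι (del u (y • (1 : CC Q)) + del u b) * (y • (1 : CC Q) * b) * u • (1 : CC Q)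
        = (y • (1 : CC Q)) * ι (del u (y • (1 : CC Q)) + del u b) * b * u • (1 : CC Q) := by
      rw [← ι_comm]; group
    rw [h1]
    have h2 : ι (del u a + del u (y • (1 : CC Q)) + del u b) = ι (del u a) * ι (del u (y • (1 : CC Q)) + del u b) := by
      rw [add_assoc, ι_add]
    rw [h2]
    have h3 := ι_comm (del u (y • (1 : CC Q)) + del u b) (y • a)
    calc ι (del u a) * ι (del u (y • (1 : CC Q)) + del u b) * (y • a * b) * u • (1 : CC Q)
        = ι (del u a) * (ι (del u (y • (1 : CC Q)) + del u b) * y • a) * b * u • (1 : CC Q) := by group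
      _ = _ := by rw [h3]; group
  have e6 : del y (a * b) = del u a + del y a + del y b := by
    apply del_eq
    rw [e5, smul_eq y a, smul_eq y b, ι_add, ι_add]
    have h2 : ι (del y b) * a = a * ι (del y b) := ι_comm _ _
    calc ι (del u a) * (ι (del y a) * a * y • (1 : CC Q)) * (y • (1 : CC Q))⁻¹ * (ι (del y b) * b * y • (1 : CC Q))
        = ι (del u a) * ι (del y a) * (a * ι (del y b)) * b * y • (1 : CC Q) := by group
      _ = _ := by rw [← h2]; group
  rw [Xi, e6]; abel

theorem Xi_isZ (y : NN Q) (a b : CC Q) : isZ (Xi y a b) := by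
  rw [Xi_eq]; exact isZ_N2 (com_N2 _ _) _

theorem Xi_add_left (y : NN Q) (a a' b : CC Q) : Xi y (a * a') b = Xi y a b + Xi y a' b := by
  rw [Xi_eq, Xi_eq, Xi_eq, del_hom_N2 (com_N2 _ _)]

theorem Xi_add_right (y : NN Q) (a b b' : CC Q) : Xi y a (b * b') = Xi y a b + Xi y a b' := by
  have h1 : Xi y (a * b) b' + Xi y a b = Xi y a (b * b') + Xi y b b' := by
    simp only [Xi, mul_assoc]; abel
  rw [Xi_add_left] at h1
  have : Xi y a (b * b') = Xi y a b' + Xi y b b' + Xi y a b - Xi y b b' := by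
    rw [h1]; abel
  rw [this]; abel

theorem Xi_ι_left (y : NN Q) (v : V Q) (b : CC Q) : Xi y (ι v) b = 0 := by
  rw [Xi, del_ι_mul]; abel
theorem Xi_ι_right (y : NN Q) (v : V Q) (b : CC Q) : Xi y b (ι v) = 0 := by
  rw [Xi, del_mul_ι]; abel
theorem Xi_one_left (y : NN Q) (b : CC Q) : Xi y 1 b = 0 := by
  rw [Xi, one_mul, del_one]; abel
theorem Xi_one_right (y : NN Q) (b : CC Q) : Xi y b 1 = 0 := by
  rw [Xi, mul_one, del_one]; abel
theorem Xi_ι_mul_left (y : NN Q) (v : V Q) (a b : CC Q) : Xi y (ι v * a) b = Xi y a b := by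
  rw [Xi_add_left, Xi_ι_left, zero_add]
theorem Xi_ι_mul_right (y : NN Q) (v : V Q) (a b : CC Q) : Xi y a (ι v * b) = Xi y a b := by
  rw [Xi_add_right, Xi_ι_right, zero_add]
theorem Xi_inv_right (y : NN Q) (a b : CC Q) : Xi y a b⁻¹ = - Xi y a b := by
  have := Xi_add_right y a b b⁻¹
  rw [mul_inv_cancel, Xi_one_right] at this
  exact (neg_eq_of_add_eq_zero_right this.symm).symm

/-- composition formula -/
theorem del_comp (y y' : NN Q) (x : CC Q) :
    del (y * y') x = del y x + del y' x + T3 y y' x + Xi y x (y' • (1 : CC Q)) := by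
  apply del_eq
  set n := y' • (1 : CC Q) with hn
  rw [mul_smul, smul_eq y' x, ← hn, smul_eq y (_ * n), mul_smul, ← hn, smul_eq y n]
  have h1 : del y (ι (del y' x) * x * n) = T3 y y' x + (del y x + del y n + Xi y x n) := by
    rw [mul_assoc, del_ι_mul, del_mul, T3]; abel
  rw [h1]
  have h2 : ι (T3 y y' x + (del y x + del y n + Xi y x n)) * (ι (del y' x) * x * n) * y • (1 : CC Q)
      = ι (T3 y y' x + (del y x + del y n + Xi y x n) + del y' x) * (x * n * y • (1 : CC Q)) := by
    rw [ι_add _ (del y' x)]; group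
  have h3 : ι (del y x + del y' x + T3 y y' x + Xi y x n) * x * (ι (del y n) * n * y • (1 : CC Q))
      = ι (del y x + del y' x + T3 y y' x + Xi y x n + del y n) * (x * n * y • (1 : CC Q)) := by
    rw [ι_add _ (del y n)]
    have := ι_comm (del y n) x
    calc _ = ι (del y x + del y' x + T3 y y' x + Xi y x n) * (x * ι (del y n)) * n * y • (1 : CC Q) := by group
      _ = _ := by rw [← this]; group
  rw [h2, h3]
  congr 2
  abel

/-! commutators in `C` -/
theorem cc_unique {n m : CC Q} {v : V Q} (h : n * m = ι v * (m * n)) : cc n m = v := by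
  apply ι_inj
  have := cc_eq n m
  rw [h] at this
  exact (mul_right_cancel this).symm

theorem cc_mul_left (a b m : CC Q) : cc (a * b) m = cc a m + cc b m := by
  apply cc_unique
  have h1 := cc_eq a m
  have h2 := cc_eq b m
  calc a * b * m = a * (b * m) := by group
    _ = (a * ι (cc b m)) * m * b := by rw [h2]; group
    _ = ι (cc b m) * (a * m) * b := by rw [← ι_comm]; group
    _ = ι (cc b m) * ι (cc a m) * (m * (a * b)) := by rw [h1]; group
    _ = _ := by rw [ι_add, ι_comm (cc b m)]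

theorem cc_neg (a b : CC Q) : cc a b = - cc b a := by
  apply cc_unique
  have := cc_eq b a
  rw [this, ι_neg]; group

theorem cc_mul_right (m a b : CC Q) : cc m (a * b) = cc m a + cc m b := by
  rw [cc_neg, cc_mul_left, cc_neg m a, cc_neg m b]; abel

theorem cc_ι_left (v : V Q) (m : CC Q) : cc (ι v) m = 0 := by
  apply cc_unique; rw [ι_zero, one_mul, ι_comm]
theorem cc_ι_right (v : V Q) (m : CC Q) : cc m (ι v) = 0 := by
  rw [cc_neg, cc_ι_left, neg_zero]
theorem cc_C2_right {z : CC Q} (hz : z ∈ C2 Q) (m : CC Q) : cc m z = 0 := cc_ι_right (toV z hz) m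
theorem cc_ι_mul_left (v : V Q) (a m : CC Q) : cc (ι v * a) m = cc a m := by
  rw [cc_mul_left, cc_ι_left, zero_add]
theorem cc_ι_mul_right (v : V Q) (a m : CC Q) : cc m (ι v * a) = cc m a := by
  rw [cc_mul_right, cc_ι_right, zero_add]
theorem cc_one_right (m : CC Q) : cc m 1 = 0 := cc_ι_right 0 m

/-- the basic identity for commuting elements of `N` -/
theorem X1 {y y' : NN Q} (h : y * y' = y' * y) :
    del y (y' • (1 : CC Q)) - del y' (y • (1 : CC Q)) = cc (y • (1 : CC Q)) (y' • (1 : CC Q)) := by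
  have e := congrArg (fun g : NN Q => g • (1 : CC Q)) h
  simp only [mul_smul] at e
  rw [smul_eq y (y' • (1 : CC Q)), smul_eq y' (y • (1 : CC Q))] at e
  have e2 := cc_eq (y • (1 : CC Q)) (y' • (1 : CC Q))
  have e3 : ι (del y (y' • (1 : CC Q))) = ι (del y' (y • (1 : CC Q)) + cc (y • (1 : CC Q)) (y' • (1 : CC Q))) := by
    rw [mul_assoc, mul_assoc, e2, ← mul_assoc (ι (del y' _))] at e
    rw [ι_add]
    exact mul_right_cancel e
  rw [ι_inj e3]; abel

end Pool.Agent.R675.AIM
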