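import Mathlib

set_option autoImplicit false

namespace Pool.Agent.R675.AIM

/-- Loops, with left and right division. -/
class Loop (Q : Type) extends Mul Q, One Q where
  ld : Q → Q → Q
  rd : Q → Q → Q
  one_mul' : ∀ x : Q, 1 * x = x
  mul_one' : ∀ x : Q, x * 1 = x
  mul_ld : ∀ a b : Q, a * ld a b = b
  ld_mul : ∀ a b : Q, ld a (a * b) = b
  rd_mul : ∀ a b : Q, rd b a * a = b
  mul_rd : ∀ a b : Q, rd (b * a) a = b

open Loop

variable {Q : Type} [Loop Q]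

/-- right translation -/
def Rp (x : Q) : Equiv.Perm Q where
  toFun y := y * x
  invFun y := rd y x
  left_inv y := mul_rd x y
  right_inv y := rd_mul x y

/-- left translation -/
def Lp (x : Q) : Equiv.Perm Q where
  toFun y := x * y
  invFun y := ld x y
  left_inv y := ld_mul x y
  right_inv y := mul_ld x y

/-- the multiplication group -/
def Mlt (Q : Type) [Loop Q] : Subgroup (Equiv.Perm Q) :=
  Subgroup.closure (Set.range (Lp : Q → Equiv.Perm Q) ∪ Set.range (Rp : Q → Equiv.Perm Q))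

abbrev G (Q : Type) [Loop Q] : Type := ↥(Mlt Q)

def R (x : Q) : G Q := ⟨Rp x, Subgroup.subset_closure (Or.inr ⟨x, rfl⟩)⟩
def L (x : Q) : G Q := ⟨Lp x, Subgroup.subset_closure (Or.inl ⟨x, rfl⟩)⟩

theorem sR (x y : Q) : R x • y = y * x := rfl
theorem sL (x y : Q) : L x • y = x * y := rfl
theorem sR1 (x : Q) : R x • (1 : Q) = x := one_mul' x
theorem sL1 (x : Q) : L x • (1 : Q) = x := mul_one' x

theorem G_ext {g h : G Q} (H : ∀ q : Q, g • q = h • q) : g = h :=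
  Subtype.ext (Equiv.ext H)

theorem G_ind (P : G Q → Prop) (hR : ∀ x, P (R x)) (hL : ∀ x, P (L x)) (h1 : P 1)
    (hm : ∀ a b, P a → P b → P (a * b)) (hi : ∀ a, P a → P a⁻¹) (g : G Q) : P g := by
  obtain ⟨g, hg⟩ := g
  induction hg using Subgroup.closure_induction with
  | mem x hx =>
    rcases hx with ⟨y, rfl⟩ | ⟨y, rfl⟩
    · exact hL y
    · exact hR y
  | one => exact h1
  | mul x y hx hy ihx ihy => exact hm _ _ ihx ihy
  | inv x hx ih => exact hi _ ih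

theorem R_inv_smul {x y z : Q} (h : y = z * x) : (R x)⁻¹ • y = z := by
  rw [h, ← sR x z, inv_smul_smul]
theorem L_inv_smul {x y z : Q} (h : y = x * z) : (L x)⁻¹ • y = z := by
  rw [h, ← sL x z, inv_smul_smul]

/-- elements central modulo `K` -/
def Zt (K : Subgroup (G Q)) [K.Normal] : Subgroup (G Q) :=
  (Subgroup.center (G Q ⧸ K)).comap (QuotientGroup.mk' K)

instance (K : Subgroup (G Q)) [K.Normal] : (Zt K).Normal := by
  unfold Zt; infer_instance

theorem mem_Zt {K : Subgroup (G Q)} [hK : K.Normal] {g : G Q} :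
    g ∈ Zt K ↔ ∀ p : G Q, ∃ u ∈ K, g * p = u * (p * g) := by
  unfold Zt
  rw [Subgroup.mem_comap, Subgroup.mem_center_iff]
  constructor
  · intro h p
    have := h (p : G Q ⧸ K)
    have h2 : ((p * g : G Q) : G Q ⧸ K) = ((g * p : G Q) : G Q ⧸ K) := this
    rw [QuotientGroup.eq] at h2
    refine ⟨(g * p) * (p * g)⁻¹, ?_, by group⟩
    have := hK.conj_mem _ h2 (p * g)
    convert this using 1
    group
  · intro h q
    induction q using QuotientGroup.induction_on with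
    | H p =>
      obtain ⟨u, hu, e⟩ := h p
      change ((p * g : G Q) : G Q ⧸ K) = ((g * p : G Q) : G Q ⧸ K)
      rw [QuotientGroup.eq, e]
      have := hK.conj_mem _ hu (p * g)⁻¹
      convert this using 1
      group

theorem mem_Zt' {K : Subgroup (G Q)} [hK : K.Normal] {g : G Q} (h : g ∈ Zt K) (p : G Q) :
    ∃ u ∈ K, p * g = u * (g * p) := by
  obtain ⟨u, hu, e⟩ := mem_Zt.1 h p
  exact ⟨u⁻¹, K.inv_mem hu, by rw [e]; group⟩

theorem le_Zt (K : Subgroup (G Q)) [hK : K.Normal] : K ≤ Zt K := by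
  intro g hg
  rw [mem_Zt]
  intro p
  refine ⟨g * (p * g⁻¹ * p⁻¹), K.mul_mem hg (hK.conj_mem _ (K.inv_mem hg) p), by group⟩

/-- elements acting as elements of `Zt K` pointwise -/
def Nu (K : Subgroup (G Q)) [hK : K.Normal] : Subgroup (G Q) where
  carrier := {g | ∀ q : Q, ∃ c ∈ Zt K, g • q = c • q}
  one_mem' := fun q => ⟨1, one_mem _, rfl⟩
  mul_mem' := by
    intro g g' hg hg' q
    obtain ⟨c', hc', e'⟩ := hg' q
    obtain ⟨c, hc, e⟩ := hg q
    obtain ⟨u, hu, e2⟩ := mem_Zt' hc' g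
    refine ⟨u * (c' * c), mul_mem (le_Zt K hu) (mul_mem hc' hc), ?_⟩
    rw [mul_smul, e', ← mul_smul, e2, mul_smul, mul_smul, e, ← mul_smul, ← mul_smul, mul_assoc]
  inv_mem' := by
    intro g hg q
    obtain ⟨c, hc, e⟩ := hg (g⁻¹ • q)
    refine ⟨c⁻¹, inv_mem hc, ?_⟩
    rw [smul_inv_smul] at e
    rw [eq_inv_smul_iff, ← e]

theorem mem_Nu {K : Subgroup (G Q)} [hK : K.Normal] {g : G Q} :
    g ∈ Nu K ↔ ∀ q : Q, ∃ c ∈ Zt K, g • q = c • q := Iff.rfl

instance (K : Subgroup (G Q)) [hK : K.Normal] : (Nu K).Normal := by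
  constructor
  intro g hg p q
  obtain ⟨c, hc, e⟩ := hg (p⁻¹ • q)
  refine ⟨p * c * p⁻¹, (inferInstance : (Zt K).Normal).conj_mem _ hc p, ?_⟩
  simp only [mul_smul, e]

theorem Zt_le_Nu (K : Subgroup (G Q)) [hK : K.Normal] : Zt K ≤ Nu K :=
  fun g hg _ => ⟨g, hg, rfl⟩

theorem le_Nu (K : Subgroup (G Q)) [hK : K.Normal] : K ≤ Nu K :=
  (le_Zt K).trans (Zt_le_Nu K)

/-- pointwise closed subgroups -/
class PC (K : Subgroup (G Q)) : Prop where
  pc : ∀ g : G Q, (∀ q : Q, ∃ u ∈ K, g • q = u • q) → g ∈ K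

instance : PC (⊥ : Subgroup (G Q)) := ⟨by
  intro g hg
  rw [Subgroup.mem_bot]
  apply G_ext
  intro q
  obtain ⟨u, hu, e⟩ := hg q
  rw [Subgroup.mem_bot] at hu
  rw [e, hu]⟩

instance (K : Subgroup (G Q)) [hK : K.Normal] : PC (Nu K) := ⟨by
  intro g hg q
  obtain ⟨u, hu, e⟩ := hg q
  obtain ⟨c, hc, e'⟩ := hu q
  exact ⟨c, hc, e.trans e'⟩⟩

theorem R_of_Zt {K : Subgroup (G Q)} [hK : K.Normal] [hp : PC K] {c : G Q} (hc : c ∈ Zt K) :
    R (c • (1 : Q)) * c⁻¹ ∈ K := by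
  apply hp.pc
  intro q
  obtain ⟨u, hu, e⟩ := mem_Zt' hc (L (c⁻¹ • q))
  refine ⟨u, hu, ?_⟩
  have h := congrArg (fun g : G Q => g • (1 : Q)) e
  simp only [mul_smul, sL] at h
  rw [mul_one', smul_inv_smul] at h
  rw [mul_smul, sR, h]

theorem L_of_Zt {K : Subgroup (G Q)} [hK : K.Normal] [hp : PC K] {c : G Q} (hc : c ∈ Zt K) :
    L (c • (1 : Q)) * c⁻¹ ∈ K := by
  apply hp.pc
  intro q
  obtain ⟨u, hu, e⟩ := mem_Zt' hc (R (c⁻¹ • q))
  refine ⟨u, hu, ?_⟩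
  have h := congrArg (fun g : G Q => g • (1 : Q)) e
  simp only [mul_smul, sR] at h
  rw [one_mul', smul_inv_smul] at h
  rw [mul_smul, sL, h]

theorem R_mem_Zt {K : Subgroup (G Q)} [hK : K.Normal] [hp : PC K] {c : G Q} (hc : c ∈ Zt K) :
    R (c • (1 : Q)) ∈ Zt K := by
  have := mul_mem (le_Zt K (R_of_Zt hc)) hc
  simpa using this

theorem L_mem_Zt {K : Subgroup (G Q)} [hK : K.Normal] [hp : PC K] {c : G Q} (hc : c ∈ Zt K) :
    L (c • (1 : Q)) ∈ Zt K := by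
  have := mul_mem (le_Zt K (L_of_Zt hc)) hc
  simpa using this

theorem LR_mem {K : Subgroup (G Q)} [hK : K.Normal] [hp : PC K] {a : Q} (ha : R a ∈ Zt K) :
    L a * (R a)⁻¹ ∈ K := by
  have := L_of_Zt ha
  rwa [sR1] at this

theorem L_mem_Zt' {K : Subgroup (G Q)} [hK : K.Normal] [hp : PC K] {a : Q} (ha : R a ∈ Zt K) :
    L a ∈ Zt K := by
  have := L_mem_Zt ha
  rwa [sR1] at this

theorem Nu_exists {K : Subgroup (G Q)} [hK : K.Normal] [hp : PC K] {g : G Q} (hg : g ∈ Nu K) (q : Q) :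
    ∃ a : Q, R a ∈ Zt K ∧ g • q = a * q := by
  obtain ⟨c, hc, e⟩ := hg q
  have hc' : (R q)⁻¹ * c * R q ∈ Zt K := by
    have := (inferInstance : (Zt K).Normal).conj_mem _ hc (R q)⁻¹
    simpa using this
  refine ⟨((R q)⁻¹ * c * R q) • (1 : Q), R_mem_Zt hc', ?_⟩
  rw [e, ← sR q, ← mul_smul]
  simp [mul_smul, sR1]

theorem Nu_of {K : Subgroup (G Q)} [hK : K.Normal] [hp : PC K] {g : G Q}
    (h : ∀ q : Q, ∃ a : Q, R a ∈ Zt K ∧ g • q = a * q) : g ∈ Nu K := by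
  intro q
  obtain ⟨a, ha, e⟩ := h q
  exact ⟨L a, L_mem_Zt' ha, e⟩

end Pool.Agent.R675.AIM
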