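import Pool.Agent.R675.AIM.Sym

set_option autoImplicit false

namespace Pool.Agent.R675.AIM

open Loop

variable {Q : Type} [Loop Q] [Ab4 Q]

theorem del_Ysplit (h : NN Q) (p p' : G Q) (x : CC Q) :
    del (cj (p * p') h) x = del (cj p' (RC (cj p h • (1 : CC Q)))) x + del (cj p' (et (cj p h))) x := by
  have hN := Nice_cjRC p' (cj p h • (1 : CC Q))
  rw [Y_split, del_comp, T3_Nice_left hN, Xi_Nice hN]; abel

/-- conjugation by elements fixing one -/
theorem del_conj_fix {ρ W Y : NN Q} (hρ : ρ • (1 : CC Q) = 1) (h : W * ρ = ρ * Y) (x : CC Q) :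
    del W x = del Y x + Xi ρ x (Y • (1 : CC Q)) := by
  have h1 := del_comp W ρ x
  have h2 := del_comp ρ Y x
  rw [h, h2, hρ, Xi_one_right] at h1
  have h3 : T3 W ρ x = T3 ρ Y x := by
    have e : W = ρ * Y * ρ⁻¹ := by rw [← h]; group
    rw [T3_symm, e, T3_add_mid, T3_add_mid, T3_inv_mid]; abel
  rw [h3] at h1
  linear_combination (norm := module) - h1

/-- `RR` in `NN` -/
def RN (x y : Q) : NN Q := hN (RH x y)
theorem RN_one (x y : Q) : (RN x y : NN Q) • (1 : CC Q) = 1 := hN_one _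
theorem RN_coe (x y : Q) : ((RN x y : NN Q) : G Q) = RR x y := rfl

theorem del_Rmul (h : NN Q) (r q : Q) (x : CC Q) :
    del (cj (R (r * q)) h) x = del (cj (R q * R r) h) x + Xi (RN r q) x (cj (R q * R r) h • (1 : CC Q)) := by
  apply del_conj_fix (RN_one r q)
  apply Subtype.ext
  simp only [Subgroup.coe_mul, cj_coe, RN_coe]
  rw [RR]; group

theorem cj_R_smul_one (h : NN Q) (r q : Q) : cj (R (r * q)) h • (1 : CC Q) = RN r q • (cj (R q * R r) h • (1 : CC Q)) := by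
  have e : cj (R (r * q)) h = RN r q * cj (R q * R r) h * (RN r q)⁻¹ := by
    apply Subtype.ext
    simp only [Subgroup.coe_mul, cj_coe, RN_coe, Subgroup.coe_inv]
    rw [RR]; group
  rw [e, mul_smul, mul_smul]
  congr 2
  rw [inv_smul_eq_iff, RN_one]

theorem del_cjRC_shift (Y : NN Q) (m x : CC Q) : del (cj (R m.1) Y) x = del Y x + Xi Y x m := by
  have e : RC m * cj (R m.1) Y = Y * RC m := by
    apply Subtype.ext
    simp only [Subgroup.coe_mul, cj_coe]
    change R m.1 * _ = _ * R m.1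
    group
  have h1 := del_comp (RC m) (cj (R m.1) Y) x
  have h2 := del_comp Y (RC m) x
  have a1 : T3 (RC m) (cj (R m.1) Y) x = 0 := del_RC _ _
  have a2 : Xi (RC m) x (cj (R m.1) Y • (1 : CC Q)) = 0 := by rw [Xi, del_RC, del_RC, del_RC]; abel
  have a3 : T3 Y (RC m) x = 0 := by rw [T3_def, del_RC, map_zero]
  rw [e, h2, a1, a2, a3, RC_one, del_RC] at h1
  linear_combination (norm := module) - h1

theorem RN_Nice (m : CC Q) (z : Q) : Nice (RN m.1 z) := by
  apply Nice_of_N2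
  rw [RN_coe]
  exact RRax (C_Zt m.2) z

theorem del_shift (h : NN Q) (m : CC Q) (z : Q) (x : CC Q) :
    del (cj (R (m.1 * z)) h) x = del (cj (R z) h) x + Xi (cj (R z) h) x m := by
  rw [del_Rmul, Xi_Nice (RN_Nice m z), add_zero, ← cj_cj, del_cjRC_shift]

/-- the commutator of `q` and `r` in `C` -/
def cm (q r : Q) : CC Q := RN r q • (cj (R r) (hN (TH q)) • (1 : CC Q))

theorem cm_eq (q r : Q) : q * r = (cm q r).1 * (r * q) := by
  change q * r = R (r * q) • (RR r q) • ((R r)⁻¹ * TT q * R r) • (1 : Q)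
  rw [← mul_smul, ← mul_smul, RR, TT]
  have : R (r * q) * ((R (r * q))⁻¹ * R q * R r) * ((R r)⁻¹ * ((R q)⁻¹ * L q) * R r) = L q * R r := by group
  rw [this, mul_smul, sR1, sL]

theorem cm_ι (q r : Q) : ∃ v : V Q, cm q r = ι v * (cj (R r) (hN (TH q)) • (1 : CC Q)) := by
  exact ⟨_, fix_smul (RN_one r q) _⟩

theorem T3_TF (a b c : H Q) (p : G Q) : T3 (hN a) (hN b) (cj p (hN c) • (1 : CC Q)) = TF a b c (p • (1 : Q)) :=
  TF_p a b c p

theorem TXF (a b c : H Q) (p r : G Q) : T3 (hN a) (cj p (hN c)) (cj r (hN b) • (1 : CC Q)) =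
    TF a b c ((p * r) • (1 : Q)) - TF a b c (p • (1 : Q)) := by
  rw [TX _ _ (hN_one b), cj_cj, TF_p, TF_p]

/-- evaluation of `Xi` -/
theorem Xi_TF (a b c : H Q) (P p r : G Q) :
    Xi (cj P (hN c)) (cj p (hN a) • (1 : CC Q)) (cj r (hN b) • (1 : CC Q)) =
      TF a b c ((P * p * r) • (1 : Q)) - TF a b c ((P * p) • (1 : Q)) -
      (TF a b c ((P * r) • (1 : Q)) - TF a b c (P • (1 : Q))) := by
  rw [F7 (hN_one a), cj_cj, TXF, TXF]

theorem TF_mk (a b c : H Q) {x x' : Q} (h : ((R x : G Q) : G Q ⧸ NN Q) = ((R x' : G Q) : G Q ⧸ NN Q)) :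
    TF a b c x = TF a b c x' := X_mk _ _ _ h

theorem d_mk (a b c : H Q) {x x' : Q} (h : ((R x : G Q) : G Q ⧸ NN Q) = ((R x' : G Q) : G Q ⧸ NN Q)) (s : Q) :
    (dat Q).d a b c x s = (dat Q).d a b c x' s := by
  change TF a b c (x * s) - TF a b c x - TF a b c s = TF a b c (x' * s) - TF a b c x' - TF a b c s
  rw [TF_mk a b c h, TF_mk a b c (x := x * s) (x' := x' * s) (by rw [mkR_mul, mkR_mul, h])]

theorem d_p (a b c : H Q) (P p : G Q) (s : Q) : (dat Q).d a b c ((P * p) • (1 : Q)) s =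
    (dat Q).d a b c (P • (1 : Q)) s + (dat Q).d a b c (p • (1 : Q)) s := by
  rw [d_mk a b c (x := (P * p) • (1 : Q)) (x' := (P • (1 : Q)) * (p • (1 : Q)))
    (by rw [← mk_eqR, mkR_mul, ← mk_eqR, ← mk_eqR, QuotientGroup.mk_mul]),
    (dat Q).d_comm a b c, (dat Q).d_ad, (dat Q).d_comm a b c s, (dat Q).d_comm a b c s]

theorem Xi_TF' (a b c : H Q) (P p r : G Q) :
    Xi (cj P (hN c)) (cj p (hN a) • (1 : CC Q)) (cj r (hN b) • (1 : CC Q)) =
      (dat Q).d a b c (p • (1 : Q)) (r • (1 : Q)) := by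
  rw [Xi_TF, TF_d a b c (P * p) r, TF_d a b c P r, d_p]; abel

/-- the term `K` -/
theorem K_eval (a b : H Q) (q r s : Q) :
    del (cj (R r) (RC (cj (R q) (hN a) • (1 : CC Q)))) (cj (R s) (hN b) • (1 : CC Q)) =
      - ((2 : ℤ) • (dat Q).f a b s q r) := by
  rw [F8 (hN_one b)]
  have w1 : wN (R r * R s) = hN ((RH s r)⁻¹ * TH (s * r)) := by
    apply Subtype.ext
    change (R r * R s)⁻¹ * L ((R r * R s) • (1 : Q)) = (RR s r)⁻¹ * TT (s * r)
    rw [mul_smul, sR1, sR, RR, TT]; group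
  have w2 : ∀ u : Q, wN (R u) = hN (TH u) := by
    intro u
    apply Subtype.ext
    change (R u)⁻¹ * L ((R u) • (1 : Q)) = TT u
    rw [sR1, TT]
  rw [w1, w2, w2, T3_TF, T3_TF, T3_TF, sR1]
  have e1 : ∀ c : H Q, TF b c a q = (dat Q).T a b c q := fun c => by
    rw [(dat Q).s12 a b c q, (dat Q).s23]; rfl
  rw [e1, e1, e1, (dat Q).add3]
  have e2 : (dat Q).T a b (RH s r)⁻¹ q = - (dat Q).f a b q s r := by
    have h : (dat Q).T a b (RH s r)⁻¹ q = - (dat Q).T a b (RH s r) q := TF_inv3 a b _ q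
    rw [h]
    have h2 : (dat Q).T a b (RH s r) q = (dat Q).f a b q s r := (dat Q).fR a b q s r
    rw [h2]
  have e3 := (dat Q).gmul a b s r q
  change (dat Q).T a b (TH (s * r)) q = (dat Q).T a b (TH s) q + (dat Q).T a b (TH r) q + _ - _ + _ at e3
  have e4 : (dat Q).f a b s r q = - (dat Q).f a b s q r := ((dat Q).good a b).x23 s r q
  rw [e2, e3, e4]
  module

theorem f_zero (a b : H Q) (s q r : Q) : (dat Q).f a b s q r = 0 := by
  set x2 := cj (R s) (hN b) • (1 : CC Q) with hx2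
  set x1 := cj (R s) (hN a) • (1 : CC Q) with hx1
  -- (***) twice
  have t1 := del_Rmul (hN a) r q x2
  have t2 := del_Rmul (hN b) q r x1
  rw [del_Ysplit] at t1 t2
  rw [hx2, K_eval] at t1
  rw [hx1, K_eval] at t2
  -- the Xi terms vanish
  have z1 : Xi (RN r q) (cj (R s) (hN b) • (1 : CC Q)) (cj (R q * R r) (hN a) • (1 : CC Q)) = 0 := by
    have h := Xi_TF' b a (RH r q) 1 (R s) (R q * R r)
    rw [cj_one] at h
    rw [RN, h]
    exact (dat Q).d_R _ _ _ _ _ _
  have z2 : Xi (RN q r) (cj (R s) (hN a) • (1 : CC Q)) (cj (R r * R q) (hN b) • (1 : CC Q)) = 0 := by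
    have h := Xi_TF' a b (RH q r) 1 (R s) (R r * R q)
    rw [cj_one] at h
    rw [RN, h]
    exact (dat Q).d_R _ _ _ _ _ _
  rw [z1, add_zero] at t1
  rw [z2, add_zero] at t2
  -- selfadjointness
  have s1 : del (cj (R r) (et (cj (R q) (hN a)))) (cj (R s) (hN b) • (1 : CC Q)) =
      del (cj (R q) (et (cj (R r) (hN b)))) (cj (R s) (hN a) • (1 : CC Q)) := by
    rw [S2 (et_one _) (hN_one b), del_et, S1 (et_one _) (et_one _), ← del_et, S2 (hN_one a) (et_one _)]
  have s2 : del (cj (R (q * r)) (hN b)) (cj (R s) (hN a) • (1 : CC Q)) =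
      del (cj (R (q * r)) (hN a)) (cj (R s) (hN b) • (1 : CC Q)) := S2 (hN_one b) (hN_one a) _ _
  have s3 : del (cj (R (q * r)) (hN a)) (cj (R s) (hN b) • (1 : CC Q)) =
      del (cj (R (r * q)) (hN a)) (cj (R s) (hN b) • (1 : CC Q)) - (3 : ℤ) • (dat Q).f b a q s r := by
    have h := del_shift (hN a) (cm q r) (r * q) (cj (R s) (hN b) • (1 : CC Q))
    rw [← cm_eq] at h
    obtain ⟨v, hv⟩ := cm_ι q r
    rw [h, hv, Xi_ι_mul_right, Xi_TF', sR1, sR1]
    have := (dat Q).d_T b a q s r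
    rw [(dat Q).d_s23] at this
    change (dat Q).d b (TH q) a s r = _ at this
    rw [this]; abel
  rw [s2, s3, t1, s1] at t2
  have g1 : (dat Q).f b a q s r = - (dat Q).f a b s q r := by
    rw [(dat Q).f_symm, ((dat Q).good a b).x12]
  have g2 : (dat Q).f b a s r q = - (dat Q).f a b s q r := by
    rw [(dat Q).f_symm, ((dat Q).good a b).x23]
  rw [g1, g2] at t2
  linear_combination (norm := module) - t2

end Pool.Agent.R675.AIM
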