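import Pool.Agent.R675.AIM.Fzero

set_option autoImplicit false

namespace Pool.Agent.R675.AIM

open Loop

variable {Q : Type} [Loop Q] [Ab4 Q]

theorem fF_zero (a b : H Q) (x y z : Q) : fF a b x y z = 0 := f_zero a b x y z

theorem d_zero (a b c : H Q) (s t : Q) : (dat Q).d a b c s t = 0 := by
  refine (dat Q).gen (fun c => (dat Q).d a b c s t = 0) ?_ ?_ ?_ ?_ ?_ ?_ ?_ c
  · intro u; rw [(dat Q).d_T, f_zero, smul_zero, neg_zero]
  · intro x y; exact (dat Q).d_L _ _ _ _ _ _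
  · intro x y; exact (dat Q).d_R _ _ _ _ _ _
  · intro x y; exact (dat Q).d_U _ _ _ _ _ _
  · exact (dat Q).d_one3 _ _ _ _
  · intro b b' h h'; rw [(dat Q).d_mul3, h, h', add_zero]
  · intro b h; rw [(dat Q).d_inv3, h, neg_zero]

theorem TFL (a b : H Q) (x y z : Q) : TF a b (LH x y) z = 0 := by rw [TF_fL, fF_zero]
theorem TFR (a b : H Q) (x y z : Q) : TF a b (RH x y) z = 0 := by rw [TF_fR, fF_zero]
theorem TFU (a b : H Q) (x y z : Q) : TF a b (UH x y) z = 0 := by rw [TF_fU, fF_zero]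

theorem TF_s13 (a b c : H Q) (q : Q) : TF a b c q = TF c b a q := by
  rw [TF_s12, TF_s23, TF_s12]

theorem TF_hom (a b c : H Q) (p p' : G Q) :
    TF a b c ((p * p') • (1 : Q)) = TF a b c (p • (1 : Q)) + TF a b c (p' • (1 : Q)) := by
  rw [TF_d, d_zero, add_zero]

theorem Xi_zero (a b c : H Q) (P p r : G Q) :
    Xi (cj P (hN c)) (cj p (hN a) • (1 : CC Q)) (cj r (hN b) • (1 : CC Q)) = 0 := by
  rw [Xi_TF', d_zero]

/-- `F` -/
def Fh (h : H Q) (x y : Q) : V Q := del (hN h) (cj (R y) (hN (TH x)) • (1 : CC Q))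

theorem del_cm (h : H Q) (x y : Q) : del (hN h) (cm x y) = Fh h x y := by
  have e : TF h (RH y x) (TH x) y = 0 := by rw [TF_s23, TFR]
  have e2 : T3 (hN h) (hN (RH y x)) (cj (R y) (hN (TH x)) • (1 : CC Q)) = 0 := by
    rw [T3_TF, sR1, e]
  rw [cm, RN, fix_smul (hN_one _), del_ι_mul, ← T3, e2, add_zero]; rfl

theorem Xi_cm (h : H Q) (x y : Q) : Xi (hN h) (cm x y) (cm x y) = 0 := by
  obtain ⟨v, hv⟩ := cm_ι x y
  rw [hv, Xi_ι_mul_left, Xi_ι_mul_right]
  have := Xi_zero (TH x) (TH x) h 1 (R y) (R y)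
  rwa [cj_one] at this

theorem cm_cm (x y : Q) : ∃ ζ : V Q, isZ ζ ∧ cm y x = ι ζ * (cm x y)⁻¹ := by
  set m := cm x y with hm
  set m' := cm y x with hm'
  set z := y * x with hz
  have h1 : x * y = m.1 * z := cm_eq x y
  have h2 : z = m'.1 * (m.1 * z) := by rw [← h1]; exact cm_eq y x
  obtain ⟨w, hw, e⟩ := moveC (RR_mem m.1 z) (RRax (C_Zt m.2) z) m'.2
  have e2 : (RR m.1 z • m'.1) * (m.1 * z) = (m'.1 * m.1) * z := by
    rw [RR, mul_smul, mul_smul, sR, sR, ← sR (m.1 * z), smul_inv_smul]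
  rw [e, ← cen_mul_assoc hw, ← h2] at e2
  have e3 := mul_right_cancel' e2
  obtain ⟨v, hv, hv2⟩ := cen_in_C hw
  refine ⟨v, hv, ?_⟩
  rw [eq_mul_inv_iff_mul_eq]
  apply Subtype.ext
  rw [coe_mul, ← e3, hv2]

theorem FA (h : H Q) (x y : Q) : Fh h x y = - Fh h y x := by
  obtain ⟨ζ, hζ, e⟩ := cm_cm x y
  have h1 := del_cm h y x
  rw [e, del_ι_mul, del_Z hζ, del_inv_elt, Xi_cm, del_cm] at h1
  linear_combination (norm := module) -h1

/-- translation of a difference -/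
theorem LG (c : H Q) (g : G Q) (q : Q) (m : CC Q) (hm : m.1 * (g • q) = g • (c : G Q) • q) :
    ∃ k : H Q, m = hN k • (cj (R q) (hN c) • (1 : CC Q)) := by
  have k1 : (R (g • q))⁻¹ * (g * R q) ∈ H Q := by
    have := RinvH (g * R q)
    rwa [mul_smul, sR1] at this
  refine ⟨⟨_, k1⟩, ?_⟩
  apply Subtype.ext
  apply mul_right_cancel' (z := g • q)
  rw [hm]
  symm
  change R (g • q) • ((R (g • q))⁻¹ * (g * R q)) • ((R q)⁻¹ * (c : G Q) * R q) • (1 : Q) = _
  rw [← mul_smul, ← mul_smul]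
  have : R (g • q) * ((R (g • q))⁻¹ * (g * R q)) * ((R q)⁻¹ * (c : G Q) * R q) = g * c * R q := by group
  rw [this, mul_smul, mul_smul, sR1]

theorem LG' (h c : H Q) (g : G Q) (q : Q) (m : CC Q) (hm : m.1 * (g • q) = g • (c : G Q) • q)
    (h0 : ∀ k : H Q, TF h k c q = 0) :
    del (hN h) m = del (hN h) (cj (R q) (hN c) • (1 : CC Q)) := by
  obtain ⟨k, e⟩ := LG c g q m hm
  have e2 : T3 (hN h) (hN k) (cj (R q) (hN c) • (1 : CC Q)) = 0 := by
    rw [T3_TF, sR1, h0]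
  rw [e, fix_smul (hN_one _), del_ι_mul, ← T3, e2, add_zero]

theorem LG_ex (c : H Q) (g : G Q) (q : Q) : ∃ m : CC Q, m.1 * (g • q) = g • (c : G Q) • q := by
  have k1 : (R (g • q))⁻¹ * (g * R q) ∈ H Q := by
    have := RinvH (g * R q)
    rwa [mul_smul, sR1] at this
  refine ⟨hN ⟨_, k1⟩ • (cj (R q) (hN c) • (1 : CC Q)), ?_⟩
  change R (g • q) • ((R (g • q))⁻¹ * (g * R q)) • ((R q)⁻¹ * (c : G Q) * R q) • (1 : Q) = _
  rw [← mul_smul, ← mul_smul]
  have : R (g • q) * ((R (g • q))⁻¹ * (g * R q)) * ((R q)⁻¹ * (c : G Q) * R q) = g * c * R q := by group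
  rw [this, mul_smul, mul_smul, sR1]

/-- the associator form -/
def Bh (h : H Q) (x y z : Q) : V Q := del (hN h) (cj (R z) (hN (LH x y)) • (1 : CC Q))

theorem B_all (h : H Q) (x y z : Q) :
    del (hN h) (cj (R x) (hN (RH y z)) • (1 : CC Q)) = Bh h x y z ∧
    del (hN h) (cj (R y) (hN (UH x z)) • (1 : CC Q)) = Bh h x y z := by
  obtain ⟨m, hm⟩ := LG_ex (LH x y) (L x * L y) z
  have eL := LG' h (LH x y) (L x * L y) z m hm (fun k => TFL h k x y z)
  have e1 : (L x * L y) • ((LH x y : H Q) : G Q) • z = (x * y) * z := by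
    change (L x * L y) • (LL x y)⁻¹ • z = (x * y) * z
    rw [← mul_smul, LL]
    have : L x * L y * ((L (x * y))⁻¹ * L x * L y)⁻¹ = L (x * y) := by group
    rw [this, sL]
  have e2 : (L x * L y) • z = x * (y * z) := by rw [mul_smul, sL, sL]
  rw [e1, e2] at hm
  have f1 : (R (y * z)) • ((RH y z : H Q) : G Q) • x = (x * y) * z := by
    change (R (y * z)) • (RR y z) • x = (x * y) * z
    rw [← mul_smul, RR]
    have : R (y * z) * ((R (y * z))⁻¹ * R z * R y) = R z * R y := by group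
    rw [this, mul_smul, sR, sR]
  have g1 : (L x * R z) • ((UH x z : H Q) : G Q) • y = (x * y) * z := by
    change (L x * R z) • (MM x z)⁻¹ • y = (x * y) * z
    rw [← mul_smul, MM]
    have : L x * R z * ((L x)⁻¹ * (R z)⁻¹ * L x * R z)⁻¹ = R z * L x := by group
    rw [this, mul_smul, sR, sL]
  have g2 : (L x * R z) • y = x * (y * z) := by rw [mul_smul, sL, sR]
  have eR := LG' h (RH y z) (R (y * z)) x m (by rw [f1, sR]; exact hm) (fun k => TFR h k y z x)
  have eU := LG' h (UH x z) (L x * R z) y m (by rw [g1, g2]; exact hm) (fun k => TFU h k x z y)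
  exact ⟨eR.symm.trans eL, eU.symm.trans eL⟩

/-- `B` with first argument an element -/
def Bq (u x y z : Q) : V Q := Bh (TH u) x y z

theorem Bq_L (u x y z : Q) : Bq u x y z = Fh (LH x y) u z := S1 (hN_one _) (hN_one _) _
theorem Bq_R (u x y z : Q) : Bq u x y z = Fh (RH y z) u x := by
  rw [Bq, ← (B_all (TH u) x y z).1]; exact S1 (hN_one _) (hN_one _) _
theorem Bq_U (u x y z : Q) : Bq u x y z = Fh (UH x z) u y := by
  rw [Bq, ← (B_all (TH u) x y z).2]; exact S1 (hN_one _) (hN_one _) _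

theorem Bq3 (u x y z : Q) : Bq u x y z = - Bq z x y u := by rw [Bq_L, FA, Bq_L]
theorem Bq1 (u x y z : Q) : Bq u x y z = - Bq x u y z := by rw [Bq_R, FA, Bq_R]
theorem Bq2 (u x y z : Q) : Bq u x y z = - Bq y x u z := by rw [Bq_U, FA, Bq_U]
theorem Bq12 (u x y z : Q) : Bq u x y z = - Bq u y x z := by
  rw [Bq1 u x y z, Bq2 x u y z, Bq1 y u x z]; abel
theorem Bq23 (u x y z : Q) : Bq u x y z = - Bq u x z y := by
  rw [Bq2 u x y z, Bq3 y x u z, Bq2 z x u y]; abel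

/-- `F` on elements -/
def Fq (w x y : Q) : V Q := Fh (TH w) x y

theorem Fq_s (w x y : Q) : Fq w x y = Fq x w y := S1 (hN_one _) (hN_one _) _
theorem Fq_a (w x y : Q) : Fq w x y = - Fq w y x := FA _ _ _

theorem Fq_two (w x y : Q) : (2 : ℤ) • Fq w x y = 0 := by
  have h : Fq w x y = - Fq w x y := by
    conv_lhs => rw [Fq_a w x y, Fq_s w y x, Fq_a y w x, Fq_s y x w, Fq_a x y w, Fq_s x w y]
    simp only [neg_neg]
  linear_combination (norm := module) h

theorem Fh_mul (a b : H Q) (x y : Q) : Fh (a * b) x y = Fh a x y + Fh b x y + TF a b (TH x) y := by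
  rw [Fh, hN_mul, del_mul_fix (hN_one a) (hN_one b), ← T3, T3_TF, sR1]; rfl

theorem Fh_one (x y : Q) : Fh 1 x y = 0 := by
  have := Fh_mul 1 1 x y
  have h2 : TF 1 1 (TH x) y = 0 := (dat Q).one1 _ _ _
  rw [mul_one, h2, add_zero] at this
  exact left_eq_add.1 this

theorem Fh_inv (a : H Q) (x y : Q) (h : TF a a (TH x) y = 0) : Fh a⁻¹ x y = - Fh a x y := by
  have := Fh_mul a a⁻¹ x y
  have h2 : TF a a⁻¹ (TH x) y = - TF a a (TH x) y := (dat Q).inv2 _ _ _ _
  rw [mul_inv_cancel, Fh_one, h2, h, neg_zero, add_zero] at this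
  exact (neg_eq_of_add_eq_zero_right this.symm).symm

/-- the form `G` -/
def Gq (w w' x y : Q) : V Q := TF (TH w) (TH w') (TH x) y

theorem Fq_mul (w w' x y : Q) : Fq (w * w') x y =
    Fq w x y + Fq w' x y + Gq w w' x y + (3 : ℤ) • Bq x y w w' := by
  have hR : ∀ a : H Q, TF (RH w w') a (TH x) y = 0 := fun a => by rw [TF_s13, TFR]
  have hU : ∀ a : H Q, TF a (UH w w') (TH x) y = 0 := fun a => by rw [TF_s23, TFU]
  have hL : ∀ a : H Q, TF a (LH w w') (TH x) y = 0 := fun a => by rw [TF_s23, TFL]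
  have hUi : ∀ a : H Q, TF a (UH w w')⁻¹ (TH x) y = 0 := fun a => by
    have : TF a (UH w w')⁻¹ (TH x) y = - TF a (UH w w') (TH x) y := (dat Q).inv2 _ _ _ _
    rw [this, hU, neg_zero]
  have hUi' : ∀ a : H Q, TF (UH w w')⁻¹ a (TH x) y = 0 := fun a => by rw [TF_s12, hUi]
  rw [Fq, TH_mul, Fh_mul, Fh_mul, Fh_mul, Fh_mul, Fh_inv _ _ _ (hU _), hL, hUi]
  rw [TF_add, TF_add, hR, hR, hUi']
  have b1 : Fh (RH w w') x y = Bq x y w w' := by
    rw [Bq, ← (B_all (TH x) y w w').1]; exact S1 (hN_one _) (hN_one _) _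
  have b2 : Fh (UH w w') x y = Bq x w y w' := by
    rw [Bq, ← (B_all (TH x) w y w').2]; exact S1 (hN_one _) (hN_one _) _
  have b3 : Fh (LH w w') x y = Bq x w w' y := S1 (hN_one _) (hN_one _) _
  have c2 : Bq x w y w' = - Bq x y w w' := Bq12 x w y w'
  have c3 : Bq x w w' y = Bq x y w w' := by rw [Bq23 x w w' y, c2, neg_neg]
  rw [b1, b2, b3, c2, c3]
  change Bq x y w w' + Fq w x y + _ + _ + _ + Fq w' x y + (_ + Gq w w' x y + _) + _ + _ = _
  module

/-- `cj` by a product with an element of `C` -/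
theorem cj_shift_one (h : NN Q) (m : CC Q) (z : Q) : ∃ ζ : V Q, isZ ζ ∧
    cj (R (m.1 * z)) h • (1 : CC Q) = ι (ζ + del (cj (R z) h) m) * (cj (R z) h • (1 : CC Q)) := by
  set Y := cj (R z) h with hY
  have e1 : cj (R z * R m.1) h = (RC m)⁻¹ * Y * RC m := by
    apply Subtype.ext
    simp only [Subgroup.coe_mul, cj_coe, Subgroup.coe_inv, hY]
    change (R z * R m.1)⁻¹ * (h : G Q) * (R z * R m.1) = (R m.1)⁻¹ * ((R z)⁻¹ * h * R z) * R m.1
    group
  have e2 : cj (R z * R m.1) h • (1 : CC Q) = (Y • m) * m⁻¹ := by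
    rw [e1, mul_smul, mul_smul, RC_one, inv_smul_eq_iff, RC_smul]; group
  have e3 : cj (R z * R m.1) h • (1 : CC Q) = ι (cc m (Y • (1 : CC Q)) + del Y m) * (Y • (1 : CC Q)) := by
    rw [e2, smul_eq Y m]
    have := cc_eq m (Y • (1 : CC Q))
    calc ι (del Y m) * m * Y • (1 : CC Q) * m⁻¹ = ι (del Y m) * (m * Y • (1 : CC Q)) * m⁻¹ := by group
      _ = ι (del Y m) * ι (cc m (Y • (1 : CC Q))) * Y • (1 : CC Q) := by rw [this]; group
      _ = _ := by rw [← ι_add, add_comm]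
  rw [cj_R_smul_one, e3, fix_smul (RN_one _ _)]
  set x := ι (cc m (Y • (1 : CC Q)) + del Y m) * (Y • (1 : CC Q))
  refine ⟨del (RN m.1 z) x + cc m (Y • (1 : CC Q)), isZ_add ?_ (cc_isZ _ _), ?_⟩
  · exact (RN_Nice m z).isZ x
  · rw [add_assoc, ι_add (del (RN m.1 z) x), mul_assoc]

theorem Fh_comm2 (h : H Q) (y w w' : Q) :
    Fh h y (w' * w) = Fh h y (w * w') + TF h (TH w') (TH y) w := by
  rw [Fh, cm_eq w' w]
  obtain ⟨ζ, hζ, e⟩ := cj_shift_one (hN (TH y)) (cm w' w) (w * w')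
  obtain ⟨v, hv⟩ := cm_ι w' w
  have e2 : T3 (hN h) (cj (R (w * w')) (hN (TH y))) (cm w' w) = TF h (TH w') (TH y) w := by
    rw [hv, T3_ι_mul, TXF, TF_hom, sR1, sR1]; abel
  rw [e, del_ι_mul, ← dV_def, map_add, dV_isZ hζ, ← T3_def, e2]
  change Fh h y (w * w') + _ = _
  abel

theorem Gq_s (a b c d : Q) : Gq a b c d = Gq b a c d := TF_s12 _ _ _ _
theorem Gq_s' (a b c d : Q) : Gq a b c d = Gq a c b d := TF_s23 _ _ _ _
theorem Gq_a (a b c d : Q) : Gq a b c d = - Gq a b d c := TF_gneg _ _ _ _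
theorem Gq_two (a b c d : Q) : (2 : ℤ) • Gq a b c d = 0 := (dat Q).two_TTT (TH a) b c d

theorem Fq_comm (w w' x y : Q) : Fq (w' * w) x y = Fq (w * w') x y + Gq w w' x y := by
  have h := Fh_comm2 (TH x) y w w'
  have h1 : Fq (w' * w) x y = - Fh (TH x) y (w' * w) := by
    rw [Fq_s, Fq_a]; rfl
  have h2 : Fq (w * w') x y = - Fh (TH x) y (w * w') := by
    rw [Fq_s, Fq_a]; rfl
  have h3 : TF (TH x) (TH w') (TH y) w = - Gq w w' x y := by
    change Gq x w' y w = _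
    rw [Gq_a x w' y w, Gq_s x w' w y, Gq_s' w' x w y, Gq_s w' w x y]
  rw [h1, h2, h, h3]; abel

theorem Gq_zero (w w' x y : Q) : Gq w w' x y = 0 := by
  have h1 := Fq_comm w w' x y
  have h2 := Fq_mul w w' x y
  have h3 := Fq_mul w' w x y
  have h4 : Bq x y w' w = - Bq x y w w' := Bq23 x y w' w
  have h5 : Gq w' w x y = Gq w w' x y := Gq_s _ _ _ _
  rw [h4, h5] at h3
  have h6 := Gq_two w w' x y
  have h7 := Fq_two (w * w') x y
  have h8 := Fq_two w x y
  have h9 := Fq_two w' x y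
  rw [h2] at h7
  rw [h3, h2] at h1
  linear_combination (norm := module) -h1 + h6 - h7 + h8 + h9

theorem TF_zero (a b c : H Q) (q : Q) : TF a b c q = 0 := by
  have hT : ∀ (u v w : Q) (q : Q), TF (TH u) (TH v) (TH w) q = 0 := fun u v w q => Gq_zero u v w q
  have step1 : ∀ (a : H Q) (v w q : Q), TF a (TH v) (TH w) q = 0 := by
    intro a v w q
    refine HH_gen (fun a => TF a (TH v) (TH w) q = 0) ?_ ?_ ?_ ?_ ?_ ?_ a
    · intro u; exact hT _ _ _ _
    · intro x y; rw [TF_s13, TFL]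
    · intro x y; rw [TF_s13, TFR]
    · exact (dat Q).one1 _ _ _
    · intro a b h h'; rw [TF_add, h, h', add_zero]
    · intro a h
      have := (dat Q).inv1 a (TH v) (TH w) q
      change TF a⁻¹ (TH v) (TH w) q = - TF a (TH v) (TH w) q at this
      rw [this, h, neg_zero]
  have step2 : ∀ (a b : H Q) (w q : Q), TF a b (TH w) q = 0 := by
    intro a b w q
    refine HH_gen (fun b => TF a b (TH w) q = 0) ?_ ?_ ?_ ?_ ?_ ?_ b
    · intro u; exact step1 _ _ _ _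
    · intro x y; rw [TF_s23, TFL]
    · intro x y; rw [TF_s23, TFR]
    · exact (dat Q).one2 _ _ _
    · intro b b' h h'; rw [TF_s12, TF_add, TF_s12 b, TF_s12 b', h, h', add_zero]
    · intro b h
      have := (dat Q).inv2 a b (TH w) q
      change TF a b⁻¹ (TH w) q = - TF a b (TH w) q at this
      rw [this, h, neg_zero]
  refine HH_gen (fun c => TF a b c q = 0) ?_ ?_ ?_ ?_ ?_ ?_ c
  · intro u; exact step2 _ _ _ _
  · intro x y; exact TFL _ _ _ _ _
  · intro x y; exact TFR _ _ _ _ _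
  · exact (dat Q).one3 _ _ _
  · intro b b' h h'; rw [TF_mul3, h, h', add_zero]
  · intro b h; rw [TF_inv3, h, neg_zero]

end Pool.Agent.R675.AIM
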