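import Pool.Agent.R675.AIM.Found

set_option autoImplicit false

namespace Pool.Agent.R675.AIM

open Loop

variable {Q : Type} [Loop Q]

/-- the inner mapping group -/
def H (Q : Type) [Loop Q] : Subgroup (G Q) := MulAction.stabilizer (G Q) (1 : Q)

theorem mem_H {g : G Q} : g ∈ H Q ↔ g • (1 : Q) = 1 := MulAction.mem_stabilizer_iff

/-- elements commuting with `Nu K` modulo `K` -/
def Cz (K : Subgroup (G Q)) [hK : K.Normal] : Subgroup (G Q) where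
  carrier := {g | ∀ k ∈ Nu K, ∃ u ∈ K, g * k = u * (k * g)}
  one_mem' := fun k _ => ⟨1, one_mem _, by group⟩
  mul_mem' := by
    intro g g' hg hg' k hk
    obtain ⟨u', hu', e'⟩ := hg' k hk
    obtain ⟨u, hu, e⟩ := hg (u' * k) (mul_mem (le_Nu K hu') hk)
    refine ⟨u * u', mul_mem hu hu', ?_⟩
    calc g * g' * k = g * (g' * k) := by group
      _ = (g * (u' * k)) * g' := by rw [e']; group
      _ = u * (u' * k * g) * g' := by rw [e]
      _ = _ := by group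
  inv_mem' := by
    intro g hg k hk
    have hk' : g⁻¹ * k * g ∈ Nu K := by
      have := (inferInstance : (Nu K).Normal).conj_mem _ hk g⁻¹
      simpa using this
    obtain ⟨u, hu, e⟩ := hg _ hk'
    refine ⟨u⁻¹, inv_mem hu, ?_⟩
    have e2 : k * g = u * (g⁻¹ * k * g * g) := by
      rw [← e]; group
    have e3 : k = u * (g⁻¹ * k * g) := by
      have := congrArg (fun t => t * g⁻¹) e2
      simpa [mul_assoc] using this
    calc g⁻¹ * k = (g⁻¹ * k * g) * g⁻¹ := by group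
      _ = (u⁻¹ * k) * g⁻¹ := by
        congr 1
        rw [eq_inv_mul_iff_mul_eq, ← e3]
      _ = _ := by group

theorem mem_Cz {K : Subgroup (G Q)} [hK : K.Normal] {g : G Q} :
    g ∈ Cz K ↔ ∀ k ∈ Nu K, ∃ u ∈ K, g * k = u * (k * g) := Iff.rfl

instance (K : Subgroup (G Q)) [hK : K.Normal] : (Cz K).Normal := by
  constructor
  intro g hg p k hk
  have hk' : p⁻¹ * k * p ∈ Nu K := by
    have := (inferInstance : (Nu K).Normal).conj_mem _ hk p⁻¹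
    simpa using this
  obtain ⟨u, hu, e⟩ := hg _ hk'
  refine ⟨p * u * p⁻¹, hK.conj_mem _ hu p, ?_⟩
  calc p * g * p⁻¹ * k = p * (g * (p⁻¹ * k * p)) * p⁻¹ := by group
    _ = _ := by rw [e]; group

abbrev N1 (Q : Type) [Loop Q] : Subgroup (G Q) := Nu ⊥
abbrev N2 (Q : Type) [Loop Q] : Subgroup (G Q) := Nu (N1 Q)
abbrev N3 (Q : Type) [Loop Q] : Subgroup (G Q) := Nu (N2 Q)

/-- the subgroup `N` -/
def NN (Q : Type) [Loop Q] : Subgroup (G Q) := N3 Q ⊓ (Cz ⊥ ⊓ (Cz (N1 Q) ⊓ Cz (N2 Q)))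

instance : (NN Q).Normal := by
  unfold NN; infer_instance

/-- the standing assumption: inner maps commute and class at most four -/
class Ab4 (Q : Type) [Loop Q] : Prop where
  ab : ∀ a ∈ H Q, ∀ b ∈ H Q, a * b = b * a
  h3 : H Q ≤ N3 Q

variable [Ab4 Q]

theorem H_le_Cz (K : Subgroup (G Q)) [hK : K.Normal] : H Q ≤ Cz K := by
  intro h hh k hk
  obtain ⟨c, hc, e⟩ := hk 1
  have hk' : c⁻¹ * k ∈ H Q := by
    rw [mem_H, mul_smul, e, inv_smul_smul]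
  obtain ⟨u, hu, e2⟩ := mem_Zt' hc h
  refine ⟨u, hu, ?_⟩
  have e3 := Ab4.ab _ hh _ hk'
  calc h * k = (h * c) * (c⁻¹ * k) := by group
    _ = u * (c * h) * (c⁻¹ * k) := by rw [e2]
    _ = u * c * (h * (c⁻¹ * k)) := by group
    _ = u * c * (c⁻¹ * k * h) := by rw [e3]
    _ = _ := by group

theorem H_le_NN : H Q ≤ NN Q :=
  le_inf Ab4.h3 (le_inf (H_le_Cz _) (le_inf (H_le_Cz _) (H_le_Cz _)))

omit [Ab4 Q] in
theorem n1 {y k : G Q} (hy : y ∈ NN Q) (hk : k ∈ N1 Q) : y * k = k * y := by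
  obtain ⟨u, hu, e⟩ := (mem_Cz.1 hy.2.1) k hk
  rw [Subgroup.mem_bot] at hu
  rw [e, hu, one_mul]

omit [Ab4 Q] in
theorem n2 {y k : G Q} (hy : y ∈ NN Q) (hk : k ∈ N2 Q) : ∃ u ∈ N1 Q, y * k = u * (k * y) :=
  (mem_Cz.1 hy.2.2.1) k hk

omit [Ab4 Q] in
theorem n3 {y k : G Q} (hy : y ∈ NN Q) (hk : k ∈ N3 Q) : ∃ u ∈ N2 Q, y * k = u * (k * y) :=
  (mem_Cz.1 hy.2.2.2) k hk

omit [Ab4 Q] in
theorem NN_le_N3 : NN Q ≤ N3 Q := inf_le_left

omit [Ab4 Q] in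
theorem Zbot_le_NN : Zt (⊥ : Subgroup (G Q)) ≤ NN Q := by
  intro c hc
  have hc' : ∀ p : G Q, c * p = p * c := by
    intro p
    obtain ⟨u, hu, e⟩ := mem_Zt.1 hc p
    rw [Subgroup.mem_bot] at hu
    rw [e, hu, one_mul]
  refine ⟨le_Nu _ (le_Nu _ (Zt_le_Nu _ hc)), ?_, ?_, ?_⟩
  · intro k _; exact ⟨1, one_mem _, by rw [hc', one_mul]⟩
  · intro k _; exact ⟨1, one_mem _, by rw [hc', one_mul]⟩
  · intro k _; exact ⟨1, one_mem _, by rw [hc', one_mul]⟩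

/-! inner maps -/
def LL (x y : Q) : G Q := (L (x * y))⁻¹ * L x * L y
def RR (x y : Q) : G Q := (R (x * y))⁻¹ * R y * R x
def TT (x : Q) : G Q := (R x)⁻¹ * L x
def MM (x y : Q) : G Q := (L x)⁻¹ * (R y)⁻¹ * L x * R y

omit [Ab4 Q] in
theorem LL_mem (x y : Q) : LL x y ∈ H Q := by
  rw [mem_H, LL, mul_smul, mul_smul, sL1, sL]
  exact L_inv_smul (mul_one' _).symm
omit [Ab4 Q] in
theorem RR_mem (x y : Q) : RR x y ∈ H Q := by
  rw [mem_H, RR, mul_smul, mul_smul, sR1, sR]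
  exact R_inv_smul (one_mul' _).symm
omit [Ab4 Q] in
theorem TT_mem (x : Q) : TT x ∈ H Q := by
  rw [mem_H, TT, mul_smul, sL1]
  exact R_inv_smul (one_mul' _).symm
omit [Ab4 Q] in
theorem MM_mem (x y : Q) : MM x y ∈ H Q := by
  rw [mem_H, MM, mul_smul, mul_smul, mul_smul, sR1, sL]
  rw [R_inv_smul (rfl : x * y = x * y)]
  exact L_inv_smul (mul_one' _).symm

omit [Ab4 Q] in
theorem RinvH (g : G Q) : (R (g • (1 : Q)))⁻¹ * g ∈ H Q := by
  rw [mem_H, mul_smul]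
  exact R_inv_smul (one_mul' _).symm

omit [Ab4 Q] in
theorem L_smul_Zt {K : Subgroup (G Q)} [hK : K.Normal] [hp : PC K] {c : G Q} (hc : c ∈ Zt K) (x : Q) :
    L (c • x) * (c * L x)⁻¹ ∈ K := by
  apply hp.pc
  intro q
  obtain ⟨r, rfl⟩ : ∃ r, q = (c * L x) • r := ⟨(c * L x)⁻¹ • q, by rw [smul_inv_smul]⟩
  obtain ⟨u, hu, e⟩ := mem_Zt' hc (R r)
  refine ⟨u, hu, ?_⟩
  have h := congrArg (fun g : G Q => g • x) e
  simp only [mul_smul, sR] at h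
  rw [mul_smul, inv_smul_smul, sL, h, mul_smul, sL]

omit [Ab4 Q] in
theorem R_smul_Zt {K : Subgroup (G Q)} [hK : K.Normal] [hp : PC K] {c : G Q} (hc : c ∈ Zt K) (x : Q) :
    R (c • x) * (c * R x)⁻¹ ∈ K := by
  apply hp.pc
  intro q
  obtain ⟨r, rfl⟩ : ∃ r, q = (c * R x) • r := ⟨(c * R x)⁻¹ • q, by rw [smul_inv_smul]⟩
  obtain ⟨u, hu, e⟩ := mem_Zt' hc (L r)
  refine ⟨u, hu, ?_⟩
  have h := congrArg (fun g : G Q => g • x) e
  simp only [mul_smul, sL] at h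
  rw [mul_smul, inv_smul_smul, sR, h, mul_smul, sR]

section quot
variable {K : Subgroup (G Q)} [hK : K.Normal] [hp : PC K] {a : Q}

omit [Ab4 Q] hp in
theorem q_mem {g : G Q} : g ∈ K ↔ (g : G Q ⧸ K) = 1 := (QuotientGroup.eq_one_iff g).symm

omit [Ab4 Q] hp in
theorem q_eq {g h : G Q} (e : g * h⁻¹ ∈ K) : (g : G Q ⧸ K) = (h : G Q ⧸ K) := by
  rw [q_mem, QuotientGroup.mk_mul, QuotientGroup.mk_inv, mul_inv_eq_one] at e
  exact e

omit [Ab4 Q] hp in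
theorem q_comm {c : G Q} (hc : c ∈ Zt K) (p : G Q) :
    (c : G Q ⧸ K) * (p : G Q ⧸ K) = (p : G Q ⧸ K) * (c : G Q ⧸ K) := by
  obtain ⟨u, hu, e⟩ := mem_Zt.1 hc p
  have := congrArg (fun g : G Q => (g : G Q ⧸ K)) e
  simp only [QuotientGroup.mk_mul] at this
  rw [this, (q_mem.1 hu), one_mul]

omit [Ab4 Q] in
theorem qL (ha : R a ∈ Zt K) : ((L a : G Q) : G Q ⧸ K) = ((R a : G Q) : G Q ⧸ K) := q_eq (LR_mem ha)

omit [Ab4 Q] in
theorem qLxa (ha : R a ∈ Zt K) (x : Q) : ((L (x * a) : G Q) : G Q ⧸ K) = (R a : G Q) * (L x : G Q) := by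
  have := q_eq (L_smul_Zt ha x)
  rwa [sR, QuotientGroup.mk_mul] at this
omit [Ab4 Q] in
theorem qRxa (ha : R a ∈ Zt K) (x : Q) : ((R (x * a) : G Q) : G Q ⧸ K) = (R a : G Q) * (R x : G Q) := by
  have := q_eq (R_smul_Zt ha x)
  rwa [sR, QuotientGroup.mk_mul] at this
omit [Ab4 Q] in
theorem qLax (ha : R a ∈ Zt K) (x : Q) : ((L (a * x) : G Q) : G Q ⧸ K) = (R a : G Q) * (L x : G Q) := by
  have := q_eq (L_smul_Zt (L_mem_Zt' ha) x)
  rwa [sL, QuotientGroup.mk_mul, qL ha] at this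
omit [Ab4 Q] in
theorem qRax (ha : R a ∈ Zt K) (x : Q) : ((R (a * x) : G Q) : G Q ⧸ K) = (R a : G Q) * (R x : G Q) := by
  have := q_eq (R_smul_Zt (L_mem_Zt' ha) x)
  rwa [sL, QuotientGroup.mk_mul, qL ha] at this

omit [Ab4 Q] in
theorem LLxa (ha : R a ∈ Zt K) (x : Q) : LL x a ∈ K := by
  rw [q_mem, LL]
  simp only [QuotientGroup.mk_mul, QuotientGroup.mk_inv]
  rw [qLxa ha, qL ha, q_comm ha]; group
omit [Ab4 Q] in
theorem LLax (ha : R a ∈ Zt K) (x : Q) : LL a x ∈ K := by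
  rw [q_mem, LL]
  simp only [QuotientGroup.mk_mul, QuotientGroup.mk_inv]
  rw [qLax ha, qL ha]; group
omit [Ab4 Q] in
theorem RRxa (ha : R a ∈ Zt K) (x : Q) : RR x a ∈ K := by
  rw [q_mem, RR]
  simp only [QuotientGroup.mk_mul, QuotientGroup.mk_inv]
  rw [qRxa ha]; group
omit [Ab4 Q] in
theorem RRax (ha : R a ∈ Zt K) (x : Q) : RR a x ∈ K := by
  rw [q_mem, RR]
  simp only [QuotientGroup.mk_mul, QuotientGroup.mk_inv]
  rw [qRax ha, q_comm ha]; group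
omit [Ab4 Q] in
theorem TTa (ha : R a ∈ Zt K) : TT a ∈ K := by
  rw [q_mem, TT]
  simp only [QuotientGroup.mk_mul, QuotientGroup.mk_inv]
  rw [qL ha]; group
omit [Ab4 Q] hp in
theorem MMxa (ha : R a ∈ Zt K) (x : Q) : MM x a ∈ K := by
  rw [q_mem, MM]
  simp only [QuotientGroup.mk_mul, QuotientGroup.mk_inv]
  rw [mul_assoc _ (_ : G Q ⧸ K) ((R a : G Q) : G Q ⧸ K), ← q_comm ha]; group
omit [Ab4 Q] in
theorem MMax (ha : R a ∈ Zt K) (x : Q) : MM a x ∈ K := by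
  rw [q_mem, MM]
  simp only [QuotientGroup.mk_mul, QuotientGroup.mk_inv]
  rw [qL ha, mul_assoc _ (_ : G Q ⧸ K) ((R x : G Q) : G Q ⧸ K), q_comm ha]; group

end quot

end Pool.Agent.R675.AIM
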