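import Pool.Agent.R675.AIM.Core

set_option autoImplicit false

namespace Pool.Agent.R675.AIM

open Loop

section
variable (Q : Type) [Loop Q]

/-- the upper chain -/
def NIc : ℕ → {K : Subgroup (G Q) // K.Normal}
  | 0 => ⟨⊥, inferInstance⟩
  | (k + 1) => haveI := (NIc k).2; ⟨Nu (NIc k).1, inferInstance⟩

def NI (k : ℕ) : Subgroup (G Q) := (NIc Q k).1

instance (k : ℕ) : (NI Q k).Normal := (NIc Q k).2

theorem NI_zero : NI Q 0 = ⊥ := rfl
theorem NI_succ (k : ℕ) : NI Q (k + 1) = Nu (NI Q k) := rfl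

instance (k : ℕ) : PC (NI Q k) := by
  cases k with
  | zero => exact (inferInstance : PC (⊥ : Subgroup (G Q)))
  | succ k => exact (inferInstance : PC (Nu (NI Q k)))

theorem NI_mono (k : ℕ) : NI Q k ≤ NI Q (k + 1) := le_Nu _
theorem NI_mono3 (k : ℕ) : NI Q k ≤ NI Q (k + 3) :=
  (NI_mono Q k).trans ((NI_mono Q (k + 1)).trans (NI_mono Q (k + 2)))
theorem bot_le_ZtNI (k : ℕ) : Zt (⊥ : Subgroup (G Q)) ≤ Zt (NI Q k) := by
  intro c hc
  rw [mem_Zt] at hc ⊢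
  intro p
  obtain ⟨u, hu, e⟩ := hc p
  rw [Subgroup.mem_bot] at hu
  exact ⟨1, one_mem _, by rw [e, hu]⟩

/-- the relation of being in the same coset of the centre -/
def cst : Setoid Q where
  r a b := ∃ z : Q, R z ∈ Zt (⊥ : Subgroup (G Q)) ∧ b = z * a
  iseqv := by
    refine ⟨?_, ?_, ?_⟩
    · intro a
      refine ⟨1, ?_, (one_mul' a).symm⟩
      have := R_mem_Zt (one_mem (Zt (⊥ : Subgroup (G Q))))
      rwa [one_smul] at this
    · rintro a b ⟨z, hz, e⟩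
      refine ⟨(L z)⁻¹ • (1 : Q), R_mem_Zt (inv_mem (L_mem_Zt' hz)), ?_⟩
      have h1 : R ((L z)⁻¹ • (1 : Q)) ∈ Zt (⊥ : Subgroup (G Q)) := R_mem_Zt (inv_mem (L_mem_Zt' hz))
      rw [e, cen_mul_assoc' hz, cen_mul_assoc hz, ← sL z (_ • _), smul_inv_smul, one_mul']
    · rintro a b c ⟨z, hz, e⟩ ⟨w, hw, e'⟩
      refine ⟨w * z, ?_, ?_⟩
      · have := R_mem_Zt (mul_mem (L_mem_Zt' hw) hz)
        rwa [mul_smul, sR1, sL] at this
      · rw [e', e, cen_mul_assoc hw]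

/-- the quotient by the centre -/
def QZ : Type := Quotient (cst Q)

end

variable {Q : Type} [Loop Q]

def mq (q : Q) : QZ Q := Quotient.mk (cst Q) q

theorem mq_eq {a b : Q} : mq a = mq b ↔ ∃ z : Q, R z ∈ Zt (⊥ : Subgroup (G Q)) ∧ b = z * a :=
  ⟨fun h => Quotient.exact h, fun h => Quotient.sound (s := cst Q) h⟩

theorem mq_smul {a b : Q} (h : mq a = mq b) (g : G Q) : mq (g • a) = mq (g • b) := by
  rw [mq_eq] at h ⊢
  obtain ⟨z, hz, e⟩ := h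
  exact ⟨z, hz, by rw [e, cen_smul hz]⟩

theorem mq_mul {a b c d : Q} (h : mq a = mq b) (h' : mq c = mq d) : mq (a * c) = mq (b * d) := by
  have h1 := mq_smul h' (L a)
  have h2 := mq_smul h (R d)
  rw [sL, sL] at h1
  rw [sR, sR] at h2
  rw [h1, h2]

theorem mq_ld {a b c d : Q} (h : mq a = mq b) (h' : mq c = mq d) : mq (ld a c) = mq (ld b d) := by
  have h1 : mq (a * ld a c) = mq (b * ld a c) := mq_mul h rfl
  rw [mul_ld, h'] at h1
  have h2 := mq_smul h1 (L b)⁻¹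
  have e1 : (L b)⁻¹ • (b * ld a c) = ld a c := L_inv_smul rfl
  have e2 : (L b)⁻¹ • d = ld b d := L_inv_smul (mul_ld b d).symm
  rw [e1, e2] at h2
  exact h2.symm

theorem mq_rd {a b c d : Q} (h : mq a = mq b) (h' : mq c = mq d) : mq (rd c a) = mq (rd d b) := by
  have h1 : mq (rd c a * a) = mq (rd c a * b) := mq_mul rfl h
  rw [rd_mul, h'] at h1
  have h2 := mq_smul h1 (R b)⁻¹
  have e1 : (R b)⁻¹ • (rd c a * b) = rd c a := R_inv_smul rfl
  have e2 : (R b)⁻¹ • d = rd d b := R_inv_smul (rd_mul b d).symm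
  rw [e1, e2] at h2
  exact h2.symm

instance : Loop (QZ Q) where
  mul := Quotient.map₂ (· * ·) (fun a b h c d h' =>
    Quotient.exact (mq_mul (Quotient.sound (s := cst Q) h) (Quotient.sound (s := cst Q) h')))
  one := mq 1
  ld := Quotient.map₂ ld (fun a b h c d h' =>
    Quotient.exact (mq_ld (Quotient.sound (s := cst Q) h) (Quotient.sound (s := cst Q) h')))
  rd := Quotient.map₂ rd (fun a b h c d h' =>
    Quotient.exact (mq_rd (Quotient.sound (s := cst Q) h') (Quotient.sound (s := cst Q) h)))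
  one_mul' := by rintro ⟨x⟩; exact congrArg mq (one_mul' x)
  mul_one' := by rintro ⟨x⟩; exact congrArg mq (mul_one' x)
  mul_ld := by rintro ⟨x⟩ ⟨y⟩; exact congrArg mq (mul_ld x y)
  ld_mul := by rintro ⟨x⟩ ⟨y⟩; exact congrArg mq (ld_mul x y)
  rd_mul := by rintro ⟨x⟩ ⟨y⟩; exact congrArg mq (rd_mul x y)
  mul_rd := by rintro ⟨x⟩ ⟨y⟩; exact congrArg mq (mul_rd x y)

theorem mq_mul_def (a b : Q) : mq (a * b) = mq a * mq b := rfl
theorem mq_one_def : mq (1 : Q) = 1 := rfl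
theorem mq_surj (a : QZ Q) : ∃ q : Q, mq q = a := Quotient.exists_rep a

/-- compatible pairs -/
def Rel (g : G Q) (g' : G (QZ Q)) : Prop := ∀ q : Q, g' • mq q = mq (g • q)

theorem Rel.mul {g h : G Q} {g' h' : G (QZ Q)} (r : Rel g g') (s : Rel h h') : Rel (g * h) (g' * h') := by
  intro q; rw [mul_smul, mul_smul, s, r]
theorem Rel.inv {g : G Q} {g' : G (QZ Q)} (r : Rel g g') : Rel g⁻¹ g'⁻¹ := by
  intro q; rw [inv_smul_eq_iff, r, smul_inv_smul]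
theorem Rel.one : Rel (1 : G Q) 1 := by intro q; rw [one_smul, one_smul]
theorem Rel_R (x : Q) : Rel (R x) (R (mq x)) := fun _ => rfl
theorem Rel_L (x : Q) : Rel (L x) (L (mq x)) := fun _ => rfl

theorem Rel_ex (g : G Q) : ∃ g' : G (QZ Q), Rel g g' := by
  refine G_ind (fun g => ∃ g', Rel g g') ?_ ?_ ?_ ?_ ?_ g
  · intro x; exact ⟨_, Rel_R x⟩
  · intro x; exact ⟨_, Rel_L x⟩
  · exact ⟨_, Rel.one⟩
  · rintro a b ⟨a', ha⟩ ⟨b', hb⟩; exact ⟨_, ha.mul hb⟩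
  · rintro a ⟨a', ha⟩; exact ⟨_, ha.inv⟩

theorem Rel_ex' (g' : G (QZ Q)) : ∃ g : G Q, Rel g g' := by
  refine G_ind (fun g' => ∃ g : G Q, Rel g g') ?_ ?_ ?_ ?_ ?_ g'
  · intro x; obtain ⟨q, rfl⟩ := mq_surj x; exact ⟨_, Rel_R q⟩
  · intro x; obtain ⟨q, rfl⟩ := mq_surj x; exact ⟨_, Rel_L q⟩
  · exact ⟨_, Rel.one⟩
  · rintro a b ⟨a', ha⟩ ⟨b', hb⟩; exact ⟨_, ha.mul hb⟩
  · rintro a ⟨a', ha⟩; exact ⟨_, ha.inv⟩

theorem Rel_zero {g : G Q} {g' : G (QZ Q)} (r : Rel g g') : g' ∈ NI (QZ Q) 0 ↔ g ∈ NI Q 1 := by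
  rw [NI_zero, NI_succ, Subgroup.mem_bot]
  constructor
  · intro h
    apply Nu_of
    intro q
    have := r q
    rw [h, one_smul] at this
    obtain ⟨z, hz, e⟩ := mq_eq.1 this
    exact ⟨z, hz, e⟩
  · intro h
    apply G_ext
    intro a
    obtain ⟨q, rfl⟩ := mq_surj a
    obtain ⟨z, hz, e⟩ := Nu_exists h q
    rw [one_smul, r q]
    exact (mq_eq.2 ⟨z, hz, e⟩).symm

theorem Zt_iff {K : Subgroup (G Q)} [hK : K.Normal] {g : G Q} :
    g ∈ Zt K ↔ ∀ p : G Q, g * p * (p * g)⁻¹ ∈ K := by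
  rw [mem_Zt]
  constructor
  · intro h p
    obtain ⟨u, hu, e⟩ := h p
    rw [e]
    have : u * (p * g) * (p * g)⁻¹ = u := by group
    rwa [this]
  · intro h p
    exact ⟨_, h p, by group⟩

theorem Rel_Zt {K : Subgroup (G Q)} [hK : K.Normal] {K' : Subgroup (G (QZ Q))} [hK' : K'.Normal]
    (hh : ∀ (g : G Q) (g' : G (QZ Q)), Rel g g' → (g' ∈ K' ↔ g ∈ K)) {g : G Q} {g' : G (QZ Q)}
    (r : Rel g g') : g' ∈ Zt K' ↔ g ∈ Zt K := by
  rw [Zt_iff, Zt_iff]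
  constructor
  · intro h p
    obtain ⟨p', hp⟩ := Rel_ex p
    exact (hh _ _ ((r.mul hp).mul (hp.mul r).inv)).1 (h p')
  · intro h p'
    obtain ⟨p, hp⟩ := Rel_ex' p'
    exact (hh _ _ ((r.mul hp).mul (hp.mul r).inv)).2 (h p)

theorem Rel_NI (j : ℕ) : ∀ (g : G Q) (g' : G (QZ Q)), Rel g g' → (g' ∈ NI (QZ Q) j ↔ g ∈ NI Q (j + 1)) := by
  induction j with
  | zero => intro g g' r; exact Rel_zero r
  | succ j ih =>
    intro g g' r
    rw [NI_succ, NI_succ Q (j + 1), mem_Nu, mem_Nu]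
    constructor
    · intro h q
      obtain ⟨c', hc', e⟩ := h (mq q)
      obtain ⟨c, hc⟩ := Rel_ex' c'
      have hcZ := (Rel_Zt ih hc).1 hc'
      rw [r q, hc q] at e
      obtain ⟨z, hz, e2⟩ := mq_eq.1 e.symm
      refine ⟨L z * c, mul_mem (bot_le_ZtNI Q (j + 1) (L_mem_Zt' hz)) hcZ, ?_⟩
      rw [e2, mul_smul, sL]
    · intro h a
      obtain ⟨q, rfl⟩ := mq_surj a
      obtain ⟨c, hc, e⟩ := h q
      obtain ⟨c', hc'⟩ := Rel_ex c
      refine ⟨c', (Rel_Zt ih hc').2 hc, ?_⟩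
      rw [r q, e, hc' q]

theorem Rel_H {g' : G (QZ Q)} (h : g' ∈ H (QZ Q)) : ∃ g ∈ H Q, Rel g g' := by
  obtain ⟨g, hg⟩ := Rel_ex' g'
  have e := hg 1
  rw [mem_H] at h
  rw [mq_one_def, h, ← mq_one_def] at e
  obtain ⟨z, hz, e2⟩ := mq_eq.1 e
  rw [mul_one'] at e2
  refine ⟨(L z)⁻¹ * g, ?_, ?_⟩
  · rw [mem_H, mul_smul, e2]
    exact L_inv_smul (mul_one' z).symm
  · intro q
    rw [hg q, mul_smul]
    apply mq_eq.2
    refine ⟨(L z)⁻¹ • (1 : Q), R_mem_Zt (inv_mem (L_mem_Zt' hz)), ?_⟩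
    have h1 : R ((L z)⁻¹ • (1 : Q)) ∈ Zt (⊥ : Subgroup (G Q)) := R_mem_Zt (inv_mem (L_mem_Zt' hz))
    apply L_inv_smul
    rw [cen_mul_assoc hz, ← sL z (_ • _), smul_inv_smul, one_mul']

/-- reduction to class three -/
theorem reduce (m : ℕ) : ∀ (Q : Type) [Loop Q], (∀ a ∈ H Q, ∀ b ∈ H Q, a * b = b * a) →
    H Q ≤ NI Q (m + 3) → H Q ≤ NI Q 2 := by
  induction m with
  | zero =>
    intro Q _ hab h3
    haveI : Ab4 Q := ⟨hab, h3⟩
    exact core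
  | succ m ih =>
    intro Q _ hab h3
    have hab' : ∀ a ∈ H (QZ Q), ∀ b ∈ H (QZ Q), a * b = b * a := by
      intro a' ha' b' hb'
      obtain ⟨a, ha, ra⟩ := Rel_H ha'
      obtain ⟨b, hb, rb⟩ := Rel_H hb'
      apply G_ext
      intro x
      obtain ⟨q, rfl⟩ := mq_surj x
      rw [(ra.mul rb) q, (rb.mul ra) q, hab a ha b hb]
    have h3' : H (QZ Q) ≤ NI (QZ Q) (m + 3) := by
      intro a' ha'
      obtain ⟨a, ha, ra⟩ := Rel_H ha'
      exact (Rel_NI (m + 3) a a' ra).2 (h3 ha)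
    have h4 := ih (QZ Q) hab' h3'
    have h5 : H Q ≤ NI Q 3 := by
      intro a ha
      obtain ⟨a', ra⟩ := Rel_ex a
      refine (Rel_NI 2 a a' ra).1 (h4 ?_)
      rw [mem_H, ← mq_one_def, ra 1, mem_H.1 ha]
    haveI : Ab4 Q := ⟨hab, h5⟩
    exact core

end Pool.Agent.R675.AIM
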