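import Pool.Agent.R675.AIM.Vst

set_option autoImplicit false

namespace Pool.Agent.R675.AIM

open Loop

variable {Q : Type} [Loop Q] [Ab4 Q]

theorem Nice_cjRC_inv (p : G Q) (n : CC Q) : Nice (cj p (RC n))⁻¹ :=
  Nice_of_Zt (inv_mem (cjRC_Zt2 p n))

theorem del_inv_elt (y : NN Q) (x : CC Q) : del y x⁻¹ = - del y x + Xi y x x := by
  have h := del_mul y x x⁻¹
  rw [mul_inv_cancel, del_one, Xi_inv_right] at h
  linear_combination (norm := module) - h

theorem S2_inv {g1 g2 : NN Q} (k1 : g1 • (1 : CC Q) = 1) (k2 : g2 • (1 : CC Q) = 1) (p p' : G Q) :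
    del (cj p' g1) (tn p g2) = del (cj p' g2) (tn p g1) := by
  have hV := Vst (th_one p g1) (th_one p g2) p p'
  -- formula for the maps
  have e : ∀ {g : NN Q} (_ : g • (1 : CC Q) = 1) (x : CC Q), del (cj p' (et (cj p (th p g)))) x =
      del (cj p' g) x - del (cj (p * p') (RC (tn p g))) x -
        del (cj p' (RC (cj p (th p g) • (1 : CC Q)))) x := by
    intro g k x
    have h1 := Y_split (th p g) p p'
    have h2 : cj (p * p') (th p g) = (cj (p * p') (RC (tn p g)))⁻¹ * cj p' g := by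
      rw [← cj_cj, cj_th, cj_mul, cj_inv, cj_cj]
    have hN := Nice_cjRC p' (cj p (th p g) • (1 : CC Q))
    have hN' := Nice_cjRC_inv (p * p') (tn p g)
    have h3 := del_comp (cj p' (RC (cj p (th p g) • (1 : CC Q)))) (cj p' (et (cj p (th p g)))) x
    have h4 := del_comp (cj (p * p') (RC (tn p g)))⁻¹ (cj p' g) x
    rw [T3_Nice_left hN, Xi_Nice hN, ← h1, h2] at h3
    rw [T3_Nice_left hN', Xi_Nice hN', del_cjRC_inv, h3] at h4
    linear_combination (norm := module) h4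
  have f : ∀ {g g' : NN Q} (_ : g • (1 : CC Q) = 1) (_ : g' • (1 : CC Q) = 1),
      del (cj (p * p') (RC (tn p g))) (cj p (th p g') • (1 : CC Q)) =
      del (cj (p * p') (RC (tn p g'))) (cj p (th p g) • (1 : CC Q)) := by
    intro g g' k k'
    rw [F8 (th_one p g'), F8 (th_one p g)]
    have : ∀ w : NN Q, T3 (th p g') w (tn p g) = T3 (th p g) w (tn p g') := by
      intro w
      rw [T3_symm, T3_symm _ w, th, th, T3_et_mid, T3_et_mid]
      exact sym2 w k k' p⁻¹
    rw [this, this, this]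
  rw [e k1, e k2, f k1 k2, S_b (th_one p g1) (th_one p g2) p p'] at hV
  have hV2 : del (cj p' g1) (cj p (th p g2) • (1 : CC Q)) = del (cj p' g2) (cj p (th p g1) • (1 : CC Q)) := by
    linear_combination (norm := module) hV
  have r : ∀ {g g' : NN Q} (_ : g • (1 : CC Q) = 1) (_ : g' • (1 : CC Q) = 1),
      del (cj p' g) (cj p (th p g') • (1 : CC Q)) =
      - (X (wN p) g' (cj (p' * p⁻¹) g) - X (wN p) g' (cj p' g)) - del (cj p' g) (tn p g') := by
    intro g g' k k'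
    obtain ⟨ζ, hζ, e1⟩ := cj_th_one p k'
    have e2 : (wN p • tn p g')⁻¹ = ι (- del (wN p) (tn p g')) * (tn p g')⁻¹ := by
      rw [fix_smul (wN_one p), mul_inv_rev, ι_neg, ← ι_neg, ι_comm]
    have hXi : Xi (cj p' g) (tn p g') (tn p g') = 0 := by
      have h1 := F7 k' (cj p' g) p⁻¹ (tn p g')
      rw [tn, TX _ _ k', TX _ _ k'] at h1
      rw [tn, h1]
      simp only [cj_cj]
      rw [X_add_hh k' k, X_add_hh k' k]
      abel
    have h3 : T3 (cj p' g) (wN p) (tn p g') = X (wN p) g' (cj (p' * p⁻¹) g) - X (wN p) g' (cj p' g) := by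
      rw [T3_symm, tn, TX _ _ k', cj_cj]
    rw [e1, e2, del_ι_mul, del_ι_mul, del_Z hζ, del_inv_elt, hXi, ← dV_def, map_neg, ← T3_def, h3]
    abel
  rw [r k1 k2, r k2 k1, I1 (wN p) k1 k2 (p' * p⁻¹), I1 (wN p) k1 k2 p'] at hV2
  linear_combination (norm := module) - hV2

/-- (S2) -/
theorem S2 {g1 g2 : NN Q} (k1 : g1 • (1 : CC Q) = 1) (k2 : g2 • (1 : CC Q) = 1) (p p' : G Q) :
    del (cj p' g1) (cj p g2 • (1 : CC Q)) = del (cj p' g2) (cj p g1 • (1 : CC Q)) := by
  have := S2_inv k1 k2 p⁻¹ p'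
  rw [tn, tn, inv_inv] at this
  exact this

theorem S1 {g1 g2 : NN Q} (k1 : g1 • (1 : CC Q) = 1) (k2 : g2 • (1 : CC Q) = 1) (p : G Q) :
    del g1 (cj p g2 • (1 : CC Q)) = del g2 (cj p g1 • (1 : CC Q)) := by
  have := S2 k1 k2 p 1
  rwa [cj_one, cj_one] at this

end Pool.Agent.R675.AIM
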