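import Pool.Agent.R675.AIM.Conj2
import Pool.Agent.R675.AIM.Abs

set_option autoImplicit false

namespace Pool.Agent.R675.AIM

open Loop

variable {Q : Type} [Loop Q]

theorem R_one : R (1 : Q) = 1 := by
  apply G_ext
  intro q
  rw [sR, mul_one', one_smul]

/-- generation of the inner mapping group -/
theorem H_gen (K : Subgroup (G Q)) (hT : ∀ x, TT x ∈ K) (hL : ∀ x y, LL x y ∈ K)
    (hR : ∀ x y, RR x y ∈ K) : H Q ≤ K := by
  have key : ∀ g : G Q, ∀ x : Q, (R (g • x))⁻¹ * g * R x ∈ K := by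
    intro g
    refine G_ind (fun g => ∀ x : Q, (R (g • x))⁻¹ * g * R x ∈ K) ?_ ?_ ?_ ?_ ?_ g
    · intro n x
      exact hR x n
    · intro n x
      have := K.mul_mem (K.mul_mem (hT (n * x)) (hL n x)) (K.inv_mem (hT x))
      have e : TT (n * x) * LL n x * (TT x)⁻¹ = (R (L n • x))⁻¹ * L n * R x := by
        rw [TT, LL, TT, sL]; group
      rwa [e] at this
    · intro x
      rw [one_smul]
      have : (R x)⁻¹ * 1 * R x = 1 := by group
      rw [this]; exact one_mem _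
    · intro a b ha hb x
      have := K.mul_mem (ha (b • x)) (hb x)
      have e : (R (a • b • x))⁻¹ * a * R (b • x) * ((R (b • x))⁻¹ * b * R x)
        = (R ((a * b) • x))⁻¹ * (a * b) * R x := by
        rw [mul_smul]; group
      rwa [e] at this
    · intro a ha x
      have := K.inv_mem (ha (a⁻¹ • x))
      have e : ((R (a • a⁻¹ • x))⁻¹ * a * R (a⁻¹ • x))⁻¹ = (R (a⁻¹ • x))⁻¹ * a⁻¹ * R x := by
        rw [smul_inv_smul]; group
      rwa [e] at this
  intro h hh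
  have := key h 1
  rw [mem_H.1 hh, R_one] at this
  simpa using this

variable [Ab4 Q]

theorem mk_H {h : G Q} (hh : h ∈ H Q) : ((h : G Q) : G Q ⧸ NN Q) = 1 := q_mem.1 (H_le_NN hh)

theorem mk_eqR (p : G Q) : ((p : G Q) : G Q ⧸ NN Q) = ((R (p • (1 : Q)) : G Q) : G Q ⧸ NN Q) := by
  have := mk_H (RinvH p)
  rw [QuotientGroup.mk_mul, QuotientGroup.mk_inv, inv_mul_eq_one] at this
  exact this.symm

theorem mk_LR (x : Q) : ((L x : G Q) : G Q ⧸ NN Q) = ((R x : G Q) : G Q ⧸ NN Q) := by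
  have := mk_H (TT_mem x)
  rw [TT, QuotientGroup.mk_mul, QuotientGroup.mk_inv, inv_mul_eq_one] at this
  exact this.symm

theorem mkR_mul (x y : Q) : ((R (x * y) : G Q) : G Q ⧸ NN Q) = (R x : G Q) * (R y : G Q) := by
  have := mk_H (LL_mem x y)
  rw [LL, QuotientGroup.mk_mul, QuotientGroup.mk_mul, QuotientGroup.mk_inv, mul_assoc,
    inv_mul_eq_one, mk_LR, mk_LR, mk_LR] at this
  exact this

theorem mkR_mul' (x y : Q) : ((R (x * y) : G Q) : G Q ⧸ NN Q) = (R y : G Q) * (R x : G Q) := by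
  have := mk_H (RR_mem x y)
  rw [RR, QuotientGroup.mk_mul, QuotientGroup.mk_mul, QuotientGroup.mk_inv, mul_assoc,
    inv_mul_eq_one] at this
  exact this

theorem mk_comm (p p' : G Q) : ((p * p' : G Q) : G Q ⧸ NN Q) = ((p' * p : G Q) : G Q ⧸ NN Q) := by
  rw [QuotientGroup.mk_mul, QuotientGroup.mk_mul, mk_eqR p, mk_eqR p', ← mkR_mul, ← mkR_mul']

theorem mk_smul_R (g : G Q) (z : Q) : ((R (g • z) : G Q) : G Q ⧸ NN Q) = ((g : G Q) : G Q ⧸ NN Q) * (R z : G Q) := by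
  rw [← QuotientGroup.mk_mul, mk_eqR (g * R z), mul_smul, sR1]

theorem X_congr (a b : NN Q) {y y' : NN Q} (h : (y : G Q) = y') : X a b y = X a b y' := by
  rw [Subtype.ext h]

theorem X_mk (a b y : NN Q) {p p' : G Q} (h : ((p : G Q) : G Q ⧸ NN Q) = ((p' : G Q) : G Q ⧸ NN Q)) :
    X a b (cj p y) = X a b (cj p' y) := by
  have hn : p⁻¹ * p' ∈ NN Q := by rwa [QuotientGroup.eq] at h
  have e : cj p' y = (⟨p⁻¹ * p', hn⟩ : NN Q)⁻¹ * cj p y * ⟨p⁻¹ * p', hn⟩ := by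
    apply Subtype.ext
    simp only [cj_coe, Subgroup.coe_mul, Subgroup.coe_inv]
    group
  rw [e, X_mul, X_mul, X_inv]; abel

/-- differences -/
noncomputable def DX (a b : NN Q) (p p' : G Q) : V Q :=
  open Classical in if h : p⁻¹ * p' ∈ NN Q then X a b ⟨p⁻¹ * p', h⟩ else 0

theorem DX_of (a b : NN Q) {p p' : G Q} {y : NN Q} (h : (y : G Q) = p⁻¹ * p') : DX a b p p' = X a b y := by
  have h2 : p⁻¹ * p' ∈ NN Q := by rw [← h]; exact y.2
  rw [DX, dif_pos h2]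
  exact X_congr a b h.symm

theorem DX_ex (a b : NN Q) {p p' : G Q} (h : ((p : G Q) : G Q ⧸ NN Q) = ((p' : G Q) : G Q ⧸ NN Q)) :
    ∃ y : NN Q, (y : G Q) = p⁻¹ * p' ∧ DX a b p p' = X a b y := by
  have hn : p⁻¹ * p' ∈ NN Q := by rwa [QuotientGroup.eq] at h
  exact ⟨⟨_, hn⟩, rfl, DX_of a b rfl⟩

theorem DX_add (a b : NN Q) {p p' p'' : G Q} (h : ((p : G Q) : G Q ⧸ NN Q) = ((p' : G Q) : G Q ⧸ NN Q))
    (h' : ((p' : G Q) : G Q ⧸ NN Q) = ((p'' : G Q) : G Q ⧸ NN Q)) :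
    DX a b p p' + DX a b p' p'' = DX a b p p'' := by
  obtain ⟨y, hy, e⟩ := DX_ex a b h
  obtain ⟨y', hy', e'⟩ := DX_ex a b h'
  rw [e, e', ← X_mul]
  refine (DX_of a b ?_).symm
  rw [Subgroup.coe_mul, hy, hy']; group

theorem DX_self (a b : NN Q) (p : G Q) : DX a b p p = 0 := by
  have : DX a b p p = X a b 1 := DX_of a b (by rw [Subgroup.coe_one]; group)
  rw [this, X_one]

theorem DX_neg (a b : NN Q) {p p' : G Q} (h : ((p : G Q) : G Q ⧸ NN Q) = ((p' : G Q) : G Q ⧸ NN Q)) :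
    DX a b p p' = - DX a b p' p := by
  have := DX_add a b h h.symm
  rw [DX_self] at this
  exact eq_neg_of_add_eq_zero_left this

theorem DX_g (a b : NN Q) (g : G Q) {z z' : Q}
    (h : ((R z : G Q) : G Q ⧸ NN Q) = ((R z' : G Q) : G Q ⧸ NN Q)) :
    DX a b (R z) (R z') = DX a b (R (g • z)) (R (g • z')) := by
  obtain ⟨y, hy, e⟩ := DX_ex a b h
  have k1 : (R (g • z))⁻¹ * (g * R z) ∈ H Q := by
    have := RinvH (g * R z)
    rwa [mul_smul, sR1] at this
  have k2 : (R (g • z'))⁻¹ * (g * R z') ∈ H Q := by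
    have := RinvH (g * R z')
    rwa [mul_smul, sR1] at this
  set u1 : NN Q := ⟨_, H_le_NN k1⟩ with hu1
  set u2 : NN Q := ⟨_, H_le_NN k2⟩ with hu2
  have e1 : DX a b (R (g • z)) (R (g • z')) = X a b (u1 * y * u2⁻¹) := by
    apply DX_of
    rw [Subgroup.coe_mul, Subgroup.coe_mul, Subgroup.coe_inv, hy, hu1, hu2]
    group
  have f1 : X a b u1 = 0 := X_fix a b (mem_H'.1 k1)
  have f2 : X a b u2 = 0 := X_fix a b (mem_H'.1 k2)
  rw [e, e1, X_mul, X_mul, X_inv, f1, f2]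
  abel

/-- `H` as a type, mapping to `NN` -/
def hN (h : H Q) : NN Q := ⟨h, H_le_NN h.2⟩
theorem hN_one (h : H Q) : hN h • (1 : CC Q) = 1 := mem_H'.1 h.2
theorem hN_mul (h h' : H Q) : hN (h * h') = hN h * hN h' := rfl
theorem hN_inv (h : H Q) : hN (h⁻¹) = (hN h)⁻¹ := rfl

theorem T_DX (a b : NN Q) (c : H Q) (q : Q) :
    X a b (cj (R q) (hN c)) = DX a b (R q) (R ((c : G Q) • q)) := by
  have k1 : (R ((c : G Q) • q))⁻¹ * ((c : G Q) * R q) ∈ H Q := by
    have := RinvH ((c : G Q) * R q)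
    rwa [mul_smul, sR1] at this
  set u1 : NN Q := ⟨_, H_le_NN k1⟩ with hu1
  have e1 : DX a b (R q) (R ((c : G Q) • q)) = X a b (cj (R q) (hN c) * u1⁻¹) := by
    apply DX_of
    rw [Subgroup.coe_mul, Subgroup.coe_inv, cj_coe, hu1]
    change (R q)⁻¹ * (c : G Q) * R q * _ = _
    group
  have f1 : X a b u1 = 0 := X_fix a b (mem_H'.1 k1)
  rw [e1, X_mul, X_inv, f1]; abel

theorem T_DXg (a b : NN Q) (c : H Q) (q : Q) (g : G Q) :
    X a b (cj (R q) (hN c)) = DX a b (R (g • q)) (R (g • (c : G Q) • q)) := by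
  rw [T_DX, DX_g a b g]
  rw [mk_smul_R, mk_H c.2, one_mul]

def TH (x : Q) : H Q := ⟨TT x, TT_mem x⟩
def LH (x y : Q) : H Q := ⟨(LL x y)⁻¹, inv_mem (LL_mem x y)⟩
def RH (x y : Q) : H Q := ⟨RR x y, RR_mem x y⟩
def UH (x y : Q) : H Q := ⟨(MM x y)⁻¹, inv_mem (MM_mem x y)⟩

omit [Ab4 Q] in
theorem HH_gen (P : H Q → Prop) (h1 : ∀ u, P (TH u)) (h2 : ∀ x y, P (LH x y)) (h3 : ∀ x y, P (RH x y))
    (h5 : P 1) (h6 : ∀ a b, P a → P b → P (a * b)) (h7 : ∀ a, P a → P a⁻¹) (a : H Q) : P a := by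
  let K : Subgroup (G Q) :=
    { carrier := {g | ∃ h : g ∈ H Q, P ⟨g, h⟩}
      one_mem' := ⟨one_mem _, h5⟩
      mul_mem' := fun {a b} ⟨ha, pa⟩ ⟨hb, pb⟩ => ⟨mul_mem ha hb, h6 _ _ pa pb⟩
      inv_mem' := fun {a} ⟨ha, pa⟩ => ⟨inv_mem ha, h7 _ pa⟩ }
  have hK : H Q ≤ K := by
    apply H_gen
    · intro x; exact ⟨_, h1 x⟩
    · intro x y
      refine ⟨LL_mem x y, ?_⟩
      have := h7 _ (h2 x y)
      have e : (LH x y)⁻¹ = ⟨LL x y, LL_mem x y⟩ := Subtype.ext (by simp [LH])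
      rwa [e] at this
    · intro x y; exact ⟨_, h3 x y⟩
  obtain ⟨_, h⟩ := hK a.2
  exact h

/-- the trilinear form -/
def TF (a b c : H Q) (q : Q) : V Q := X (hN a) (hN b) (cj (R q) (hN c))

theorem TF_p (a b c : H Q) (p : G Q) : X (hN a) (hN b) (cj p (hN c)) = TF a b c (p • (1 : Q)) :=
  X_mk _ _ _ (mk_eqR p)

noncomputable def fF (a b : H Q) (x y z : Q) : V Q := DX (hN a) (hN b) (R (x * (y * z))) (R ((x * y) * z))

theorem mk_assoc (x y z : Q) : ((R (x * (y * z)) : G Q) : G Q ⧸ NN Q) = ((R ((x * y) * z) : G Q) : G Q ⧸ NN Q) := by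
  simp only [mkR_mul, mul_assoc]

theorem TF_s12 (a b c : H Q) (q : Q) : TF a b c q = TF b a c q := by
  rw [TF, TF, X, X, T3_symm]
theorem TF_s23 (a b c : H Q) (q : Q) : TF a b c q = TF a c b q :=
  I1 (hN a) (hN_one b) (hN_one c) (R q)
theorem X_mul1 (a a' b y : NN Q) : X (a * a') b y = X a b y + X a' b y := by
  rw [X, X, X, T3_add_left]
theorem X_symm (a b y : NN Q) : X a b y = X b a y := by rw [X, X, T3_symm]
theorem TF_add (a a' b c : H Q) (q : Q) : TF (a * a') b c q = TF a b c q + TF a' b c q := by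
  rw [TF, TF, TF, hN_mul, X_mul1]
theorem TF_comm (a b c : H Q) (x y : Q) : TF a b c (x * y) = TF a b c (y * x) :=
  X_mk _ _ _ (by rw [mkR_mul, mkR_mul'])
theorem TF_fL (a b : H Q) (x y z : Q) : TF a b (LH x y) z = fF a b x y z := by
  have h := T_DXg (hN a) (hN b) (LH x y) z (L x * L y)
  rw [TF, fF, h]
  have e1 : (L x * L y) • ((LH x y : H Q) : G Q) • z = (x * y) * z := by
    change (L x * L y) • (LL x y)⁻¹ • z = (x * y) * z
    rw [← mul_smul, LL]
    have : L x * L y * ((L (x * y))⁻¹ * L x * L y)⁻¹ = L (x * y) := by group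
    rw [this, sL]
  have e2 : (L x * L y) • z = x * (y * z) := by rw [mul_smul, sL, sL]
  rw [e1, e2]
theorem TF_fR (a b : H Q) (x y z : Q) : TF a b (RH y z) x = fF a b x y z := by
  have h := T_DXg (hN a) (hN b) (RH y z) x (R (y * z))
  rw [TF, fF, h]
  have e1 : (R (y * z)) • ((RH y z : H Q) : G Q) • x = (x * y) * z := by
    change (R (y * z)) • (RR y z) • x = (x * y) * z
    rw [← mul_smul, RR]
    have : R (y * z) * ((R (y * z))⁻¹ * R z * R y) = R z * R y := by group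
    rw [this, mul_smul, sR, sR]
  rw [e1, sR]
theorem TF_fU (a b : H Q) (x y z : Q) : TF a b (UH x z) y = fF a b x y z := by
  have h := T_DXg (hN a) (hN b) (UH x z) y (L x * R z)
  rw [TF, fF, h]
  have e1 : (L x * R z) • ((UH x z : H Q) : G Q) • y = (x * y) * z := by
    change (L x * R z) • (MM x z)⁻¹ • y = (x * y) * z
    rw [← mul_smul, MM]
    have : L x * R z * ((L x)⁻¹ * (R z)⁻¹ * L x * R z)⁻¹ = R z * L x := by group
    rw [this, mul_smul, sR, sL]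
  have e2 : (L x * R z) • y = x * (y * z) := by rw [mul_smul, sL, sR]
  rw [e1, e2]
theorem TF_DX (a b : H Q) (u v : Q) : TF a b (TH u) v = DX (hN a) (hN b) (R (v * u)) (R (u * v)) := by
  have h := T_DXg (hN a) (hN b) (TH u) v (R u)
  have e : R u • ((TH u : H Q) : G Q) • v = u * v := by
    change R u • ((R u)⁻¹ * L u) • v = u * v
    rw [mul_smul, smul_inv_smul, sL]
  rw [TF, h, e, sR]
theorem TF_gneg (a b : H Q) (u v : Q) : TF a b (TH u) v = - TF a b (TH v) u := by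
  rw [TF_DX, TF_DX]
  exact DX_neg _ _ (by rw [mkR_mul, mkR_mul'])
theorem TF_gself (a b : H Q) (u : Q) : TF a b (TH u) u = 0 := by
  rw [TF_DX, DX_self]
theorem TF_mul3 (a b c c' : H Q) (q : Q) : TF a b (c * c') q = TF a b c q + TF a b c' q := by
  rw [TF, hN_mul, cj_mul, X_mul]; rfl
theorem TF_inv3 (a b c : H Q) (q : Q) : TF a b c⁻¹ q = - TF a b c q := by
  rw [TF, hN_inv, cj_inv, X_inv]; rfl
omit [Ab4 Q] in
theorem TH_mul (x y : Q) : (TH (x * y) : H Q) = RH x y * TH x * (UH x y)⁻¹ * TH y * LH x y := by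
  apply Subtype.ext
  change TT (x * y) = RR x y * TT x * ((MM x y)⁻¹)⁻¹ * TT y * (LL x y)⁻¹
  rw [TT, RR, TT, MM, TT, LL]; group
theorem TF_gmul (a b : H Q) (x y z : Q) : TF a b (TH (x * y)) z =
    TF a b (TH x) z + TF a b (TH y) z + fF a b z x y - fF a b x z y + fF a b x y z := by
  rw [TH_mul, TF_mul3, TF_mul3, TF_mul3, TF_mul3, TF_inv3, TF_fL, TF_fU, TF_fR]
  abel
theorem fF_pent (a b : H Q) (x y z w : Q) : fF a b x y (z * w) + fF a b (x * y) z w =
    fF a b y z w + fF a b x (y * z) w + fF a b x y z := by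
  have e1 : fF a b x y (z * w) + fF a b (x * y) z w
      = DX (hN a) (hN b) (R (x * (y * (z * w)))) (R (((x * y) * z) * w)) := by
    rw [fF, fF]
    apply DX_add
    · exact mk_assoc _ _ _
    · exact mk_assoc _ _ _
  have e2 : fF a b y z w = DX (hN a) (hN b) (R (x * (y * (z * w)))) (R (x * ((y * z) * w))) := by
    rw [fF, DX_g _ _ (L x) (mk_assoc _ _ _), sL, sL]
  have e3 : fF a b x y z = DX (hN a) (hN b) (R ((x * (y * z)) * w)) (R (((x * y) * z) * w)) := by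
    rw [fF, DX_g _ _ (R w) (mk_assoc _ _ _), sR, sR]
  have e4 : fF a b x (y * z) w = DX (hN a) (hN b) (R (x * ((y * z) * w))) (R ((x * (y * z)) * w)) := rfl
  rw [e1, e2, e3, e4, DX_add, DX_add]
  · simp only [mkR_mul, mul_assoc]
  · simp only [mkR_mul, mul_assoc]
  · simp only [mkR_mul, mul_assoc]
  · simp only [mkR_mul, mul_assoc]

noncomputable def dat (Q : Type) [Loop Q] [Ab4 Q] : Dat (H Q) Q (V Q) where
  T := TF
  Tm := TH
  Lm := LH
  Rm := RH
  Um := UH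
  f := fF
  s12 := TF_s12
  s23 := TF_s23
  add := TF_add
  comm := TF_comm
  fL := TF_fL
  fR := TF_fR
  fU := TF_fU
  gneg := TF_gneg
  gself := TF_gself
  gmul := TF_gmul
  pent := fF_pent
  gen P h1 h2 h3 _ h5 h6 h7 a := HH_gen P h1 h2 h3 h5 h6 h7 a

end Pool.Agent.R675.AIM
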