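import Pool.Agent.R675.AIM.Tlev

set_option autoImplicit false

namespace Pool.Agent.R675.AIM

open Loop

variable {Q : Type} [Loop Q] [Ab4 Q]

/-- an element fixing one as an element of `H` -/
def toH {h : NN Q} (hh : h • (1 : CC Q) = 1) : H Q := ⟨h, mem_H'.2 hh⟩
theorem hN_toH {h : NN Q} (hh : h • (1 : CC Q) = 1) : hN (toH hh) = h := rfl

theorem X_TF {h1 h2 h3 : NN Q} (k1 : h1 • (1 : CC Q) = 1) (k2 : h2 • (1 : CC Q) = 1)
    (k3 : h3 • (1 : CC Q) = 1) (p : G Q) :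
    X h1 h2 (cj p h3) = TF (toH k1) (toH k2) (toH k3) (p • (1 : Q)) := by
  rw [← TF_p, hN_toH, hN_toH, hN_toH]

/-- deviation for products in `G` -/
theorem TF_d (a b c : H Q) (p p' : G Q) :
    TF a b c ((p * p') • (1 : Q)) = TF a b c (p • (1 : Q)) + TF a b c (p' • (1 : Q)) +
      (dat Q).d a b c (p • (1 : Q)) (p' • (1 : Q)) := by
  have h : TF a b c ((p * p') • (1 : Q)) = TF a b c ((p • (1 : Q)) * (p' • (1 : Q))) := by
    rw [TF, TF]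
    apply X_mk
    rw [← mk_eqR, mkR_mul, ← mk_eqR, ← mk_eqR, QuotientGroup.mk_mul]
  rw [h]
  change _ = _ + (TF a b c _ - _ - _)
  change _ = _ + (_ - TF a b c _ - TF a b c _)
  abel

theorem X_add_hh {h h3 : NN Q} (k : h • (1 : CC Q) = 1) (k3 : h3 • (1 : CC Q) = 1) (p p' : G Q) :
    X h h (cj (p * p') h3) = X h h (cj p h3) + X h h (cj p' h3) := by
  rw [X_TF k k k3, X_TF k k k3, X_TF k k k3, TF_d, (dat Q).d_hh, add_zero]

theorem X_TN {h2 h1 : NN Q} (k2 : h2 • (1 : CC Q) = 1) (k1 : h1 • (1 : CC Q) = 1) (p : G Q) :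
    T3 h2 (TN (p • (1 : Q))) (cj p h1 • (1 : CC Q)) = 0 := by
  change X h2 (TN (p • (1 : Q))) (cj p h1) = 0
  rw [I1 h2 (TN_one _) k1 p, X_TF k2 k1 (TN_one _)]
  exact TF_gself _ _ _

theorem sym1 (w : NN Q) {h1 h2 : NN Q} (k1 : h1 • (1 : CC Q) = 1) (k2 : h2 • (1 : CC Q) = 1) (p : G Q) :
    T3 w h2 (cj p h1 • (1 : CC Q)) = T3 w h1 (cj p h2 • (1 : CC Q)) := I1 w k2 k1 p

theorem sym2 (w : NN Q) {h1 h2 : NN Q} (k1 : h1 • (1 : CC Q) = 1) (k2 : h2 • (1 : CC Q) = 1) (p : G Q) :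
    T3 w (cj p h2) (cj p h1 • (1 : CC Q)) = T3 w (cj p h1) (cj p h2 • (1 : CC Q)) := by
  rw [TX w _ k1 p, TX w _ k2 p, cj_cj, cj_cj, I1 w k1 k2 (p * p), I1 w k1 k2 p]

theorem T3_et_mid (w y : NN Q) (x : CC Q) : T3 w (et y) x = T3 w y x := by
  rw [T3, T3, ← del_et]

theorem Xi_comm (y : NN Q) (a b : CC Q) : Xi y a b = Xi y b a := by
  rw [Xi, Xi, cc_eq a b, del_Zmul (cc_isZ a b)]; abel

section
variable {h1 h2 : NN Q} (k1 : h1 • (1 : CC Q) = 1) (k2 : h2 • (1 : CC Q) = 1) (p p' : G Q)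
include k1 k2

theorem S_a : del (cj p' (RC (cj p h1 • (1 : CC Q)))) (cj p' (et (cj p h2)) • (1 : CC Q)) =
    del (cj p' (RC (cj p h2 • (1 : CC Q)))) (cj p' (et (cj p h1)) • (1 : CC Q)) := by
  rw [F8 (et_one _), F8 (et_one _), T3_symm (et _), T3_symm (et _), T3_symm (et _), T3_symm (et _),
    T3_et_mid, T3_et_mid, T3_et_mid, T3_et_mid, sym2 _ k1 k2, sym2 (wN p') k1 k2]

theorem S_b : del (cj p' (RC (cj p h1 • (1 : CC Q)))) (cj p h2 • (1 : CC Q)) =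
    del (cj p' (RC (cj p h2 • (1 : CC Q)))) (cj p h1 • (1 : CC Q)) := by
  rw [F8 k2, F8 k1, T3_symm h2, T3_symm h2, T3_symm h2, T3_symm h1, T3_symm h1, T3_symm h1,
    sym1 _ k1 k2, sym1 (wN p) k1 k2, sym1 (wN p') k1 k2]

theorem S_c : T3 (cj p' (et (cj p h1))) (wN p') (cj p h2 • (1 : CC Q)) =
    T3 (cj p' (et (cj p h2))) (wN p') (cj p h1 • (1 : CC Q)) := by
  rw [T3_symm _ (wN p'), T3_symm _ (wN p'), TX _ _ k1, TX _ _ k2]
  simp only [cj_cj, X_cj_et]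
  rw [I1 (wN p') k1 k2, I1 (wN p') k1 k2 (p * p'), I1 (wN p') k1 k2 p]

theorem S_d0 (q : G Q) : X h2 (et (cj p h2)) (cj q (et (cj p h1))) = X h2 h2 (cj q h1) := by
  rw [I1 h2 (et_one (cj p h2)) (et_one (cj p h1)) q]
  simp only [cj_cj, X_cj_et]
  rw [I1 h2 (et_one (cj p h1)) k2 (p * q), I1 h2 (et_one (cj p h1)) k2 p]
  simp only [cj_cj, X_cj_et]
  rw [X_add_hh k2 k1 p (p * q), X_add_hh k2 k1 p q, X_add_hh k2 k1 p p]
  abel

theorem S_d : Xi (cj p' (et (cj p h1))) (cj p' (et (cj p h2)) • (1 : CC Q)) (cj p h2 • (1 : CC Q)) = 0 := by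
  rw [Xi_comm, F7 k2, TX _ _ (et_one _), TX _ _ (et_one _)]
  simp only [cj_cj]
  rw [S_d0 k1 k2, S_d0 k1 k2, S_d0 k1 k2, S_d0 k1 k2, X_add_hh k2 k1, X_add_hh k2 k1, X_add_hh k2 k1]
  abel

theorem S_e1 : cc (cj p h1 • (1 : CC Q)) (cj p h2 • (1 : CC Q)) = 0 := by
  rw [F9 k2, X_TN k2 k1, neg_zero]

theorem S_e2 : cc (cj p' (et (cj p h1)) • (1 : CC Q)) (cj p h2 • (1 : CC Q)) +
    cc (cj p h1 • (1 : CC Q)) (cj p' (et (cj p h2)) • (1 : CC Q)) = 0 := by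
  rw [cc_neg, F9 (et_one _), F9 (et_one _), T3_symm (et _), T3_symm (et _), T3_et_mid, T3_et_mid,
    sym2 _ k1 k2]
  abel

end

theorem Y_split (h : NN Q) (p p' : G Q) :
    cj (p * p') h = cj p' (RC (cj p h • (1 : CC Q))) * cj p' (et (cj p h)) := by
  rw [← cj_cj, ← cj_mul, ← et_eq]

theorem Y_one (h : NN Q) (p p' : G Q) : ∃ ζ : V Q, isZ ζ ∧ cj (p * p') h • (1 : CC Q) =
    ι (ζ + del (wN p') (cj p h • (1 : CC Q))) * ((cj p' (et (cj p h)) • (1 : CC Q)) * (cj p h • (1 : CC Q))) := by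
  refine ⟨del (cj p' (RC (cj p h • (1 : CC Q)))) (cj p' (et (cj p h)) • (1 : CC Q)),
    (Nice_cjRC _ _).isZ _, ?_⟩
  rw [Y_split, mul_smul, smul_eq, cjRC_one, fix_smul (wN_one p'), ι_add]
  set w := del (wN p') (cj p h • (1 : CC Q))
  set m := cj p' (et (cj p h)) • (1 : CC Q)
  have := ι_comm w m
  calc _ = ι (del (cj p' (RC (cj p h • (1 : CC Q)))) m) * (m * ι w) * cj p h • (1 : CC Q) := by group
    _ = _ := by rw [← this]; group

theorem half (h1 h2 : NN Q) (p p' : G Q) :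
    del (cj (p * p') h1) (cj (p * p') h2 • (1 : CC Q)) =
      del (cj p' (RC (cj p h1 • (1 : CC Q)))) (cj p' (et (cj p h2)) • (1 : CC Q)) +
      del (cj p' (RC (cj p h1 • (1 : CC Q)))) (cj p h2 • (1 : CC Q)) +
      T3 (cj p' (et (cj p h1))) (wN p') (cj p h2 • (1 : CC Q)) +
      del (cj p' (et (cj p h1))) (cj p' (et (cj p h2)) • (1 : CC Q)) +
      del (cj p' (et (cj p h1))) (cj p h2 • (1 : CC Q)) +
      Xi (cj p' (et (cj p h1))) (cj p' (et (cj p h2)) • (1 : CC Q)) (cj p h2 • (1 : CC Q)) := by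
  obtain ⟨ζ, hζ, e⟩ := Y_one h2 p p'
  have hN := Nice_cjRC p' (cj p h1 • (1 : CC Q))
  rw [e, Y_split h1, del_comp, T3_Nice_left hN, Xi_Nice hN, del_ι_mul, del_ι_mul, hN.hom, del_cjRC_ι,
    del_mul, ← dV_def, map_add, dV_isZ hζ, ← T3_def]
  abel

theorem Vst {h1 h2 : NN Q} (k1 : h1 • (1 : CC Q) = 1) (k2 : h2 • (1 : CC Q) = 1) (p p' : G Q) :
    del (cj p' (et (cj p h1))) (cj p h2 • (1 : CC Q)) = del (cj p' (et (cj p h2))) (cj p h1 • (1 : CC Q)) := by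
  have a1 := X1 (cj_fix_comm k1 k2 (p * p'))
  have a2 := X1 (cj_fix_comm (et_one (cj p h1)) (et_one (cj p h2)) p')
  obtain ⟨ζ1, _, e1⟩ := Y_one h1 p p'
  obtain ⟨ζ2, _, e2⟩ := Y_one h2 p p'
  rw [half h1 h2, half h2 h1, e1, e2, cc_ι_mul_left, cc_ι_mul_right, cc_mul_left, cc_mul_right,
    cc_mul_right, S_a k1 k2, S_b k1 k2, S_c k1 k2, S_d k1 k2, S_d k2 k1, S_e1 k1 k2, ← a2] at a1
  have a3 := S_e2 k1 k2 p p'
  linear_combination (norm := module) a1 + a3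

end Pool.Agent.R675.AIM
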