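import Pool.Agent.R675.AIM.Quot

set_option autoImplicit false

namespace Pool.Agent.R675.AIM

open Loop

variable {Q : Type} [Loop Q]

/-- orbit relation of a subgroup -/
def Orb (K : Subgroup (G Q)) (u v : Q) : Prop := ∃ g ∈ K, u = g • v

theorem Orb.refl (K : Subgroup (G Q)) (u : Q) : Orb K u u := ⟨1, one_mem _, (one_smul _ _).symm⟩
theorem Orb.symm {K : Subgroup (G Q)} {u v : Q} (h : Orb K u v) : Orb K v u := by
  obtain ⟨g, hg, e⟩ := h
  exact ⟨g⁻¹, inv_mem hg, by rw [e, inv_smul_smul]⟩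
theorem Orb.trans {K : Subgroup (G Q)} {u v w : Q} (h : Orb K u v) (h' : Orb K v w) : Orb K u w := by
  obtain ⟨g, hg, e⟩ := h
  obtain ⟨g', hg', e'⟩ := h'
  exact ⟨g * g', mul_mem hg hg', by rw [e, e', mul_smul]⟩
theorem Orb.smul {K : Subgroup (G Q)} [hK : K.Normal] {u v : Q} (h : Orb K u v) (p : G Q) :
    Orb K (p • u) (p • v) := by
  obtain ⟨g, hg, e⟩ := h
  refine ⟨p * g * p⁻¹, hK.conj_mem _ hg p, ?_⟩
  rw [e, mul_smul, mul_smul, inv_smul_smul]

theorem mem_of_orb {K : Subgroup (G Q)} [hp : PC K] {g g' : G Q} (h : ∀ q : Q, Orb K (g • q) (g' • q)) :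
    g * g'⁻¹ ∈ K := by
  apply hp.pc
  intro q
  obtain ⟨u, hu, e⟩ := h (g'⁻¹ • q)
  rw [smul_inv_smul] at e
  exact ⟨u, hu, by rw [mul_smul, e]⟩

theorem orb_of_mem {K : Subgroup (G Q)} {g g' : G Q} (h : g * g'⁻¹ ∈ K) (q : Q) : Orb K (g • q) (g' • q) :=
  ⟨_, h, by rw [← mul_smul]; simp⟩

/-- elements central modulo `K`, by equations -/
theorem Zt_of_orb {K : Subgroup (G Q)} [hK : K.Normal] [hp : PC K] {a : Q}
    (h1 : ∀ x : Q, Orb K (x * a) (a * x))
    (h3 : ∀ x y : Q, Orb K (x * (a * y)) ((x * a) * y))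
    (h4 : ∀ x y : Q, Orb K (x * (y * a)) ((x * y) * a)) : R a ∈ Zt K := by
  have cL : ∀ x : Q, (R a * L x) * (L x * R a)⁻¹ ∈ K := by
    intro x
    apply mem_of_orb
    intro y
    rw [mul_smul, mul_smul, sL, sR, sR, sL]
    exact (h4 x y).symm
  have cR : ∀ x : Q, (R a * R x) * (R x * R a)⁻¹ ∈ K := by
    intro x
    apply mem_of_orb
    intro y
    rw [mul_smul, mul_smul, sR, sR, sR, sR]
    have e1 := (h1 x).smul (L y)
    rw [sL, sL] at e1
    exact ((h4 y x).symm.trans e1).trans (h3 y x)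
  have cG : ∀ g : G Q, ((R a : G Q) : G Q ⧸ K) * (g : G Q ⧸ K) = (g : G Q ⧸ K) * (R a : G Q) := by
    intro g
    have conv : ∀ y : G Q, (R a * y) * (y * R a)⁻¹ ∈ K →
        ((R a : G Q) : G Q ⧸ K) * (y : G Q ⧸ K) = (y : G Q ⧸ K) * (R a : G Q) := by
      intro y hy
      rw [q_mem, QuotientGroup.mk_mul, QuotientGroup.mk_inv, mul_inv_eq_one, QuotientGroup.mk_mul,
        QuotientGroup.mk_mul] at hy
      exact hy
    refine G_ind (fun g => ((R a : G Q) : G Q ⧸ K) * (g : G Q ⧸ K) = (g : G Q ⧸ K) * (R a : G Q))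
      (fun y => conv _ (cR y)) (fun y => conv _ (cL y)) ?_ ?_ ?_ g
    · rw [QuotientGroup.mk_one, mul_one, one_mul]
    · intro a b ha hb
      rw [QuotientGroup.mk_mul, ← mul_assoc, ha, mul_assoc, hb, mul_assoc]
    · intro a ha
      rw [QuotientGroup.mk_inv, eq_inv_mul_iff_mul_eq, ← mul_assoc, ← ha, mul_inv_cancel_right]
  rw [mem_Zt]
  intro p
  refine ⟨(R a * p) * (p * R a)⁻¹, ?_, by group⟩
  rw [q_mem, QuotientGroup.mk_mul, QuotientGroup.mk_inv, QuotientGroup.mk_mul, QuotientGroup.mk_mul,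
    cG p, mul_inv_cancel]

theorem orb_of_Zt {K : Subgroup (G Q)} [hK : K.Normal] [hp : PC K] {a : Q} (ha : R a ∈ Zt K) (x y : Q) :
    Orb K (x * a) (a * x) ∧ Orb K (a * (x * y)) ((a * x) * y) ∧ Orb K (x * (a * y)) ((x * a) * y) ∧
    Orb K (x * (y * a)) ((x * y) * a) := by
  have hT : ∀ x, Orb K (x * a) (a * x) := by
    intro x
    have := orb_of_mem (LR_mem ha) x
    rw [sL, sR] at this
    exact this.symm
  have hc : ∀ p : G Q, Orb K (R a • p • (1 : Q)) (p • R a • (1 : Q)) := by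
    intro p
    obtain ⟨u, hu, e⟩ := mem_Zt.1 ha p
    refine ⟨u, hu, ?_⟩
    rw [← mul_smul, e, mul_smul, mul_smul]
  have hL : ∀ x y, Orb K (x * (y * a)) ((x * y) * a) := by
    intro x y
    have h1 := hc (L x * L y)
    rw [mul_smul, mul_smul, sL1, sL, sR, sR1, sL, sL] at h1
    exact h1.symm
  have hR : ∀ x y, Orb K ((x * y) * a) ((x * a) * y) := by
    intro x y
    have h1 := hc (R y * L x)
    rw [mul_smul, mul_smul, sL1, sR, sR, sR1, sL, sR] at h1
    exact h1
  have hR2 : ∀ x y, Orb K ((x * a) * y) ((a * x) * y) := by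
    intro x y
    have := (hT x).smul (R y)
    rw [sR, sR] at this
    exact this
  refine ⟨hT x, ?_, ?_, hL x y⟩
  · exact ((hT (x * y)).symm.trans (hR x y)).trans (hR2 x y)
  · have e1 := (hT y).smul (L x)
    rw [sL, sL] at e1
    exact (e1.symm.trans (hL x y)).trans (hR x y)

/-- the sets from the statement -/
theorem Zset_iff (Z : ℕ → Set Q) (h0 : Z 0 = {1})
    (hs : ∀ k, Z (k + 1) = {a | ∀ x y,
            (∃ n ∈ Z k, x * a = (a * x) * n) ∧
            (∃ n ∈ Z k, a * (x * y) = ((a * x) * y) * n) ∧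
            (∃ n ∈ Z k, x * (a * y) = ((x * a) * y) * n) ∧
            (∃ n ∈ Z k, x * (y * a) = ((x * y) * a) * n)}) (k : ℕ) :
    (∀ a, a ∈ Z (k + 1) ↔ R a ∈ Zt (NI Q k)) ∧ (∀ u v : Q, (∃ n ∈ Z k, u = v * n) ↔ Orb (NI Q k) u v) := by
  have step : ∀ k, (∀ u v : Q, (∃ n ∈ Z k, u = v * n) ↔ Orb (NI Q k) u v) →
      (∀ a, a ∈ Z (k + 1) ↔ R a ∈ Zt (NI Q k)) := by
    intro k hk a
    rw [hs k]
    constructor
    · intro h
      apply Zt_of_orb
      · intro x; exact (hk _ _).1 (h x x).1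
      · intro x y; exact (hk _ _).1 (h x y).2.2.1
      · intro x y; exact (hk _ _).1 (h x y).2.2.2
    · intro h x y
      have := orb_of_Zt h x y
      exact ⟨(hk _ _).2 this.1, (hk _ _).2 this.2.1, (hk _ _).2 this.2.2.1, (hk _ _).2 this.2.2.2⟩
  have main : ∀ k, (∀ u v : Q, (∃ n ∈ Z k, u = v * n) ↔ Orb (NI Q k) u v) := by
    intro k
    induction k with
    | zero =>
      intro u v
      rw [h0]
      constructor
      · rintro ⟨n, hn, e⟩
        rw [Set.mem_singleton_iff] at hn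
        rw [hn, mul_one'] at e
        rw [e]; exact Orb.refl _ _
      · rintro ⟨g, hg, e⟩
        rw [NI_zero, Subgroup.mem_bot] at hg
        rw [hg, one_smul] at e
        exact ⟨1, rfl, by rw [e, mul_one']⟩
    | succ k ih =>
      intro u v
      have hZ := step k ih
      constructor
      · rintro ⟨n, hn, e⟩
        have := (hZ n).1 hn
        exact ⟨R n, by rw [NI_succ]; exact Zt_le_Nu (NI Q k) this, by rw [e, sR]⟩
      · rintro ⟨g, hg, e⟩
        rw [NI_succ, mem_Nu] at hg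
        obtain ⟨c, hc, e2⟩ := hg v
        have hc' : (L v)⁻¹ * c * L v ∈ Zt (NI Q k) := by
          have := (inferInstance : (Zt (NI Q k)).Normal).conj_mem _ hc (L v)⁻¹
          rwa [inv_inv] at this
        refine ⟨((L v)⁻¹ * c * L v) • (1 : Q), (hZ _).2 (R_mem_Zt hc'), ?_⟩
        rw [e, e2, ← sL v (_ • _), ← mul_smul]
        have : L v * ((L v)⁻¹ * c * L v) = c * L v := by group
        rw [this, mul_smul, sL1]
  exact ⟨step k (main k), main k⟩

theorem H_le_of_Zt (K : Subgroup (G Q)) [hK : K.Normal] [hp : PC K] (h : ∀ a : Q, R a ∈ Zt K) : H Q ≤ K :=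
  H_gen K (fun x => TTa (h x)) (fun x y => LLxa (h y) x) (fun x y => RRxa (h y) x)

theorem Zt_of_H_le (K : Subgroup (G Q)) [hK : K.Normal] (h : H Q ≤ K) (a : Q) : R a ∈ Zt K := by
  have mkH : ∀ g ∈ H Q, ((g : G Q) : G Q ⧸ K) = 1 := fun g hg => q_mem.1 (h hg)
  have mkR : ∀ p : G Q, ((p : G Q) : G Q ⧸ K) = ((R (p • (1 : Q)) : G Q) : G Q ⧸ K) := by
    intro p
    have := mkH _ (RinvH p)
    rw [QuotientGroup.mk_mul, QuotientGroup.mk_inv, inv_mul_eq_one] at this
    exact this.symm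
  have mkL : ∀ x : Q, ((L x : G Q) : G Q ⧸ K) = ((R x : G Q) : G Q ⧸ K) := by
    intro x
    have := mkR (L x)
    rwa [sL1] at this
  rw [mem_Zt]
  intro p
  refine ⟨(R a * p) * (p * R a)⁻¹, ?_, by group⟩
  rw [q_mem, QuotientGroup.mk_mul, QuotientGroup.mk_inv, mul_inv_eq_one]
  set b := p • (1 : Q) with hb
  have e1 : ((R a * p : G Q) : G Q ⧸ K) = ((R a * R b : G Q) : G Q ⧸ K) := by
    rw [QuotientGroup.mk_mul, QuotientGroup.mk_mul, mkR p]
  have e2 : ((p * R a : G Q) : G Q ⧸ K) = ((R (b * a) : G Q) : G Q ⧸ K) := by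
    rw [QuotientGroup.mk_mul, mkR p, ← hb, ← mkL b, ← QuotientGroup.mk_mul, mkR (L b * R a), mul_smul,
      sR1, sL]
  have e3 : ((R a * R b : G Q) : G Q ⧸ K) = ((R (b * a) : G Q) : G Q ⧸ K) := by
    rw [mkR (R a * R b), mul_smul, sR1, sR]
  rw [e1, e2, e3]

/-- commuting generators -/
theorem H_abelian (S : Set (G Q)) (hT : ∀ x, TT x ∈ S) (hL : ∀ x y, LL x y ∈ S) (hR : ∀ x y, RR x y ∈ S)
    (hc : ∀ a ∈ S, ∀ b ∈ S, a * b = b * a) : ∀ a ∈ H Q, ∀ b ∈ H Q, a * b = b * a := by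
  have h1 : ∀ s ∈ S, ∀ a ∈ H Q, a * s = s * a := by
    intro s hs
    let K : Subgroup (G Q) :=
      { carrier := {a | a * s = s * a}
        one_mem' := by simp
        mul_mem' := fun {a b} ha hb => by
          change a * b * s = s * (a * b)
          change a * s = s * a at ha
          change b * s = s * b at hb
          rw [mul_assoc, hb, ← mul_assoc, ha, mul_assoc]
        inv_mem' := fun {a} ha => by
          change a⁻¹ * s = s * a⁻¹
          change a * s = s * a at ha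
          rw [inv_mul_eq_iff_eq_mul, ← mul_assoc, ha, mul_inv_cancel_right] }
    have : H Q ≤ K := H_gen K (fun x => hc _ (hT x) _ hs) (fun x y => hc _ (hL x y) _ hs)
      (fun x y => hc _ (hR x y) _ hs)
    exact fun a ha => this ha
  intro b hb
  let K : Subgroup (G Q) :=
    { carrier := {a | a * b = b * a}
      one_mem' := by simp
      mul_mem' := fun {a c} ha hc => by
        change a * c * b = b * (a * c)
        change a * b = b * a at ha
        change c * b = b * c at hc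
        rw [mul_assoc, hc, ← mul_assoc, ha, mul_assoc]
      inv_mem' := fun {a} ha => by
        change a⁻¹ * b = b * a⁻¹
        change a * b = b * a at ha
        rw [inv_mul_eq_iff_eq_mul, ← mul_assoc, ha, mul_inv_cancel_right] }
  have : H Q ≤ K := H_gen K (fun x => (h1 _ (hT x) b hb).symm) (fun x y => (h1 _ (hL x y) b hb).symm)
    (fun x y => (h1 _ (hR x y) b hb).symm)
  exact fun a ha => (this ha).symm

/-- main theorem, for `Loop` -/
theorem mainLoop (hab : ∀ a ∈ H Q, ∀ b ∈ H Q, a * b = b * a) (Z : ℕ → Set Q) (h0 : Z 0 = {1})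
    (hs : ∀ k, Z (k + 1) = {a | ∀ x y,
            (∃ n ∈ Z k, x * a = (a * x) * n) ∧
            (∃ n ∈ Z k, a * (x * y) = ((a * x) * y) * n) ∧
            (∃ n ∈ Z k, x * (a * y) = ((x * a) * y) * n) ∧
            (∃ n ∈ Z k, x * (y * a) = ((x * y) * a) * n)})
    (hn : ∃ n, Z n = Set.univ) : Z 3 = Set.univ := by
  have key : ∀ k, H Q ≤ NI Q k → Z 3 = Set.univ := by
    intro k hk
    have h2 := reduce k Q hab (hk.trans (NI_mono3 Q k))
    apply Set.eq_univ_of_forall
    intro a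
    exact ((Zset_iff Z h0 hs 2).1 a).2 (Zt_of_H_le _ h2 a)
  obtain ⟨n, hn⟩ := hn
  cases n with
  | zero =>
    apply key 0
    intro g _
    rw [NI_zero, Subgroup.mem_bot]
    apply G_ext
    intro q
    have h1 : ∀ x : Q, x = 1 := by
      intro x
      have : x ∈ Z 0 := by rw [hn]; trivial
      rw [h0] at this
      exact this
    rw [h1 (g • q), h1 ((1 : G Q) • q)]
  | succ k =>
    apply key k
    apply H_le_of_Zt
    intro a
    apply ((Zset_iff Z h0 hs k).1 a).1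
    rw [hn]; trivial

end Pool.Agent.R675.AIM
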